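import Mathlib

set_option autoImplicit false

/-! # Legendre's sieve for several classes modulo every small prime -/

namespace Pool.Agent.T2H64.IP

open Finset

/-- the `t ∈ (a, b]`, `t ≡ c` modulo `q`, outside the classes `B p` -/
def CC (P : Finset ℕ) (B : ℕ → Finset ℕ) (q c a b : ℕ) : Finset ℕ :=
  (Ioc a b).filter (fun t => t ≡ c [MOD q] ∧ ∀ p ∈ P, t % p ∉ B p)

lemma card_class (q c a b : ℕ) (hq : 0 < q) (hab : a ≤ b) :
    |(((Ioc a b).filter (fun t => t ≡ c [MOD q])).card : ℝ) - ((b : ℝ) - a) / q| ≤ 1 := by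
  have h := Nat.Ioc_filter_modEq_card a b hq c
  have hq0 : (0 : ℝ) < q := by exact_mod_cast hq
  set N := ((Ioc a b).filter (fun t => t ≡ c [MOD q])).card with hN
  have hN' : (N : ℝ) = ((max (⌊(b - c : ℚ) / q⌋ - ⌊(a - c : ℚ) / q⌋) 0 : ℤ) : ℝ) := by
    have h2 : ((N : ℤ) : ℝ) = ((max (⌊(b - c : ℚ) / q⌋ - ⌊(a - c : ℚ) / q⌋) 0 : ℤ) : ℝ) := by
      congr 1
    push_cast at h2 ⊢
    exact h2
  have hb1 := Int.floor_le ((b - c : ℚ) / q)
  have hb2 := Int.lt_floor_add_one ((b - c : ℚ) / q)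
  have ha1 := Int.floor_le ((a - c : ℚ) / q)
  have ha2 := Int.lt_floor_add_one ((a - c : ℚ) / q)
  set u := ⌊(b - c : ℚ) / q⌋ with hu
  set v := ⌊(a - c : ℚ) / q⌋ with hv
  have hb1' : (u : ℝ) ≤ (b - c : ℝ) / q := by exact_mod_cast hb1
  have hb2' : (b - c : ℝ) / q < u + 1 := by exact_mod_cast hb2
  have ha1' : (v : ℝ) ≤ (a - c : ℝ) / q := by exact_mod_cast ha1
  have ha2' : (a - c : ℝ) / q < v + 1 := by exact_mod_cast ha2
  have h3 : (b - c : ℝ) / q - (a - c : ℝ) / q = ((b : ℝ) - a) / q := by ring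
  have h4 : 0 ≤ ((b : ℝ) - a) / q := by
    have : (a : ℝ) ≤ b := by exact_mod_cast hab
    apply div_nonneg (by linarith) hq0.le
  rw [hN', abs_le]
  push_cast
  constructor
  · have := le_max_left ((u : ℝ) - v) 0
    linarith
  · have : max ((u : ℝ) - v) 0 ≤ ((b : ℝ) - a) / q + 1 := by
      apply max_le <;> linarith
    linarith

lemma leg2 (B : ℕ → Finset ℕ) (P : Finset ℕ) (hP : ∀ p ∈ P, p.Prime) (hB : ∀ p ∈ P, B p ⊆ range p) (a b : ℕ)
    (hab : a ≤ b) : ∀ q c : ℕ, 0 < q → (∀ p ∈ P, Nat.Coprime q p) →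
    |((CC P B q c a b).card : ℝ) - ((b : ℝ) - a) / q * ∏ p ∈ P, (1 - ((B p).card : ℝ) / p)| ≤
      ∏ p ∈ P, (1 + ((B p).card : ℝ)) := by
  induction P using Finset.induction_on with
  | empty =>
    intro q c hq _
    simp only [prod_empty, mul_one]
    have h : CC ∅ B q c a b = (Ioc a b).filter (fun t => t ≡ c [MOD q]) := by
      unfold CC
      apply filter_congr
      intro t _
      simp
    rw [h]
    exact card_class q c a b hq hab
  | insert p P hpP ih =>
    intro q c hq hcop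
    have hpp : p.Prime := hP p (mem_insert_self _ _)
    have hqp : Nat.Coprime q p := hcop p (mem_insert_self _ _)
    have ih' := ih (fun p' h => hP p' (mem_insert_of_mem h)) (fun p' h => hB p' (mem_insert_of_mem h))
    have hBp : B p ⊆ range p := hB p (mem_insert_self _ _)
    -- the partition
    set cr : ℕ → ℕ := fun β => (Nat.chineseRemainder hqp c β : ℕ) with hcr
    have hpart : CC P B q c a b = CC (insert p P) B q c a b ∪ (B p).biUnion (fun β => CC P B (q * p) (cr β) a b) := by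
      ext t
      simp only [CC, mem_union, mem_filter, mem_biUnion, mem_insert, forall_eq_or_imp]
      constructor
      · rintro ⟨h1, h2, h3⟩
        by_cases h4 : t % p ∈ B p
        · right
          refine ⟨t % p, h4, h1, ?_, h3⟩
          have h5 := (Nat.chineseRemainder hqp c (t % p)).2
          rw [← Nat.modEq_and_modEq_iff_modEq_mul hqp]
          exact ⟨h2.trans h5.1.symm, (Nat.mod_modEq t p).symm.trans h5.2.symm⟩
        · left
          exact ⟨h1, h2, h4, h3⟩
      · rintro (⟨h1, h2, _, h3⟩ | ⟨β, hβ, h1, h2, h3⟩)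
        · exact ⟨h1, h2, h3⟩
        · refine ⟨h1, ?_, h3⟩
          have h5 := (Nat.chineseRemainder hqp c β).2
          rw [← Nat.modEq_and_modEq_iff_modEq_mul hqp] at h2
          exact h2.1.trans h5.1
    have hclass : ∀ β ∈ B p, ∀ t ∈ CC P B (q * p) (cr β) a b, t % p = β := by
      intro β hβ t ht
      simp only [CC, mem_filter] at ht
      have h5 := (Nat.chineseRemainder hqp c β).2
      have h6 := ht.2.1
      rw [← Nat.modEq_and_modEq_iff_modEq_mul hqp] at h6
      have h7 : t ≡ β [MOD p] := h6.2.trans h5.2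
      have h8 : β < p := mem_range.1 (hBp hβ)
      have h9 : t % p = β % p := h7
      rwa [Nat.mod_eq_of_lt h8] at h9
    have hd1 : Disjoint (CC (insert p P) B q c a b) ((B p).biUnion (fun β => CC P B (q * p) (cr β) a b)) := by
      rw [Finset.disjoint_left]
      intro t h1 h2
      rw [mem_biUnion] at h2
      obtain ⟨β, hβ, h3⟩ := h2
      have h4 := hclass β hβ t h3
      simp only [CC, mem_filter, mem_insert, forall_eq_or_imp] at h1
      apply h1.2.2.1
      rw [h4]
      exact hβ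
    have hd2 : ∀ β ∈ B p, ∀ β' ∈ B p, β ≠ β' → Disjoint (CC P B (q * p) (cr β) a b) (CC P B (q * p) (cr β') a b) := by
      intro β hβ β' hβ' hne
      rw [Finset.disjoint_left]
      intro t h1 h2
      apply hne
      rw [← hclass β hβ t h1, ← hclass β' hβ' t h2]
    have hcard : ((CC P B q c a b).card : ℝ) = (CC (insert p P) B q c a b).card +
        ∑ β ∈ B p, ((CC P B (q * p) (cr β) a b).card : ℝ) := by
      rw [hpart, card_union_of_disjoint hd1, card_biUnion hd2]
      push_cast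
      rfl
    have hcop' : ∀ p' ∈ P, Nat.Coprime (q * p) p' := by
      intro p' hp'
      apply Nat.Coprime.mul_left (hcop p' (mem_insert_of_mem hp'))
      rw [Nat.coprime_primes hpp (hP p' (mem_insert_of_mem hp'))]
      rintro rfl
      exact hpP hp'
    have h0 := ih' q c hq (fun p' h => hcop p' (mem_insert_of_mem h))
    have h1 : ∀ β ∈ B p, |((CC P B (q * p) (cr β) a b).card : ℝ) -
        ((b : ℝ) - a) / ((q * p : ℕ) : ℝ) * ∏ p ∈ P, (1 - ((B p).card : ℝ) / p)| ≤ ∏ p ∈ P, (1 + ((B p).card : ℝ)) :=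
      fun β _ => ih' (q * p) (cr β) (Nat.mul_pos hq hpp.pos) hcop'
    rw [prod_insert hpP, prod_insert hpP]
    set Pr := ∏ p ∈ P, (1 - ((B p).card : ℝ) / p) with hPrd
    set E := ∏ p ∈ P, (1 + ((B p).card : ℝ)) with hE
    have hq0 : (0 : ℝ) < q := by exact_mod_cast hq
    have hp0 : (0 : ℝ) < p := by exact_mod_cast hpp.pos
    have h2 : |∑ β ∈ B p, ((CC P B (q * p) (cr β) a b).card : ℝ) -
        ((B p).card : ℝ) * (((b : ℝ) - a) / ((q * p : ℕ) : ℝ) * Pr)| ≤ (B p).card * E := by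
      have h3 : ∑ β ∈ B p, ((CC P B (q * p) (cr β) a b).card : ℝ) -
          ((B p).card : ℝ) * (((b : ℝ) - a) / ((q * p : ℕ) : ℝ) * Pr) =
          ∑ β ∈ B p, (((CC P B (q * p) (cr β) a b).card : ℝ) - ((b : ℝ) - a) / ((q * p : ℕ) : ℝ) * Pr) := by
        rw [sum_sub_distrib, sum_const, nsmul_eq_mul]
      rw [h3]
      refine (abs_sum_le_sum_abs _ _).trans ?_
      refine (sum_le_sum h1).trans ?_
      rw [sum_const, nsmul_eq_mul]
    have h4 : ((CC (insert p P) B q c a b).card : ℝ) - ((b : ℝ) - a) / q * ((1 - ((B p).card : ℝ) / p) * Pr) =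
        (((CC P B q c a b).card : ℝ) - ((b : ℝ) - a) / q * Pr) -
        (∑ β ∈ B p, ((CC P B (q * p) (cr β) a b).card : ℝ) -
        ((B p).card : ℝ) * (((b : ℝ) - a) / ((q * p : ℕ) : ℝ) * Pr)) := by
      rw [hcard]
      push_cast
      field_simp
      ring
    rw [h4]
    refine (abs_sub _ _).trans ?_
    linarith

/-- the primes up to `z` -/
def PZ (z : ℕ) : Finset ℕ := (Icc 1 z).filter Nat.Prime

lemma prod_low (z : ℕ) (hz : 2 ≤ z) (w : ℕ → ℕ) (hw2 : w 2 ≤ 1) (hw : ∀ p, w p ≤ 2) :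
    1 / (z : ℝ) ^ 2 ≤ ∏ p ∈ PZ z, (1 - (w p : ℝ) / p) := by
  have hPZ : PZ z = insert 2 ((Icc 3 z).filter Nat.Prime) := by
    unfold PZ
    ext p
    simp only [mem_filter, mem_Icc, mem_insert]
    constructor
    · rintro ⟨⟨_, h1⟩, h2⟩
      have := h2.two_le
      by_cases h3 : p = 2
      · exact Or.inl h3
      · exact Or.inr ⟨⟨by omega, h1⟩, h2⟩
    · rintro (h | ⟨⟨h1, h2⟩, h3⟩)
      · rw [h]; exact ⟨⟨by norm_num, hz⟩, Nat.prime_two⟩
      · exact ⟨⟨by omega, h2⟩, h3⟩
  rw [hPZ, prod_insert (by simp)]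
  have h1 : (1 / 2 : ℝ) ≤ 1 - (w 2 : ℝ) / (2 : ℕ) := by
    have : (w 2 : ℝ) ≤ 1 := by exact_mod_cast hw2
    push_cast
    linarith
  have h2 : ∏ k ∈ Icc 3 z, (1 - 2 / (k : ℝ)) ≤ ∏ p ∈ (Icc 3 z).filter Nat.Prime, (1 - (w p : ℝ) / p) := by
    rw [prod_filter]
    apply prod_le_prod
    · intro k hk
      rw [mem_Icc] at hk
      have hk3 : (3 : ℝ) ≤ k := by exact_mod_cast hk.1
      have : 2 / (k : ℝ) ≤ 1 := by
        rw [div_le_one (by linarith)]; linarith
      linarith
    · intro k hk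
      rw [mem_Icc] at hk
      have hk3 : (3 : ℝ) ≤ k := by exact_mod_cast hk.1
      split_ifs
      · have h4 : (w k : ℝ) ≤ 2 := by exact_mod_cast hw k
        have : (w k : ℝ) / k ≤ 2 / k := by gcongr
        linarith
      · have : 0 ≤ 2 / (k : ℝ) := by positivity
        linarith
  have h3 : ∀ y : ℕ, 2 ≤ y → ∏ k ∈ Icc 3 y, (1 - 2 / (k : ℝ)) = 2 / ((y : ℝ) * (y - 1)) := by
    intro y hy
    induction y, hy using Nat.le_induction with
    | base => norm_num
    | succ y hy ih =>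
      rw [← Finset.insert_Icc_right_eq_Icc_add_one (by omega), prod_insert (by simp), ih]
      have hy2 : (2 : ℝ) ≤ y := by exact_mod_cast hy
      have e1 : (y : ℝ) ≠ 0 := by linarith
      have e2 : (y : ℝ) - 1 ≠ 0 := by linarith
      have e3 : (y : ℝ) + 1 ≠ 0 := by linarith
      push_cast
      have e4 : (y : ℝ) + 1 - 1 = y := by ring
      rw [e4]
      field_simp
      ring
  rw [h3 z hz] at h2
  have hz2 : (2 : ℝ) ≤ z := by exact_mod_cast hz
  have h4 : 0 ≤ 2 / ((z : ℝ) * (z - 1)) := by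
    apply div_nonneg (by norm_num)
    nlinarith
  calc 1 / (z : ℝ) ^ 2 ≤ 1 / ((z : ℝ) * (z - 1)) := by
        apply one_div_le_one_div_of_le
        · nlinarith
        · nlinarith
    _ = 1 / 2 * (2 / ((z : ℝ) * (z - 1))) := by ring
    _ ≤ _ := mul_le_mul h1 h2 h4 (by linarith)

/-- many `t` with `n - t` and `n + t` free of small prime factors -/
theorem pairs (n z a b : ℕ) (hz : 2 ≤ z) (hab : a ≤ b) (hbn : b < n) :
    ((b : ℝ) - a) / (z : ℝ) ^ 2 - 3 ^ (PZ z).card ≤
      (((Ioc a b).filter (fun t => ∀ p ∈ PZ z, ¬ p ∣ n - t ∧ ¬ p ∣ n + t)).card : ℝ) := by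
  set B : ℕ → Finset ℕ := fun p => {n % p, (p - n % p) % p} with hB
  have hprime : ∀ p ∈ PZ z, p.Prime := fun p hp => (mem_filter.1 hp).2
  have hBs : ∀ p ∈ PZ z, B p ⊆ range p := by
    intro p hp j hj
    have hp0 := (hprime p hp).pos
    rw [hB] at hj
    simp only [mem_insert, mem_singleton] at hj
    rw [mem_range]
    rcases hj with h | h
    · rw [h]; exact Nat.mod_lt _ hp0
    · rw [h]; exact Nat.mod_lt _ hp0
  have h := leg2 B (PZ z) hprime hBs a b hab 1 0 one_pos (fun p _ => Nat.coprime_one_left p)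
  have hset : CC (PZ z) B 1 0 a b = (Ioc a b).filter (fun t => ∀ p ∈ PZ z, ¬ p ∣ n - t ∧ ¬ p ∣ n + t) := by
    unfold CC
    apply filter_congr
    intro t ht
    rw [mem_Ioc] at ht
    have h1 : t ≡ 0 [MOD 1] := Nat.modEq_one
    simp only [h1, true_and]
    apply forall₂_congr
    intro p hp
    have hp0 := (hprime p hp).pos
    rw [hB]
    simp only [mem_insert, mem_singleton, not_or]
    have e1 : t % p = n % p ↔ p ∣ n - t := by
      have : t ≡ n [MOD p] ↔ p ∣ n - t := Nat.modEq_iff_dvd' (by omega)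
      exact this
    have e2 : t % p = (p - n % p) % p ↔ p ∣ n + t := by
      have hlt := Nat.mod_lt n hp0
      have hdv : p ∣ n + t ↔ (n % p + t % p) % p = 0 := by
        rw [Nat.dvd_iff_mod_eq_zero, Nat.add_mod]
      rw [hdv]
      have ht' := Nat.mod_lt t hp0
      rcases Nat.eq_zero_or_pos (n % p) with h0 | h0
      · rw [h0, Nat.sub_zero, Nat.mod_self, Nat.zero_add, Nat.mod_mod]
      · rw [Nat.mod_eq_of_lt (show p - n % p < p by omega)]
        constructor
        · intro h5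
          rw [h5]
          have : n % p + (p - n % p) = p := by omega
          rw [this, Nat.mod_self]
        · intro h5
          have h6 : p ∣ n % p + t % p := Nat.dvd_of_mod_eq_zero h5
          obtain ⟨c, hc⟩ := h6
          have : c = 1 := by
            have h7 : n % p + t % p < p * 2 := by omega
            rw [hc] at h7
            have h8 : c < 2 := Nat.lt_of_mul_lt_mul_left h7
            have h9 : c ≠ 0 := by
              rintro rfl
              rw [Nat.mul_zero] at hc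
              omega
            omega
          rw [this, Nat.mul_one] at hc
          omega
    rw [e1, e2]
  rw [hset] at h
  have hw : ∀ p, (B p).card ≤ 2 := fun p => card_le_two
  have hw2 : (B 2).card ≤ 1 := by
    rw [hB]
    rcases Nat.mod_two_eq_zero_or_one n with h1 | h1
    · simp [h1]
    · simp [h1]
  have hlow := prod_low z hz (fun p => (B p).card) hw2 hw
  have hup : ∏ p ∈ PZ z, (1 + ((B p).card : ℝ)) ≤ 3 ^ (PZ z).card := by
    rw [← prod_const]
    apply prod_le_prod (fun p _ => by positivity)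
    intro p _
    have : ((B p).card : ℝ) ≤ 2 := by exact_mod_cast hw p
    linarith
  have hab' : (0 : ℝ) ≤ (b : ℝ) - a := by
    have : (a : ℝ) ≤ b := by exact_mod_cast hab
    linarith
  rw [abs_le] at h
  have h5 := h.1
  rw [Nat.cast_one, div_one] at h5
  have h6 : ((b : ℝ) - a) / (z : ℝ) ^ 2 ≤ ((b : ℝ) - a) * ∏ p ∈ PZ z, (1 - ((B p).card : ℝ) / p) := by
    rw [div_eq_mul_one_div]
    exact mul_le_mul_of_nonneg_left hlow hab'
  linarith

end Pool.Agent.T2H64.IP
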