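import Mathlib
import Pool.Agent.T2H64.IP.Leg
import Pool.Agent.T2H53.GW.LowB

set_option autoImplicit false

/-! # The asymptotic facts -/

namespace Pool.Agent.T2H64.IP

open Finset Filter Topology
open Pool.Agent.T2H53.GW (pr)

/-- the bound for the gaps -/
noncomputable def hh (n : ℕ) : ℕ := ⌊Real.log (2 * n) ^ 3⌋₊

/-- the bound for the orders -/
def AA (n : ℕ) : ℕ := Nat.sqrt (Nat.log 2 n)

/-- the length of a block -/
noncomputable def LL (e : ℝ) (n : ℕ) : ℕ := ⌊(n : ℝ) ^ e⌋₊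

/-- the facts -/
structure Facts (A e : ℝ) (K₀ n : ℕ) (X : ℝ) : Prop where
  f0 : X = (n : ℝ) ^ (e / 8)
  f1 : 1000 ≤ X
  f2 : Real.log (2 * n) ≤ X
  f3 : ((hh n : ℝ) + 1) ^ (AA n + 1) ≤ X
  f4 : ∀ z : ℕ, (z : ℝ) ≤ A * Real.log (2 * n) + 2 → (z : ℝ) ≤ X ∧ (3 : ℝ) ^ (PZ z).card ≤ X
  f5 : ∀ j : ℕ, (n : ℝ) / 2 ≤ j → Pool.Agent.H305R2.VV ⌊A * Real.log j⌋₊ ≤ Real.log j / 2
  f7 : (K₀ : ℝ) ≤ X
  f8 : A ≤ X
  f9 : Real.exp (2 / A) ≤ X
  f10 : 1 ≤ hh n
  f11 : 1000 ≤ n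

lemma tN : Tendsto (fun n : ℕ => (n : ℝ)) atTop atTop := tendsto_natCast_atTop_atTop

lemma tL : Tendsto (fun n : ℕ => Real.log (n : ℝ)) atTop atTop := Real.tendsto_log_atTop.comp tN

lemma ev_big (M a : ℝ) (ha : 0 < a) : ∀ᶠ n : ℕ in atTop, M ≤ (n : ℝ) ^ a :=
  ((tendsto_rpow_atTop ha).comp tN).eventually_ge_atTop M

lemma ev_log_le (M a : ℝ) (ha : 0 < a) : ∀ᶠ n : ℕ in atTop, M * Real.log (2 * n) ≤ (n : ℝ) ^ a := by
  have h1 := (isLittleO_log_rpow_atTop ha).comp_tendsto tN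
  have h2 := h1.bound (show (0 : ℝ) < 1 / (2 * (|M| + 1)) by positivity)
  filter_upwards [h2, eventually_ge_atTop 2] with n h3 h4
  have hn2 : (2 : ℝ) ≤ n := by exact_mod_cast h4
  have hl0 : 0 ≤ Real.log (n : ℝ) := Real.log_nonneg (by linarith)
  simp only [Function.comp, Real.norm_eq_abs] at h3
  have h30 : 0 ≤ (n : ℝ) ^ a := by positivity
  rw [abs_of_nonneg hl0, abs_of_nonneg h30] at h3
  have h5 : Real.log (2 * n) ≤ 2 * Real.log n := by
    rw [Real.log_mul (by norm_num) (by linarith)]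
    have : Real.log 2 ≤ Real.log n := Real.log_le_log (by norm_num) hn2
    linarith
  have h50 : 0 ≤ Real.log (2 * (n : ℝ)) := Real.log_nonneg (by linarith)
  have h6 : M * Real.log (2 * n) ≤ (|M| + 1) * Real.log (2 * n) := by
    apply mul_le_mul_of_nonneg_right _ h50
    linarith [le_abs_self M]
  refine h6.trans ?_
  have hM : 0 < |M| + 1 := by positivity
  calc (|M| + 1) * Real.log (2 * n) ≤ (|M| + 1) * (2 * Real.log n) := by gcongr
    _ ≤ (|M| + 1) * (2 * (1 / (2 * (|M| + 1)) * (n : ℝ) ^ a)) := by gcongr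
    _ = (n : ℝ) ^ a := by field_simp

lemma ev_pow (c : ℝ) (hc : 0 < c) : ∀ᶠ l : ℝ in atTop,
    (2 * √l + 1) * (3 * Real.log (l + 2)) ≤ c * l := by
  have h1 := (isLittleO_log_rpow_atTop (show (0 : ℝ) < 1 / 4 by norm_num)).bound (show (0 : ℝ) < 1 by norm_num)
  have h2 := (tendsto_rpow_atTop (show (0 : ℝ) < 1 / 4 by norm_num)).eventually_ge_atTop (24 / c)
  filter_upwards [h1, h2, eventually_ge_atTop 4] with l h3 h4 h5
  have hl0 : 0 ≤ Real.log l := Real.log_nonneg (by linarith)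
  rw [Real.norm_of_nonneg hl0, Real.norm_of_nonneg (by positivity), one_mul] at h3
  have h6 : Real.log (l + 2) ≤ 2 * Real.log l := by
    have : 2 * Real.log l = Real.log (l ^ 2) := by rw [Real.log_pow]; norm_num
    rw [this]
    apply Real.log_le_log (by linarith)
    nlinarith
  have hs : 1 ≤ √l := by
    rw [Real.one_le_sqrt]; linarith
  have hs4 : √l = l ^ (1 / 4 : ℝ) * l ^ (1 / 4 : ℝ) := by
    rw [← Real.rpow_add (by linarith), Real.sqrt_eq_rpow]
    norm_num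
  set w := l ^ (1 / 4 : ℝ) with hw
  have hw0 : 0 ≤ w := by positivity
  have hl4 : l = w ^ 4 := by
    rw [hw, ← Real.rpow_natCast, ← Real.rpow_mul (by linarith)]
    norm_num
  have h7 : (2 * √l + 1) * (3 * Real.log (l + 2)) ≤ (4 * (w * w)) * (3 * (2 * w)) := by
    apply mul_le_mul
    · rw [← hs4]; linarith
    · have : Real.log (l + 2) ≤ 2 * w := h6.trans (by linarith)
      linarith
    · have : 0 ≤ Real.log (l + 2) := Real.log_nonneg (by linarith)
      linarith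
    · positivity
  refine h7.trans ?_
  rw [hl4]
  have h8 : 24 ≤ c * w := by
    rw [div_le_iff₀ hc] at h4
    linarith
  have : c * w ^ 4 = (c * w) * (w * w * w) := by ring
  rw [this]
  calc 4 * (w * w) * (3 * (2 * w)) = 24 * (w * w * w) := by ring
    _ ≤ _ := mul_le_mul_of_nonneg_right h8 (by positivity)

lemma AA_le (n : ℕ) (hn : 1 ≤ n) : (AA n : ℝ) ≤ 2 * √(Real.log n) := by
  have h1 : AA n * AA n ≤ Nat.log 2 n := Nat.sqrt_le _
  have h2 : 2 ^ (Nat.log 2 n) ≤ n := Nat.pow_log_le_self 2 (by omega)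
  have h3 : (Nat.log 2 n : ℝ) * Real.log 2 ≤ Real.log n := by
    rw [← Real.log_pow]
    apply Real.log_le_log (by positivity)
    exact_mod_cast h2
  have h4 : ((AA n : ℝ)) * AA n ≤ Nat.log 2 n := by exact_mod_cast h1
  have h5 : (0.69 : ℝ) ≤ Real.log 2 := by
    have := Real.log_two_gt_d9
    linarith
  have h0 : (0 : ℝ) ≤ AA n := Nat.cast_nonneg _
  have hl0 : 0 ≤ Real.log (n : ℝ) := Real.log_natCast_nonneg n
  have h6 : (AA n : ℝ) * AA n ≤ 4 * Real.log n := by nlinarith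
  have h7 : (AA n : ℝ) ≤ √(4 * Real.log n) := by
    apply Real.le_sqrt_of_sq_le
    rw [sq]; exact h6
  have h8 : √(4 * Real.log n) = 2 * √(Real.log n) := by
    rw [show (4 : ℝ) * Real.log n = 2 ^ 2 * Real.log n by ring, Real.sqrt_mul (by norm_num),
      Real.sqrt_sq (by norm_num)]
  rw [← h8]; exact h7

lemma ev_f3 (c : ℝ) (hc : 0 < c) : ∀ᶠ n : ℕ in atTop, ((hh n : ℝ) + 1) ^ (AA n + 1) ≤ (n : ℝ) ^ c := by
  filter_upwards [tL.eventually (ev_pow c hc), eventually_ge_atTop 8] with n h1 h2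
  have hn : (8 : ℝ) ≤ n := by exact_mod_cast h2
  have hl0 : 0 ≤ Real.log (n : ℝ) := Real.log_natCast_nonneg n
  have hl1 : 0 ≤ Real.log (2 * (n : ℝ)) := Real.log_nonneg (by linarith)
  have h3 : (hh n : ℝ) + 1 ≤ (Real.log n + 2) ^ 3 := by
    have h4 : (hh n : ℝ) ≤ Real.log (2 * n) ^ 3 := Nat.floor_le (by positivity)
    have h5 : Real.log (2 * (n : ℝ)) ≤ Real.log n + 1 := by
      rw [Real.log_mul (by norm_num) (by linarith)]
      have := Real.log_two_lt_d9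
      linarith
    have h6 : Real.log (2 * (n : ℝ)) ^ 3 ≤ (Real.log n + 1) ^ 3 := by gcongr
    nlinarith
  have h7 : ((hh n : ℝ) + 1) ^ (AA n + 1) ≤ ((Real.log n + 2) ^ 3) ^ (AA n + 1) := by
    gcongr
  refine h7.trans ?_
  have h8 : ((Real.log n + 2) ^ 3) ^ (AA n + 1) =
      Real.exp (((AA n : ℝ) + 1) * (3 * Real.log (Real.log n + 2))) := by
    have h9 : (Real.log n + 2) = Real.exp (Real.log (Real.log n + 2)) := (Real.exp_log (by linarith)).symm
    conv_lhs => rw [h9]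
    rw [← Real.exp_nat_mul, ← Real.exp_nat_mul]
    congr 1
    push_cast
    ring
  rw [h8, Real.rpow_def_of_pos (by linarith)]
  apply Real.exp_le_exp.mpr
  rw [mul_comm (Real.log (n : ℝ)) c]
  refine le_trans ?_ h1
  apply mul_le_mul_of_nonneg_right
  · linarith [AA_le n (by omega)]
  · have : 0 ≤ Real.log (Real.log (n : ℝ) + 2) := Real.log_nonneg (by linarith)
    linarith

lemma ev_pi (A c : ℝ) (hA : 0 < A) (hc : 0 < c) : ∀ᶠ n : ℕ in atTop,
    ∀ z : ℕ, (z : ℝ) ≤ A * Real.log (2 * n) + 2 → (3 : ℝ) ^ (PZ z).card ≤ (n : ℝ) ^ c := by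
  have hZt : Tendsto (fun n : ℕ => A * Real.log (2 * (n : ℝ)) + 2) atTop atTop := by
    apply tendsto_atTop_add_const_right
    apply Tendsto.const_mul_atTop hA
    apply Real.tendsto_log_atTop.comp
    exact Tendsto.const_mul_atTop (by norm_num) tN
  have h1 := hZt.eventually (Pool.Agent.T2H53.GW.pi_le 1 one_pos)
  have h2 := (Real.tendsto_log_atTop.comp hZt).eventually_ge_atTop (2 * 2 * (2 * A + 2) / c)
  filter_upwards [h1, h2, eventually_ge_atTop 8, tL.eventually_ge_atTop 1] with n h3 h4 h5 h6 z hz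
  have hn : (8 : ℝ) ≤ n := by exact_mod_cast h5
  set l := Real.log (n : ℝ) with hl
  obtain ⟨Z, hZ⟩ : ∃ Z, Z = A * Real.log (2 * (n : ℝ)) + 2 := ⟨_, rfl⟩
  simp only [Function.comp] at h4
  rw [← hZ] at h3 h4 hz
  have hl2 : Real.log (2 * (n : ℝ)) ≤ 2 * l := by
    rw [Real.log_mul (by norm_num) (by linarith)]
    have := Real.log_two_lt_d9
    linarith
  have hl20 : 0 ≤ Real.log (2 * (n : ℝ)) := Real.log_nonneg (by linarith)
  have hZle : Z ≤ (2 * A + 2) * l := by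
    rw [hZ]
    nlinarith
  have hZ2 : 2 ≤ Z := by
    rw [hZ]
    have : 0 ≤ A * Real.log (2 * (n : ℝ)) := by positivity
    linarith
  have hlZ : 0 < Real.log Z := Real.log_pos (by linarith)
  have hcard : ((PZ z).card : ℝ) ≤ 2 * (Z / Real.log Z) := by
    have e1 : (PZ z).card ≤ Nat.primeCounting ⌊Z⌋₊ := by
      unfold PZ
      rw [Pool.Agent.T2H53.GW.card_primes]
      exact Nat.monotone_primeCounting (Nat.le_floor hz)
    calc ((PZ z).card : ℝ) ≤ (Nat.primeCounting ⌊Z⌋₊ : ℝ) := by exact_mod_cast e1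
      _ ≤ (1 + 1) * (Z / Real.log Z) := h3
      _ = _ := by ring
  have hlog3 : Real.log 3 ≤ 2 := by
    have : Real.log 3 ≤ 3 - 1 := Real.log_le_sub_one_of_pos (by norm_num)
    linarith
  have hlog30 : 0 ≤ Real.log 3 := Real.log_nonneg (by norm_num)
  have h7 : ((PZ z).card : ℝ) * Real.log 3 ≤ c * l := by
    calc ((PZ z).card : ℝ) * Real.log 3 ≤ (2 * (Z / Real.log Z)) * 2 :=
          mul_le_mul hcard hlog3 hlog30 (by positivity)
      _ = 2 * 2 * Z / Real.log Z := by ring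
      _ ≤ 2 * 2 * ((2 * A + 2) * l) / Real.log Z := by gcongr
      _ ≤ c * l := by
        rw [div_le_iff₀ hlZ]
        rw [div_le_iff₀ hc] at h4
        have hl0 : 0 ≤ l := by linarith
        nlinarith
  rw [Real.rpow_def_of_pos (by linarith), ← hl]
  have h8 : (3 : ℝ) ^ (PZ z).card = Real.exp (((PZ z).card : ℝ) * Real.log 3) := by
    rw [Real.exp_nat_mul, Real.exp_log (by norm_num)]
  rw [h8]
  apply Real.exp_le_exp.mpr
  linarith

lemma ev_VV (A : ℝ) (hA : 0 < A) : ∀ᶠ n : ℕ in atTop, ∀ j : ℕ, (n : ℝ) / 2 ≤ j →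
    Pool.Agent.H305R2.VV ⌊A * Real.log j⌋₊ ≤ Real.log j / 2 := by
  have h1 := Pool.Agent.T2H53.GW.VV_ev A 1 hA one_pos le_rfl
  have h2 := Real.isLittleO_log_id_atTop.bound (show (0 : ℝ) < 1 / 8 by norm_num)
  have h3 : ∀ᶠ x : ℝ in atTop, Pool.Agent.H305R2.VV ⌊A * x⌋₊ ≤ x / 2 := by
    filter_upwards [h1, h2, eventually_ge_atTop 1] with x e1 e2 e3
    have hl0 : 0 ≤ Real.log x := Real.log_nonneg e3
    rw [Real.norm_of_nonneg hl0] at e2
    simp only [id] at e2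
    rw [Real.norm_of_nonneg (by linarith)] at e2
    have hG := Pool.Agent.T2H53.GW.GG_lt_two
    have hG1 := Pool.Agent.T2H53.GW.one_lt_GG
    refine e1.trans ?_
    nlinarith
  have h4 : ∀ᶠ j : ℕ in atTop, Pool.Agent.H305R2.VV ⌊A * Real.log j⌋₊ ≤ Real.log j / 2 := tL.eventually h3
  obtain ⟨N, hN⟩ := Filter.eventually_atTop.mp h4
  filter_upwards [eventually_ge_atTop (2 * N)] with n hn j hj
  apply hN
  have h5 : ((2 * N : ℕ) : ℝ) ≤ n := by exact_mod_cast hn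
  push_cast at h5
  have : (N : ℝ) ≤ j := by linarith
  exact_mod_cast this

theorem ev_facts (A e : ℝ) (hA : 0 < A) (he : 0 < e) (K₀ : ℕ) :
    ∀ᶠ n : ℕ in atTop, Facts A e K₀ n ((n : ℝ) ^ (e / 8)) := by
  have he8 : 0 < e / 8 := by positivity
  have hl2 : ∀ᶠ n : ℕ in atTop, 1 ≤ hh n := by
    filter_upwards [tL.eventually_ge_atTop 1, eventually_ge_atTop 1] with n h1 h2
    unfold hh
    apply Nat.le_floor
    have hn : (1 : ℝ) ≤ n := by exact_mod_cast h2
    have : 1 ≤ Real.log (2 * (n : ℝ)) := by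
      refine le_trans h1 (Real.log_le_log (by linarith) (by linarith))
    push_cast
    exact one_le_pow₀ this
  filter_upwards [ev_big 1000 _ he8, ev_log_le 1 _ he8, ev_f3 _ he8, ev_pi A _ hA he8, ev_VV A hA,
    ev_big K₀ _ he8, ev_big A _ he8, ev_big (Real.exp (2 / A)) _ he8, hl2, ev_log_le (A + 2) _ he8,
    tL.eventually_ge_atTop 1, eventually_ge_atTop 1000]
    with n g1 g2 g3 g4 g5 g6 g7 g8 g9 g10 g11 g12
  have hn : (1000 : ℝ) ≤ n := by exact_mod_cast g12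
  have h1 : 1 ≤ Real.log (2 * (n : ℝ)) :=
    le_trans g11 (Real.log_le_log (by linarith) (by linarith))
  refine ⟨rfl, g1, by linarith, g3, fun z hz => ⟨?_, g4 z hz⟩, g5, g6, g7, g8, g9, g12⟩
  refine hz.trans (le_trans ?_ g10)
  nlinarith

end Pool.Agent.T2H64.IP
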