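import Mathlib

set_option autoImplicit false

/-! # Product weights on the subsets of a finite set, a sequential bound -/

namespace Pool.Agent.T2H64.IP

open Finset MeasureTheory ProbabilityTheory

/-- the weight of the subset `T` of `D` -/
noncomputable def WW (p : ℕ → ℝ) (D T : Finset ℕ) : ℝ := ∏ j ∈ D, if j ∈ T then p j else 1 - p j

/-- the total weight of the subsets of `D` with `F` -/
noncomputable def PP (p : ℕ → ℝ) (D : Finset ℕ) (F : Finset ℕ → Prop) : ℝ := by
  classical exact ∑ T ∈ D.powerset, if F T then WW p D T else 0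

variable {p : ℕ → ℝ}

lemma WW_nonneg (hp0 : ∀ j, 0 ≤ p j) (hp1 : ∀ j, p j ≤ 1) (D T : Finset ℕ) : 0 ≤ WW p D T := by
  unfold WW
  apply prod_nonneg
  intro j _
  split_ifs
  · exact hp0 j
  · linarith [hp1 j]

lemma WW_union {D E T T' : Finset ℕ} (hDE : Disjoint D E) (hT : T ⊆ D) (hT' : T' ⊆ E) :
    WW p (D ∪ E) (T ∪ T') = WW p D T * WW p E T' := by
  unfold WW
  rw [prod_union hDE]
  congr 1
  · apply prod_congr rfl
    intro j hj
    have h1 : j ∉ T' := fun h => (Finset.disjoint_left.1 hDE hj) (hT' h)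
    simp only [mem_union, h1, or_false]
  · apply prod_congr rfl
    intro j hj
    have h1 : j ∉ T := fun h => (Finset.disjoint_left.1 hDE (hT h)) hj
    simp only [mem_union, h1, false_or]

lemma sum_union {D E : Finset ℕ} (hDE : Disjoint D E) (f : Finset ℕ → ℝ) :
    ∑ T ∈ (D ∪ E).powerset, f T = ∑ T ∈ D.powerset, ∑ T' ∈ E.powerset, f (T ∪ T') := by
  rw [← sum_product']
  symm
  apply sum_nbij' (i := fun x => x.1 ∪ x.2) (j := fun T => (T ∩ D, T ∩ E))
  · rintro ⟨T, T'⟩ h
    rw [mem_product, mem_powerset, mem_powerset] at h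
    rw [mem_powerset]
    exact union_subset_union h.1 h.2
  · intro T hT
    rw [mem_product, mem_powerset, mem_powerset]
    exact ⟨inter_subset_right, inter_subset_right⟩
  · rintro ⟨T, T'⟩ h
    rw [mem_product, mem_powerset, mem_powerset] at h
    have hd1 : ∀ j, j ∈ D → j ∉ E := fun j h => Finset.disjoint_left.1 hDE h
    simp only [Prod.mk.injEq]
    constructor
    · ext j
      simp only [mem_inter, mem_union]
      constructor
      · rintro ⟨h1 | h1, h2⟩
        · exact h1
        · exact absurd (h.2 h1) (hd1 j h2)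
      · intro h1; exact ⟨Or.inl h1, h.1 h1⟩
    · ext j
      simp only [mem_inter, mem_union]
      constructor
      · rintro ⟨h1 | h1, h2⟩
        · exact absurd h2 (hd1 j (h.1 h1))
        · exact h1
      · intro h1; exact ⟨Or.inr h1, h.2 h1⟩
  · intro T hT
    rw [mem_powerset] at hT
    simp only
    rw [← inter_union_distrib_left]
    exact inter_eq_left.2 hT
  · rintro ⟨T, T'⟩ _
    rfl

lemma PP_union {D E : Finset ℕ} (hDE : Disjoint D E) (F : Finset ℕ → Prop) :
    PP p (D ∪ E) F = ∑ T ∈ D.powerset, WW p D T * PP p E (fun T' => F (T ∪ T')) := by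
  classical
  unfold PP
  rw [sum_union hDE]
  apply sum_congr rfl
  intro T hT
  rw [mul_sum]
  apply sum_congr rfl
  intro T' hT'
  rw [mem_powerset] at hT hT'
  split_ifs
  · rw [WW_union hDE hT hT']
  · simp

lemma PP_nonneg (hp0 : ∀ j, 0 ≤ p j) (hp1 : ∀ j, p j ≤ 1) (D : Finset ℕ) (F : Finset ℕ → Prop) : 0 ≤ PP p D F := by
  classical
  unfold PP
  apply sum_nonneg
  intro T _
  split_ifs
  · exact WW_nonneg hp0 hp1 D T
  · exact le_rfl

lemma PP_mono (hp0 : ∀ j, 0 ≤ p j) (hp1 : ∀ j, p j ≤ 1) {D : Finset ℕ} {F G : Finset ℕ → Prop}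
    (h : ∀ T ⊆ D, F T → G T) : PP p D F ≤ PP p D G := by
  classical
  unfold PP
  apply sum_le_sum
  intro T hT
  rw [mem_powerset] at hT
  by_cases h1 : F T
  · rw [if_pos h1, if_pos (h T hT h1)]
  · rw [if_neg h1]
    split_ifs
    · exact WW_nonneg hp0 hp1 D T
    · exact le_rfl

lemma PP_congr {D : Finset ℕ} {F G : Finset ℕ → Prop} (h : ∀ T ⊆ D, F T ↔ G T) : PP p D F = PP p D G := by
  classical
  unfold PP
  apply sum_congr rfl
  intro T hT
  rw [mem_powerset] at hT
  by_cases h1 : F T
  · rw [if_pos h1, if_pos ((h T hT).1 h1)]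
  · rw [if_neg h1, if_neg (fun h2 => h1 ((h T hT).2 h2))]

lemma sum_WW (D : Finset ℕ) : ∑ T ∈ D.powerset, WW p D T = 1 := by
  have h := Finset.prod_add p (fun j => 1 - p j) D
  have h1 : ∏ j ∈ D, (p j + (1 - p j)) = 1 := by
    apply prod_eq_one; intro j _; ring
  rw [h1] at h
  rw [h]
  apply sum_congr rfl
  intro T hT
  rw [mem_powerset] at hT
  unfold WW
  rw [← prod_sdiff hT, mul_comm]
  congr 1
  · exact prod_congr rfl fun j hj => by rw [if_pos hj]
  · exact prod_congr rfl fun j hj => by rw [if_neg (mem_sdiff.1 hj).2]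

lemma PP_true (D : Finset ℕ) : PP p D (fun _ => True) = 1 := by
  classical
  unfold PP
  simp only [if_true]
  exact sum_WW D

lemma PP_not (D : Finset ℕ) (F : Finset ℕ → Prop) : PP p D (fun T => ¬ F T) = 1 - PP p D F := by
  classical
  rw [← PP_true (p := p) D]
  unfold PP
  rw [← sum_sub_distrib]
  apply sum_congr rfl
  intro T _
  by_cases h : F T
  · simp [h]
  · simp [h]

/-- events of disjoint sets of coordinates -/
lemma PP_and {D E : Finset ℕ} (hDE : Disjoint D E) (F G : Finset ℕ → Prop) :
    PP p (D ∪ E) (fun T => F (T ∩ D) ∧ G (T ∩ E)) = PP p D F * PP p E G := by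
  classical
  rw [PP_union hDE]
  have h1 : ∀ T ∈ D.powerset, WW p D T * PP p E (fun T' => F ((T ∪ T') ∩ D) ∧ G ((T ∪ T') ∩ E)) =
      (if F T then WW p D T else 0) * PP p E G := by
    intro T hT
    rw [mem_powerset] at hT
    have h2 : ∀ T' ⊆ E, (F ((T ∪ T') ∩ D) ∧ G ((T ∪ T') ∩ E)) ↔ (F T ∧ G T') := by
      intro T' hT'
      have hd1 : ∀ j, j ∈ D → j ∉ E := fun j h => Finset.disjoint_left.1 hDE h
      have h3 : (T ∪ T') ∩ D = T := by
        ext j
        simp only [mem_inter, mem_union]
        constructor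
        · rintro ⟨h1 | h1, h2⟩
          · exact h1
          · exact absurd (hT' h1) (hd1 j h2)
        · intro h1; exact ⟨Or.inl h1, hT h1⟩
      have h4 : (T ∪ T') ∩ E = T' := by
        ext j
        simp only [mem_inter, mem_union]
        constructor
        · rintro ⟨h1 | h1, h2⟩
          · exact absurd h2 (hd1 j (hT h1))
          · exact h1
        · intro h1; exact ⟨Or.inr h1, hT' h1⟩
      rw [h3, h4]
    rw [PP_congr h2]
    by_cases hF : F T
    · rw [if_pos hF]
      congr 1
      apply PP_congr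
      intro T' _
      simp [hF]
    · rw [if_neg hF, zero_mul]
      have : PP p E (fun T' => F T ∧ G T') = 0 := by
        unfold PP
        apply sum_eq_zero
        intro T' _
        simp [hF]
      rw [this, mul_zero]
  rw [sum_congr rfl h1, ← sum_mul]
  rfl

/-- an event of a part of the coordinates -/
lemma PP_left {D E : Finset ℕ} (hDE : Disjoint D E) (F : Finset ℕ → Prop) :
    PP p (D ∪ E) (fun T => F (T ∩ D)) = PP p D F := by
  have h := PP_and (p := p) hDE F (fun _ => True)
  rw [PP_true, mul_one] at h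
  rw [← h]
  apply PP_congr
  intro T _
  simp

/-- the sequential bound -/
lemma seq_bound (hp0 : ∀ j, 0 ≤ p j) (hp1 : ∀ j, p j ≤ 1) (V : ℕ → Finset ℕ) (Q : Finset ℕ → Prop)
    (Hit : ℕ → Finset ℕ → Prop) (K : ℕ) (δ : ℝ) (hδ : δ ≤ 1) (hV : ∀ k < K, V k ⊆ V (k + 1))
    (hQ : ∀ k < K, ∀ T ⊆ V (k + 1), Q T → Q (T ∩ V k))
    (hloc : ∀ k < K, ∀ i < k, ∀ T ⊆ V (k + 1), Hit i T ↔ Hit i (T ∩ V k))
    (hhit : ∀ k < K, ∀ T ⊆ V k, Q T → δ ≤ PP p (V (k + 1) \ V k) (fun T' => Hit k (T ∪ T'))) :
    PP p (V K) (fun T => Q T ∧ ∀ k < K, ¬ Hit k T) ≤ (1 - δ) ^ K := by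
  classical
  induction K with
  | zero =>
    rw [pow_zero, ← PP_true (p := p) (V 0)]
    exact PP_mono hp0 hp1 fun _ _ _ => trivial
  | succ K ih =>
    have ih' := ih (fun k hk => hV k (by omega)) (fun k hk => hQ k (by omega)) (fun k hk => hloc k (by omega))
      (fun k hk => hhit k (by omega))
    have hVK := hV K (by omega)
    have hdis : Disjoint (V K) (V (K + 1) \ V K) := disjoint_sdiff
    have huni : V (K + 1) = V K ∪ (V (K + 1) \ V K) := (union_sdiff_of_subset hVK).symm
    have hint : ∀ T ⊆ V K, ∀ T' ⊆ V (K + 1) \ V K, (T ∪ T') ∩ V K = T := by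
      intro T hT T' hT'
      ext j
      simp only [mem_inter, mem_union]
      constructor
      · rintro ⟨h1 | h1, h2⟩
        · exact h1
        · exact absurd h2 (mem_sdiff.1 (hT' h1)).2
      · intro h1; exact ⟨Or.inl h1, hT h1⟩
    have hsub : ∀ T ⊆ V K, ∀ T' ⊆ V (K + 1) \ V K, T ∪ T' ⊆ V (K + 1) := by
      intro T hT T' hT'
      exact union_subset (hT.trans hVK) (hT'.trans sdiff_subset)
    have h1 : PP p (V (K + 1)) (fun T => Q T ∧ ∀ k < K + 1, ¬ Hit k T) ≤
        ∑ T ∈ (V K).powerset, WW p (V K) T * (if (Q T ∧ ∀ k < K, ¬ Hit k T) then (1 - δ) else 0) := by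
      rw [huni, PP_union hdis]
      apply sum_le_sum
      intro T hT
      rw [mem_powerset] at hT
      apply mul_le_mul_of_nonneg_left _ (WW_nonneg hp0 hp1 _ _)
      by_cases hc : Q T ∧ ∀ k < K, ¬ Hit k T
      · rw [if_pos hc]
        have h2 := hhit K (by omega) T hT hc.1
        calc PP p (V (K + 1) \ V K) (fun T' => Q (T ∪ T') ∧ ∀ k < K + 1, ¬ Hit k (T ∪ T'))
            ≤ PP p (V (K + 1) \ V K) (fun T' => ¬ Hit K (T ∪ T')) :=
              PP_mono hp0 hp1 fun T' _ h3 => h3.2 K (by omega)
          _ = 1 - PP p (V (K + 1) \ V K) (fun T' => Hit K (T ∪ T')) := PP_not _ _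
          _ ≤ 1 - δ := by linarith
      · rw [if_neg hc]
        apply le_of_eq
        unfold PP
        apply sum_eq_zero
        intro T' hT'
        rw [mem_powerset] at hT'
        rw [if_neg]
        rintro ⟨h3, h4⟩
        apply hc
        have h5 := hQ K (by omega) (T ∪ T') (hsub T hT T' hT') h3
        rw [hint T hT T' hT'] at h5
        refine ⟨h5, fun k hk h6 => h4 k (by omega) ?_⟩
        rw [hloc K (by omega) k hk (T ∪ T') (hsub T hT T' hT'), hint T hT T' hT']
        exact h6
    refine h1.trans ?_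
    have h2 : ∑ T ∈ (V K).powerset, WW p (V K) T * (if (Q T ∧ ∀ k < K, ¬ Hit k T) then (1 - δ) else 0) =
        PP p (V K) (fun T => Q T ∧ ∀ k < K, ¬ Hit k T) * (1 - δ) := by
      unfold PP
      rw [sum_mul]
      apply sum_congr rfl
      intro T _
      by_cases hc : Q T ∧ ∀ k < K, ¬ Hit k T
      · rw [if_pos hc, if_pos hc]
      · rw [if_neg hc, if_neg hc]; ring
    rw [h2, pow_succ]
    exact mul_le_mul_of_nonneg_right ih' (by linarith)

section Measure

variable {Ω : Type*} [MeasurableSpace Ω] {μ : Measure Ω} [IsProbabilityMeasure μ] {S : ℕ → Set Ω}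

open scoped Classical in
/-- the random subset of `D` -/
noncomputable def RT (S : ℕ → Set Ω) (D : Finset ℕ) (ω : Ω) : Finset ℕ := D.filter (fun j => ω ∈ S j)

lemma meas_atom (hm : ∀ n, MeasurableSet (S n)) (D T : Finset ℕ) : MeasurableSet {ω | RT S D ω = T} := by
  classical
  by_cases hT : T ⊆ D
  · have : {ω | RT S D ω = T} = ⋂ j ∈ D, (if j ∈ T then S j else (S j)ᶜ) := by
      ext ω
      simp only [Set.mem_ofPred_eq, Set.mem_iInter]
      constructor
      · intro h j hj
        by_cases hjT : j ∈ T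
        · rw [if_pos hjT]
          rw [← h] at hjT
          unfold RT at hjT
          rw [mem_filter] at hjT
          exact hjT.2
        · rw [if_neg hjT]
          intro h2
          apply hjT
          rw [← h]
          unfold RT
          rw [mem_filter]
          exact ⟨hj, h2⟩
      · intro h
        ext j
        unfold RT
        rw [mem_filter]
        constructor
        · rintro ⟨h1, h2⟩
          by_contra hjT
          have := h j h1
          rw [if_neg hjT] at this
          exact this h2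
        · intro hjT
          have := h j (hT hjT)
          rw [if_pos hjT] at this
          exact ⟨hT hjT, this⟩
    rw [this]
    apply Finset.measurableSet_biInter
    intro j _
    split_ifs
    · exact hm j
    · exact (hm j).compl
  · have : {ω | RT S D ω = T} = ∅ := by
      ext ω
      simp only [Set.mem_ofPred_eq, Set.mem_empty_iff_false, iff_false]
      intro h
      apply hT
      rw [← h]
      exact filter_subset _ _
    rw [this]
    exact MeasurableSet.empty

lemma atom (hm : ∀ n, MeasurableSet (S n)) (hi : iIndepSet S μ) (D T : Finset ℕ) (hT : T ⊆ D) :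
    μ.real {ω | RT S D ω = T} = WW (fun j => μ.real (S j)) D T := by
  classical
  have heq : {ω | RT S D ω = T} = ⋂ j ∈ D, (if j ∈ T then S j else (S j)ᶜ) := by
    ext ω
    simp only [Set.mem_ofPred_eq, Set.mem_iInter]
    constructor
    · intro h j hj
      by_cases hjT : j ∈ T
      · rw [if_pos hjT]
        rw [← h] at hjT
        unfold RT at hjT
        rw [mem_filter] at hjT
        exact hjT.2
      · rw [if_neg hjT]
        intro h2
        apply hjT
        rw [← h]
        unfold RT
        rw [mem_filter]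
        exact ⟨hj, h2⟩
    · intro h
      ext j
      unfold RT
      rw [mem_filter]
      constructor
      · rintro ⟨h1, h2⟩
        by_contra hjT
        have := h j h1
        rw [if_neg hjT] at this
        exact this h2
      · intro hjT
        have := h j (hT hjT)
        rw [if_pos hjT] at this
        exact ⟨hT hjT, this⟩
  rw [heq, measureReal_def]
  have hind : iIndep (fun i => MeasurableSpace.generateFrom {S i}) μ := hi
  rw [hind.meas_biInter (s := fun j => if j ∈ T then S j else (S j)ᶜ)]
  · rw [ENNReal.toReal_prod]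
    unfold WW
    apply prod_congr rfl
    intro j _
    by_cases hjT : j ∈ T
    · rw [if_pos hjT, if_pos hjT]
      rfl
    · rw [if_neg hjT, if_neg hjT, ← measureReal_def, probReal_compl_eq_one_sub (hm j)]
  · intro j _
    have h1 : MeasurableSet[MeasurableSpace.generateFrom {S j}] (S j) :=
      MeasurableSpace.measurableSet_generateFrom rfl
    show MeasurableSet[MeasurableSpace.generateFrom {S j}] (if j ∈ T then S j else (S j)ᶜ)
    split_ifs
    · exact h1
    · exact h1.compl

/-- the probability of an event of finitely many coordinates -/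
lemma prob_eq (hm : ∀ n, MeasurableSet (S n)) (hi : iIndepSet S μ) (D : Finset ℕ) (F : Finset ℕ → Prop) :
    μ.real {ω | F (RT S D ω)} = PP (fun j => μ.real (S j)) D F := by
  classical
  have heq : {ω | F (RT S D ω)} = ⋃ T ∈ D.powerset.filter F, {ω | RT S D ω = T} := by
    ext ω
    simp only [Set.mem_ofPred_eq, Set.mem_iUnion, mem_filter, mem_powerset, exists_prop]
    constructor
    · intro h
      exact ⟨RT S D ω, ⟨filter_subset _ _, h⟩, rfl⟩
    · rintro ⟨T, ⟨_, h⟩, h2⟩
      rw [h2]
      exact h
  rw [heq, measureReal_biUnion_finset]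
  · unfold PP
    rw [sum_filter]
    apply sum_congr rfl
    intro T hT
    rw [mem_powerset] at hT
    rw [atom hm hi D T hT]
  · intro T _ T' _ hTT'
    rw [Function.onFun, Set.disjoint_left]
    intro ω h1 h2
    apply hTT'
    rw [← h1]
    exact h2
  · intro T _
    exact meas_atom hm D T

lemma meas_fin (hm : ∀ n, MeasurableSet (S n)) (D : Finset ℕ) (F : Finset ℕ → Prop) :
    MeasurableSet {ω | F (RT S D ω)} := by
  classical
  have heq : {ω | F (RT S D ω)} = ⋃ T ∈ D.powerset.filter F, {ω | RT S D ω = T} := by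
    ext ω
    simp only [Set.mem_ofPred_eq, Set.mem_iUnion, mem_filter, mem_powerset, exists_prop]
    constructor
    · intro h
      exact ⟨RT S D ω, ⟨filter_subset _ _, h⟩, rfl⟩
    · rintro ⟨T, ⟨_, h⟩, h2⟩
      rw [h2]
      exact h
  rw [heq]
  exact Finset.measurableSet_biUnion _ fun T _ => meas_atom hm D T

end Measure

end Pool.Agent.T2H64.IP
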