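import Mathlib
import Pool.Agent.T2H64.IP.Wt

set_option autoImplicit false

/-! # A local lower bound for the number of successes -/

namespace Pool.Agent.T2H64.IP

open Finset

/-- binomial weights -/
noncomputable def bb (m : ℕ) (p : ℝ) (a : ℕ) : ℝ := (m.choose a : ℝ) * p ^ a * (1 - p) ^ (m - a)

lemma bb_sum (m : ℕ) (p : ℝ) : ∑ a ∈ range (m + 1), bb m p a = 1 := by
  have h := add_pow p (1 - p) m
  rw [add_sub_cancel, one_pow] at h
  rw [h]
  apply sum_congr rfl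
  intro a _
  unfold bb
  ring

lemma bb_nonneg (m : ℕ) {p : ℝ} (hp : 0 ≤ p) (hp1 : p ≤ 1) (a : ℕ) : 0 ≤ bb m p a := by
  unfold bb
  have : 0 ≤ 1 - p := by linarith
  positivity

lemma bb_succ (m : ℕ) (p : ℝ) (a : ℕ) (ha : a < m) :
    bb m p (a + 1) * ((a : ℝ) + 1) * (1 - p) = bb m p a * ((m : ℝ) - a) * p := by
  unfold bb
  have h1 : (m.choose (a + 1) : ℝ) * ((a : ℝ) + 1) = m.choose a * ((m : ℝ) - a) := by
    have h2 := Nat.choose_succ_right_eq m a
    have h3 : ((m.choose (a + 1) * (a + 1) : ℕ) : ℝ) = ((m.choose a * (m - a) : ℕ) : ℝ) := by rw [h2]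
    push_cast [Nat.cast_sub ha.le] at h3
    exact h3
  have h4 : m - a = (m - (a + 1)) + 1 := by omega
  rw [h4, pow_succ (1 - p) (m - (a + 1)), pow_succ p a]
  calc (m.choose (a + 1) : ℝ) * (p ^ a * p) * (1 - p) ^ (m - (a + 1)) * ((a : ℝ) + 1) * (1 - p)
      = ((m.choose (a + 1) : ℝ) * ((a : ℝ) + 1)) * (p ^ a * p * (1 - p) ^ (m - (a + 1)) * (1 - p)) := by ring
    _ = (m.choose a * ((m : ℝ) - a)) * (p ^ a * p * (1 - p) ^ (m - (a + 1)) * (1 - p)) := by rw [h1]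
    _ = _ := by ring

lemma binom_local (m g : ℕ) (p : ℝ) (hp : 0 < p) (hp2 : p ≤ 1 / 2)
    (hg : 4 * ((g : ℝ) + 1) ^ 2 ≤ ((m : ℝ) + 1) * p) :
    ∃ a₀ : ℕ, a₀ ≤ m ∧ ∀ i ≤ g, a₀ + i ≤ m ∧ 1 / (2 * ((m : ℝ) + 1)) ≤ bb m p (a₀ + i) := by
  obtain ⟨a₀, ha₀, hmax⟩ := Finset.exists_max_image (range (m + 1)) (bb m p) ⟨0, by simp⟩
  rw [mem_range] at ha₀
  have hm0 : (0 : ℝ) < (m : ℝ) + 1 := by positivity
  have hbig : 1 / ((m : ℝ) + 1) ≤ bb m p a₀ := by
    rw [div_le_iff₀ hm0]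
    have hs := bb_sum m p
    have hs2 : ∑ a ∈ range (m + 1), bb m p a ≤ ∑ _a ∈ range (m + 1), bb m p a₀ := sum_le_sum hmax
    have hs3 : ∑ _a ∈ range (m + 1), bb m p a₀ = bb m p a₀ * ((m : ℝ) + 1) := by
      rw [sum_const, card_range, nsmul_eq_mul]; push_cast; ring
    linarith
  have hb0 : 0 < bb m p a₀ := lt_of_lt_of_le (by positivity) hbig
  -- location of the mode
  have hloc : (a₀ : ℝ) ≤ ((m : ℝ) + 1) * p := by
    rcases Nat.eq_zero_or_pos a₀ with h | h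
    · rw [h]; push_cast; positivity
    · have h1 := bb_succ m p (a₀ - 1) (by omega)
      have h2 : a₀ - 1 + 1 = a₀ := by omega
      rw [h2] at h1
      have h3 : ((a₀ - 1 : ℕ) : ℝ) = (a₀ : ℝ) - 1 := by
        rw [Nat.cast_sub h]; simp
      rw [h3] at h1
      have h4 := hmax (a₀ - 1) (by rw [mem_range]; omega)
      have h5 : (0 : ℝ) ≤ (m : ℝ) - (a₀ - 1) := by
        have : (a₀ : ℝ) ≤ m := by exact_mod_cast (by omega : a₀ ≤ m)
        linarith
      have h6 : bb m p a₀ * ((a₀ : ℝ) * (1 - p)) ≤ bb m p a₀ * (((m : ℝ) - (a₀ - 1)) * p) := by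
        calc bb m p a₀ * ((a₀ : ℝ) * (1 - p)) = bb m p a₀ * ((a₀ : ℝ) - 1 + 1) * (1 - p) := by ring
          _ = bb m p (a₀ - 1) * ((m : ℝ) - (a₀ - 1)) * p := h1
          _ ≤ bb m p a₀ * ((m : ℝ) - (a₀ - 1)) * p := by gcongr
          _ = _ := by ring
      have h7 := le_of_mul_le_mul_left h6 hb0
      nlinarith
  set M : ℝ := ((m : ℝ) + 1) * p with hM
  have hg0 : (0 : ℝ) ≤ g := Nat.cast_nonneg g
  have hroom : M + g + 1 ≤ m := by
    have h1 : M ≤ ((m : ℝ) + 1) / 2 := by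
      rw [hM]
      nlinarith
    nlinarith
  set c : ℝ := 1 / (2 * ((g : ℝ) + 1)) with hc
  have hc0 : 0 < c := by positivity
  have hc1 : c ≤ 1 / 2 := by
    rw [hc]
    apply one_div_le_one_div_of_le (by norm_num)
    linarith
  have hcg : c * (g + 1) = 1 / 2 := by
    rw [hc]; field_simp
  have hstep : ∀ i : ℕ, i < g → bb m p (a₀ + i) * (1 - c) ≤ bb m p (a₀ + i + 1) := by
    intro i hi
    have hig : (i : ℝ) + 1 ≤ g := by exact_mod_cast hi
    have hlt : a₀ + i < m := by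
      have : ((a₀ + i : ℕ) : ℝ) < m := by push_cast; linarith
      exact_mod_cast this
    have h1 := bb_succ m p (a₀ + i) hlt
    have hbi := bb_nonneg m hp.le (by linarith) (a₀ + i)
    push_cast at h1
    have h2 : (1 - c) * ((a₀ : ℝ) + i + 1) * (1 - p) ≤ ((m : ℝ) - (a₀ + i)) * p := by
      have h3 : (a₀ : ℝ) + i + 1 ≤ M + g := by linarith
      have h4 : M * (1 - p) - g * p ≤ ((m : ℝ) - (a₀ + i)) * p := by
        have : M * (1 - p) - g * p = ((m : ℝ) + 1 - M - g) * p := by rw [hM]; ring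
        rw [this]
        apply mul_le_mul_of_nonneg_right _ hp.le
        linarith
      refine le_trans ?_ h4
      have h5 : (1 - c) * ((a₀ : ℝ) + i + 1) * (1 - p) ≤ (1 - c) * (M + g) * (1 - p) := by
        apply mul_le_mul_of_nonneg_right _ (by linarith)
        apply mul_le_mul_of_nonneg_left h3 (by linarith)
      refine h5.trans ?_
      have h6 : (g : ℝ) + 1 ≤ c * M / 2 := by
        have : c * (4 * ((g : ℝ) + 1) ^ 2) ≤ c * M := mul_le_mul_of_nonneg_left hg hc0.le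
        have h8 : c * (4 * ((g : ℝ) + 1) ^ 2) = 2 * (g + 1) := by
          have : c * (4 * ((g : ℝ) + 1) ^ 2) = 4 * (g + 1) * (c * (g + 1)) := by ring
          rw [this, hcg]; ring
        linarith
      have hM0 : 0 ≤ M := by positivity
      have h9 : c * M / 2 ≤ c * M * (1 - p) := by nlinarith [mul_nonneg hc0.le hM0]
      have h10 : (1 - c) * g * (1 - p) + g * p ≤ g := by
        have h11 : (1 - c) * g * (1 - p) ≤ g * (1 - p) := by
          apply mul_le_mul_of_nonneg_right _ (by linarith)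
          nlinarith
        nlinarith
      nlinarith
    have h3 : bb m p (a₀ + i) * (1 - c) * (((a₀ : ℝ) + i + 1) * (1 - p)) ≤
        bb m p (a₀ + i + 1) * (((a₀ : ℝ) + i + 1) * (1 - p)) := by
      calc bb m p (a₀ + i) * (1 - c) * (((a₀ : ℝ) + i + 1) * (1 - p))
          = bb m p (a₀ + i) * ((1 - c) * ((a₀ : ℝ) + i + 1) * (1 - p)) := by ring
        _ ≤ bb m p (a₀ + i) * (((m : ℝ) - (a₀ + i)) * p) := mul_le_mul_of_nonneg_left h2 hbi
        _ = bb m p (a₀ + i) * ((m : ℝ) - (a₀ + i)) * p := by ring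
        _ = bb m p (a₀ + i + 1) * ((a₀ : ℝ) + i + 1) * (1 - p) := h1.symm
        _ = _ := by ring
    have h4 : (0 : ℝ) < ((a₀ : ℝ) + i + 1) * (1 - p) := by
      have : (0 : ℝ) < 1 - p := by linarith
      positivity
    exact le_of_mul_le_mul_right h3 h4
  have hpow : ∀ i : ℕ, i ≤ g → bb m p a₀ * (1 - c) ^ i ≤ bb m p (a₀ + i) := by
    intro i
    induction i with
    | zero => intro _; simp
    | succ i ih =>
      intro hi
      have h1 := ih (by omega)
      have h2 := hstep i (by omega)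
      calc bb m p a₀ * (1 - c) ^ (i + 1) = bb m p a₀ * (1 - c) ^ i * (1 - c) := by ring
        _ ≤ bb m p (a₀ + i) * (1 - c) := mul_le_mul_of_nonneg_right h1 (by linarith)
        _ ≤ _ := h2
  refine ⟨a₀, by omega, fun i hi => ⟨?_, ?_⟩⟩
  · have hig : (i : ℝ) ≤ g := by exact_mod_cast hi
    have : ((a₀ + i : ℕ) : ℝ) ≤ m := by push_cast; linarith
    exact_mod_cast this
  · refine le_trans ?_ (hpow i hi)
    have h1 : (1 / 2 : ℝ) ≤ (1 - c) ^ i := by
      have h2 : 1 + (i : ℝ) * (-c) ≤ (1 + -c) ^ i := one_add_mul_le_pow (by linarith) i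
      have hig : (i : ℝ) ≤ g := by exact_mod_cast hi
      have h3 : (i : ℝ) * c ≤ 1 / 2 := by
        calc (i : ℝ) * c ≤ (g + 1) * c := by gcongr; linarith
          _ = 1 / 2 := by rw [mul_comm]; exact hcg
      have h4 : (1 + -c) = 1 - c := by ring
      rw [h4] at h2
      linarith
    calc 1 / (2 * ((m : ℝ) + 1)) = 1 / ((m : ℝ) + 1) * (1 / 2) := by field_simp
      _ ≤ bb m p a₀ * (1 - c) ^ i := by gcongr

lemma count_low (J : Finset ℕ) (p q : ℝ) (f : ℕ → ℝ) (hp : 0 < p) (hpq : p ≤ q) (hq : q ≤ 1 / 2)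
    (hf : ∀ j ∈ J, p ≤ f j ∧ f j ≤ q) (hclose : (J.card : ℝ) * (q - p) ≤ 1 / 4) (a : ℕ) :
    1 / 2 * bb J.card p a ≤ PP f J (fun T => T.card = a) := by
  classical
  have h1 : PP f J (fun T => T.card = a) = ∑ T ∈ powersetCard a J, WW f J T := by
    have h0 : PP f J (fun T => T.card = a) = ∑ T ∈ J.powerset.filter (fun T => T.card = a), WW f J T := by
      unfold PP
      rw [sum_filter]
      apply sum_congr rfl
      intro T _
      by_cases h : T.card = a
      · rw [if_pos h, if_pos h]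
      · rw [if_neg h, if_neg h]
    rw [h0]
    congr 1
    ext T
    simp only [mem_filter, mem_powerset, mem_powersetCard]
  rw [h1]
  obtain ⟨m, hm⟩ : ∃ m, m = J.card := ⟨_, rfl⟩
  rw [← hm] at hclose ⊢
  have hq0 : 0 ≤ 1 - q := by linarith
  have h2 : ∀ T ∈ powersetCard a J, p ^ a * (1 - q) ^ (m - a) ≤ WW f J T := by
    intro T hT
    rw [mem_powersetCard] at hT
    unfold WW
    rw [← prod_sdiff hT.1, mul_comm]
    have e1 : (1 - q) ^ (m - a) ≤ ∏ j ∈ J \ T, (if j ∈ T then f j else 1 - f j) := by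
      rw [hm, ← hT.2, ← card_sdiff_of_subset hT.1, ← prod_const]
      apply prod_le_prod (fun _ _ => hq0)
      intro j hj
      rw [mem_sdiff] at hj
      rw [if_neg hj.2]
      linarith [(hf j hj.1).2]
    have e2 : p ^ a ≤ ∏ j ∈ T, (if j ∈ T then f j else 1 - f j) := by
      rw [← hT.2, ← prod_const]
      apply prod_le_prod (fun _ _ => hp.le)
      intro j hj
      rw [if_pos hj]
      exact (hf j (hT.1 hj)).1
    exact mul_le_mul e1 e2 (by positivity) (le_trans (by positivity) e1)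
  have h3 : (m.choose a : ℝ) * (p ^ a * (1 - q) ^ (m - a)) ≤ ∑ T ∈ powersetCard a J, WW f J T := by
    calc (m.choose a : ℝ) * (p ^ a * (1 - q) ^ (m - a)) =
        ∑ _T ∈ powersetCard a J, p ^ a * (1 - q) ^ (m - a) := by
          rw [sum_const, card_powersetCard, nsmul_eq_mul, hm]
      _ ≤ _ := sum_le_sum h2
  refine le_trans ?_ h3
  -- comparison of `1 - q` and `1 - p`
  have hp1 : (1 / 2 : ℝ) ≤ 1 - p := by linarith
  have hx : 1 - q = (1 - p) * (1 - (q - p) / (1 - p)) := by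
    have : (1 - p) ≠ 0 := by linarith
    field_simp
    ring
  have hx1 : (q - p) / (1 - p) ≤ 2 * (q - p) := by
    rw [div_le_iff₀ (by linarith)]
    nlinarith
  have hx0 : 0 ≤ (q - p) / (1 - p) := div_nonneg (by linarith) (by linarith)
  have h4 : (1 / 2 : ℝ) ≤ (1 - (q - p) / (1 - p)) ^ (m - a) := by
    have h5 : 1 + ((m - a : ℕ) : ℝ) * (-((q - p) / (1 - p))) ≤ (1 + -((q - p) / (1 - p))) ^ (m - a) :=
      one_add_mul_le_pow (by linarith) _
    have h6 : ((m - a : ℕ) : ℝ) ≤ m := by exact_mod_cast Nat.sub_le m a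
    have h7 : ((m - a : ℕ) : ℝ) * ((q - p) / (1 - p)) ≤ m * (2 * (q - p)) :=
      mul_le_mul h6 hx1 hx0 (Nat.cast_nonneg _)
    have h8 : 1 + -((q - p) / (1 - p)) = 1 - (q - p) / (1 - p) := by ring
    rw [h8] at h5
    linarith
  have h9 : (1 / 2 : ℝ) * (1 - p) ^ (m - a) ≤ (1 - q) ^ (m - a) := by
    rw [hx, mul_pow, mul_comm]
    exact mul_le_mul_of_nonneg_left h4 (by positivity)
  unfold bb
  calc 1 / 2 * ((m.choose a : ℝ) * p ^ a * (1 - p) ^ (m - a)) =
      (m.choose a : ℝ) * (p ^ a * (1 / 2 * (1 - p) ^ (m - a))) := by ring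
    _ ≤ _ := by gcongr

/-- **the local lower bound** -/
lemma local_low (J : Finset ℕ) (p q : ℝ) (f : ℕ → ℝ) (hp : 0 < p) (hpq : p ≤ q) (hq : q ≤ 1 / 2)
    (hf : ∀ j ∈ J, p ≤ f j ∧ f j ≤ q) (hclose : (J.card : ℝ) * (q - p) ≤ 1 / 4) (g : ℕ)
    (hg : 4 * ((g : ℝ) + 1) ^ 2 ≤ ((J.card : ℝ) + 1) * p) :
    ∃ a₀ : ℕ, a₀ ≤ J.card ∧ ∀ i ≤ g, 1 / (4 * ((J.card : ℝ) + 1)) ≤ PP f J (fun T => T.card = a₀ + i) := by
  obtain ⟨a₀, h1, h2⟩ := binom_local J.card g p hp (by linarith) hg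
  refine ⟨a₀, h1, fun i hi => ?_⟩
  refine le_trans ?_ (count_low J p q f hp hpq hq hf hclose (a₀ + i))
  have h3 := (h2 i hi).2
  have h4 : 1 / (4 * ((J.card : ℝ) + 1)) = 1 / 2 * (1 / (2 * ((J.card : ℝ) + 1))) := by
    field_simp
    norm_num
  rw [h4]
  linarith

end Pool.Agent.T2H64.IP
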