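import Mathlib
import Pool.Agent.T2H64.IP.Bin

set_option autoImplicit false

/-! # The probability of a hit in one block -/

namespace Pool.Agent.T2H64.IP

open Finset

variable {f : ℕ → ℝ}

lemma PP_sub {D E : Finset ℕ} (hED : E ⊆ D) (F : Finset ℕ → Prop) :
    PP f D (fun T => F (T ∩ E)) = PP f E F := by
  have h := PP_left (p := f) (D := E) (E := D \ E) disjoint_sdiff F
  rw [union_sdiff_of_subset hED] at h
  exact h

lemma PP_single (u : ℕ) : PP f {u} (fun T => u ∈ T) = f u := by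
  classical
  unfold PP
  have h : ({u} : Finset ℕ).powerset = {∅, {u}} := by
    ext T
    simp only [mem_powerset, subset_singleton_iff, mem_insert, mem_singleton]
  rw [h, sum_pair]
  · simp [WW]
  · simp

lemma PP_empty {E : Finset ℕ} (h0 : ∀ j ∈ E, f j = 0) : PP f E (fun T => T = ∅) = 1 := by
  classical
  unfold PP
  rw [sum_eq_single ∅]
  · simp only [if_true]
    unfold WW
    apply prod_eq_one
    intro j hj
    simp [h0 j hj]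
  · intro T _ hT
    rw [if_neg hT]
  · intro h
    exact absurd (empty_mem_powerset _) h

open scoped Classical in
lemma PP_card_ge (hf0 : ∀ j, 0 ≤ f j) (hf1 : ∀ j, f j ≤ 1) (I : Finset ℕ) (a : ℕ) :
    PP f (I.filter (fun j => f j ≠ 0)) (fun T => T.card = a) ≤ PP f I (fun T => T.card = a) := by
  set J := I.filter (fun j => f j ≠ 0) with hJ
  have hJI : J ⊆ I := filter_subset _ _
  have hun : I = J ∪ (I \ J) := (union_sdiff_of_subset hJI).symm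
  have h1 := PP_and (p := f) (D := J) (E := I \ J) disjoint_sdiff (fun T => T.card = a) (fun T => T = ∅)
  rw [← hun] at h1
  have h2 : PP f (I \ J) (fun T => T = ∅) = 1 := by
    apply PP_empty
    intro j hj
    rw [mem_sdiff, hJ, mem_filter] at hj
    by_contra hcon
    exact hj.2 ⟨hj.1, hcon⟩
  rw [h2, mul_one] at h1
  rw [← h1]
  apply PP_mono hf0 hf1
  rintro T hT ⟨h3, h4⟩
  have h5 : T ∩ J = T := by
    ext j
    rw [mem_inter]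
    constructor
    · exact fun h => h.1
    · intro hj
      refine ⟨hj, ?_⟩
      by_contra hcon
      have : j ∈ T ∩ (I \ J) := by
        rw [mem_inter, mem_sdiff]
        exact ⟨hj, hT hj, hcon⟩
      rw [h4] at this
      simp at this
  rw [h5] at h3
  exact h3

open scoped Classical in
/-- the probability of a hit at the fixed place `t` in a block -/
lemma block_low (hf0 : ∀ j, 0 ≤ f j) (hf1 : ∀ j, f j ≤ 1) (n τ L t : ℕ) (h1 : τ < t) (h2 : t ≤ τ + L)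
    (hn : τ + L < n) (g : ℕ) (p₁ q₁ p₂ q₂ : ℝ) (hp₁ : 0 < p₁) (hpq₁ : p₁ ≤ q₁) (hq₁ : q₁ ≤ 1 / 2)
    (hp₂ : 0 < p₂) (hpq₂ : p₂ ≤ q₂) (hq₂ : q₂ ≤ 1 / 2) (J₁ J₂ : Finset ℕ)
    (hJ₁ : J₁ = (Ioo (n - t) (n - τ)).filter (fun j => f j ≠ 0))
    (hJ₂ : J₂ = (Ioo (n + τ) (n + t)).filter (fun j => f j ≠ 0))
    (hf₁ : ∀ j ∈ J₁, p₁ ≤ f j ∧ f j ≤ q₁) (hf₂ : ∀ j ∈ J₂, p₂ ≤ f j ∧ f j ≤ q₂)
    (hc₁ : (J₁.card : ℝ) * (q₁ - p₁) ≤ 1 / 4) (hc₂ : (J₂.card : ℝ) * (q₂ - p₂) ≤ 1 / 4)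
    (hg₁ : 4 * ((g : ℝ) + 1) ^ 2 ≤ ((J₁.card : ℝ) + 1) * p₁)
    (hg₂ : 4 * ((g : ℝ) + 1) ^ 2 ≤ ((J₂.card : ℝ) + 1) * p₂) :
    ∃ a₁ a₂ : ℕ, a₁ ≤ J₁.card ∧ a₂ ≤ J₂.card ∧ ∀ i₁ ≤ g, ∀ i₂ ≤ g,
      f (n - t) * f (n + t) * (1 / (4 * ((J₁.card : ℝ) + 1))) * (1 / (4 * ((J₂.card : ℝ) + 1))) ≤
      PP f (Ico (n - τ - L) (n - τ) ∪ Ioc (n + τ) (n + τ + L)) (fun T =>
        n - t ∈ T ∧ n + t ∈ T ∧ (T ∩ Ioo (n - t) (n - τ)).card = a₁ + i₁ ∧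
          (T ∩ Ioo (n + τ) (n + t)).card = a₂ + i₂) := by
  obtain ⟨a₁, ha₁, hl₁⟩ := local_low J₁ p₁ q₁ f hp₁ hpq₁ hq₁ hf₁ hc₁ g hg₁
  obtain ⟨a₂, ha₂, hl₂⟩ := local_low J₂ p₂ q₂ f hp₂ hpq₂ hq₂ hf₂ hc₂ g hg₂
  refine ⟨a₁, a₂, ha₁, ha₂, fun i₁ hi₁ i₂ hi₂ => ?_⟩
  set I₁ := Ioo (n - t) (n - τ) with hI₁
  set I₂ := Ioo (n + τ) (n + t) with hI₂
  set D := Ico (n - τ - L) (n - τ) ∪ Ioc (n + τ) (n + τ + L) with hD
  set E := ((I₁ ∪ I₂) ∪ {n - t}) ∪ {n + t} with hE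
  have hED : E ⊆ D := by
    intro j hj
    rw [hE, mem_union, mem_union, mem_union, hI₁, hI₂, mem_Ioo, mem_Ioo, mem_singleton, mem_singleton] at hj
    rw [hD, mem_union, mem_Ico, mem_Ioc]
    omega
  have hd1 : Disjoint ((I₁ ∪ I₂) ∪ {n - t}) {n + t} := by
    rw [disjoint_singleton_right, mem_union, mem_union, hI₁, hI₂, mem_Ioo, mem_Ioo, mem_singleton]
    omega
  have hd2 : Disjoint (I₁ ∪ I₂) {n - t} := by
    rw [disjoint_singleton_right, mem_union, hI₁, hI₂, mem_Ioo, mem_Ioo]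
    omega
  have hd3 : Disjoint I₁ I₂ := by
    rw [Finset.disjoint_left]
    intro j h3 h4
    rw [hI₁, mem_Ioo] at h3
    rw [hI₂, mem_Ioo] at h4
    omega
  have e1 : PP f D (fun T => n - t ∈ T ∧ n + t ∈ T ∧ (T ∩ I₁).card = a₁ + i₁ ∧ (T ∩ I₂).card = a₂ + i₂) =
      PP f E (fun T => n - t ∈ T ∧ n + t ∈ T ∧ (T ∩ I₁).card = a₁ + i₁ ∧ (T ∩ I₂).card = a₂ + i₂) := by
    rw [← PP_sub hED]
    apply PP_congr
    intro T _
    have h3 : n - t ∈ T ∩ E ↔ n - t ∈ T := by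
      rw [mem_inter, hE]; simp
    have h4 : n + t ∈ T ∩ E ↔ n + t ∈ T := by
      rw [mem_inter, hE]; simp
    have h5 : T ∩ E ∩ I₁ = T ∩ I₁ := by
      rw [inter_assoc]
      congr 1
      apply inter_eq_right.2
      intro j hj
      rw [hE]; simp [hj]
    have h6 : T ∩ E ∩ I₂ = T ∩ I₂ := by
      rw [inter_assoc]
      congr 1
      apply inter_eq_right.2
      intro j hj
      rw [hE]; simp [hj]
    rw [h3, h4, h5, h6]
  have e2 : PP f E (fun T => n - t ∈ T ∧ n + t ∈ T ∧ (T ∩ I₁).card = a₁ + i₁ ∧ (T ∩ I₂).card = a₂ + i₂) =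
      PP f E (fun T => (n - t ∈ T ∩ ((I₁ ∪ I₂) ∪ {n - t}) ∧ ((T ∩ ((I₁ ∪ I₂) ∪ {n - t})) ∩ I₁).card = a₁ + i₁ ∧
        ((T ∩ ((I₁ ∪ I₂) ∪ {n - t})) ∩ I₂).card = a₂ + i₂) ∧ n + t ∈ T ∩ {n + t}) := by
    apply PP_congr
    intro T _
    have h5 : T ∩ ((I₁ ∪ I₂) ∪ {n - t}) ∩ I₁ = T ∩ I₁ := by
      rw [inter_assoc]
      congr 1
      apply inter_eq_right.2
      intro j hj
      simp [hj]
    have h6 : T ∩ ((I₁ ∪ I₂) ∪ {n - t}) ∩ I₂ = T ∩ I₂ := by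
      rw [inter_assoc]
      congr 1
      apply inter_eq_right.2
      intro j hj
      simp [hj]
    rw [h5, h6]
    simp only [mem_inter, mem_union, mem_singleton, or_true, and_true]
    tauto
  have e3 := PP_and (p := f) hd1 (fun T => n - t ∈ T ∧ (T ∩ I₁).card = a₁ + i₁ ∧ (T ∩ I₂).card = a₂ + i₂)
    (fun T => n + t ∈ T)
  rw [PP_single] at e3
  have e4 : PP f (I₁ ∪ I₂ ∪ {n - t}) (fun T => n - t ∈ T ∧ (T ∩ I₁).card = a₁ + i₁ ∧ (T ∩ I₂).card = a₂ + i₂) =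
      PP f (I₁ ∪ I₂ ∪ {n - t}) (fun T => (((T ∩ (I₁ ∪ I₂)) ∩ I₁).card = a₁ + i₁ ∧
        ((T ∩ (I₁ ∪ I₂)) ∩ I₂).card = a₂ + i₂) ∧ n - t ∈ T ∩ {n - t}) := by
    apply PP_congr
    intro T _
    have h5 : T ∩ (I₁ ∪ I₂) ∩ I₁ = T ∩ I₁ := by
      rw [inter_assoc]
      congr 1
      apply inter_eq_right.2
      intro j hj
      simp [hj]
    have h6 : T ∩ (I₁ ∪ I₂) ∩ I₂ = T ∩ I₂ := by
      rw [inter_assoc]
      congr 1
      apply inter_eq_right.2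
      intro j hj
      simp [hj]
    rw [h5, h6]
    simp only [mem_inter, mem_singleton, and_true]
    tauto
  have e5 := PP_and (p := f) hd2 (fun T => (T ∩ I₁).card = a₁ + i₁ ∧ (T ∩ I₂).card = a₂ + i₂)
    (fun T => n - t ∈ T)
  rw [PP_single] at e5
  have e6 := PP_and (p := f) hd3 (fun T => T.card = a₁ + i₁) (fun T => T.card = a₂ + i₂)
  have k1 := PP_card_ge hf0 hf1 I₁ (a₁ + i₁)
  have k2 := PP_card_ge hf0 hf1 I₂ (a₂ + i₂)
  rw [← hJ₁] at k1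
  rw [← hJ₂] at k2
  have l1 := (hl₁ i₁ hi₁).trans k1
  have l2 := (hl₂ i₂ hi₂).trans k2
  rw [e1, e2, e3, e4, e5, e6]
  have hu := hf0 (n - t)
  have hv := hf0 (n + t)
  have nn := PP_nonneg hf0 hf1 I₁ (fun T => T.card = a₁ + i₁)
  calc f (n - t) * f (n + t) * (1 / (4 * ((J₁.card : ℝ) + 1))) * (1 / (4 * ((J₂.card : ℝ) + 1)))
      = (1 / (4 * ((J₁.card : ℝ) + 1))) * (1 / (4 * ((J₂.card : ℝ) + 1))) * f (n - t) * f (n + t) := by ring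
    _ ≤ PP f I₁ (fun T => T.card = a₁ + i₁) * PP f I₂ (fun T => T.card = a₂ + i₂) * f (n - t) * f (n + t) := by
      gcongr

end Pool.Agent.T2H64.IP
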