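import Mathlib

set_option autoImplicit false

/-! # Iterated index sets of a set of natural numbers -/

namespace Pool.Agent.T2H64.IP

open Finset

open scoped Classical in
/-- the number of the elements `1 ≤ j ≤ x` of `R` -/
noncomputable def NN (R : Set ℕ) (x : ℕ) : ℕ := ((Icc 1 x).filter (fun j => j ∈ R)).card

/-- `I 0` all positive integers, `I (k+1)` the elements of `R` whose index is in `I k` -/
def II (R : Set ℕ) : ℕ → Set ℕ
  | 0 => {x | 1 ≤ x}
  | (k + 1) => {u | u ∈ R ∧ NN R u ∈ II R k}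

lemma NN_le (R : Set ℕ) (x : ℕ) : NN R x ≤ x := by
  classical
  unfold NN
  refine (card_filter_le _ _).trans ?_
  simp

lemma NN_mono (R : Set ℕ) {x y : ℕ} (h : x ≤ y) : NN R x ≤ NN R y := by
  classical
  unfold NN
  exact card_le_card (filter_subset_filter _ (Icc_subset_Icc_right h))

open scoped Classical in
lemma NN_split (R : Set ℕ) {x y : ℕ} (h : x ≤ y) :
    NN R y = NN R x + ((Ioc x y).filter (fun j => j ∈ R)).card := by
  unfold NN
  rw [← card_union_of_disjoint, ← filter_union]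
  · congr 2
    ext j
    simp only [mem_Icc, mem_union, mem_Ioc]
    omega
  · rw [Finset.disjoint_left]
    intro j h1 h2
    rw [mem_filter, mem_Icc] at h1
    rw [mem_filter, mem_Ioc] at h2
    omega

/-- every interval `(x, x + h]`, `K ≤ x ≤ M`, contains an element of `R` -/
def GP (R : Set ℕ) (K h M : ℕ) : Prop := ∀ x, K ≤ x → x ≤ M → ∃ y ∈ R, x < y ∧ y ≤ x + h

lemma NN_step {R : Set ℕ} {K h M : ℕ} (hG : GP R K h M) {x : ℕ} (hx : K ≤ x) (hM : x ≤ M) :
    NN R x + 1 ≤ NN R (x + h) := by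
  classical
  obtain ⟨y, hy, h1, h2⟩ := hG x hx hM
  rw [NN_split R (show x ≤ x + h by omega)]
  have : 0 < ((Ioc x (x + h)).filter (fun j => j ∈ R)).card := by
    rw [card_pos]
    exact ⟨y, by rw [mem_filter, mem_Ioc]; exact ⟨⟨h1, h2⟩, hy⟩⟩
  omega

lemma NN_steps {R : Set ℕ} {K h M : ℕ} (hG : GP R K h M) {x : ℕ} (hx : K ≤ x) :
    ∀ j : ℕ, (j = 0 ∨ x + (j - 1) * h ≤ M) → NN R x + j ≤ NN R (x + j * h) := by
  intro j
  induction j with
  | zero => intro _; simp
  | succ j ih =>
    intro h1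
    rcases h1 with h1 | h1
    · omega
    · rw [Nat.add_sub_cancel] at h1
      have h2 : j = 0 ∨ x + (j - 1) * h ≤ M := by
        rcases Nat.eq_zero_or_pos j with h3 | h3
        · exact Or.inl h3
        · right
          have : (j - 1) * h ≤ j * h := Nat.mul_le_mul_right _ (by omega)
          omega
      have h3 := ih h2
      have h4 := NN_step hG (x := x + j * h) (by omega) h1
      have h5 : x + (j + 1) * h = x + j * h + h := by ring
      rw [h5]
      omega

lemma exists_index {R : Set ℕ} {x y : ℕ} (hy : NN R x < y) (x' : ℕ) (hx' : y ≤ NN R x') :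
    ∃ u ∈ R, x < u ∧ u ≤ x' ∧ NN R u = y := by
  classical
  -- the least `u` with `NN R u ≥ y`
  have hex : ∃ u, y ≤ NN R u := ⟨x', hx'⟩
  have hle : Nat.find hex ≤ x' := Nat.find_min' hex hx'
  have hge : y ≤ NN R (Nat.find hex) := Nat.find_spec hex
  set u := Nat.find hex with hu
  have hxu : x < u := by
    by_contra hcon
    have := NN_mono R (show u ≤ x by omega)
    omega
  have hprev : NN R (u - 1) < y := by
    have := Nat.find_min hex (m := u - 1) (by omega)
    omega
  have h2 := NN_split R (show u - 1 ≤ u by omega)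
  have h3 : Ioc (u - 1) u = {u} := by
    ext j
    simp only [mem_Ioc, mem_singleton]
    omega
  rw [h3] at h2
  by_cases hR : u ∈ R
  · rw [filter_singleton, if_pos hR, card_singleton] at h2
    exact ⟨u, hR, hxu, hle, by omega⟩
  · rw [filter_singleton, if_neg hR, card_empty] at h2
    omega

/-- gaps of the iterated sets -/
lemma gapI {R : Set ℕ} {K h M : ℕ} (hG : GP R K h M) (hh : 1 ≤ h) :
    ∀ k x : ℕ, K * (h + 1) ^ k ≤ x → x + h ^ (k + 1) ≤ M → ∃ y ∈ II R k, x < y ∧ y ≤ x + h ^ k := by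
  intro k
  induction k with
  | zero =>
    intro x _ _
    exact ⟨x + 1, show 1 ≤ x + 1 by omega, by omega, by simp⟩
  | succ k ih =>
    intro x hx hM
    have hk1 : 1 ≤ (h + 1) ^ k := Nat.one_le_pow _ _ (by omega)
    have hpow : h ^ (k + 1) = h ^ k * h := pow_succ _ _
    have hpow2 : h ^ (k + 1 + 1) = h ^ (k + 1) * h := pow_succ _ _
    have hhk : 1 ≤ h ^ k := Nat.one_le_pow _ _ hh
    have hhk1 : 1 ≤ h ^ (k + 1) := Nat.one_le_pow _ _ hh
    have hle : h ^ (k + 1) ≤ h ^ (k + 1 + 1) := by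
      rw [hpow2]; exact Nat.le_mul_of_pos_right _ hh
    -- lower bound for the index
    have h1 : K * (h + 1) ^ (k + 1) = K * (h + 1) ^ k * h + K * (h + 1) ^ k := by ring
    have hKle : K ≤ K * (h + 1) ^ k := Nat.le_mul_of_pos_right _ hk1
    set X := K * (h + 1) ^ k with hX
    have h2 : X ≤ NN R x := by
      have h3 : NN R K + X ≤ NN R (K + X * h) := by
        apply NN_steps hG le_rfl
        rcases Nat.eq_zero_or_pos X with h4 | h4
        · exact Or.inl h4
        · right
          have : (X - 1) * h ≤ X * h := Nat.mul_le_mul_right _ (by omega)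
          omega
      have h4 : NN R (K + X * h) ≤ NN R x := NN_mono R (by omega)
      omega
    have h5 := NN_le R x
    obtain ⟨y, hy, hy1, hy2⟩ := ih (NN R x) h2 (by omega)
    have h6 : NN R x + h ^ k ≤ NN R (x + h ^ k * h) := by
      apply NN_steps hG (by omega)
      right
      have : (h ^ k - 1) * h ≤ h ^ k * h := Nat.mul_le_mul_right _ (by omega)
      omega
    obtain ⟨u, hu, hu1, hu2, hu3⟩ := exists_index hy1 (x + h ^ k * h) (hy2.trans h6)
    refine ⟨u, ⟨hu, by rw [hu3]; exact hy⟩, hu1, ?_⟩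
    rw [hpow]
    exact hu2

lemma NN_congr {R R' : Set ℕ} {Y : ℕ} (h : ∀ j ≤ Y, j ∈ R ↔ j ∈ R') {x : ℕ} (hx : x ≤ Y) : NN R x = NN R' x := by
  classical
  unfold NN
  congr 1
  apply filter_congr
  intro j hj
  rw [mem_Icc] at hj
  exact h j (by omega)

/-- the iterated sets up to `Y` depend only on the elements up to `Y` -/
lemma II_congr {R R' : Set ℕ} {Y : ℕ} (h : ∀ j ≤ Y, j ∈ R ↔ j ∈ R') :
    ∀ k u : ℕ, u ≤ Y → (u ∈ II R k ↔ u ∈ II R' k) := by
  intro k
  induction k with
  | zero => intro u _; exact Iff.rfl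
  | succ k ih =>
    intro u hu
    have h1 : NN R u = NN R' u := NN_congr h hu
    have h2 := ih (NN R u) ((NN_le R u).trans hu)
    constructor
    · rintro ⟨h3, h4⟩
      exact ⟨(h u hu).1 h3, by rw [← h1]; exact h2.1 h4⟩
    · rintro ⟨h3, h4⟩
      exact ⟨(h u hu).2 h3, h2.2 (by rw [h1]; exact h4)⟩

lemma II_anti {R : Set ℕ} (h0 : 0 ∉ R) (k : ℕ) : II R (k + 1) ⊆ II R k := by
  induction k with
  | zero =>
    rintro u ⟨h1, _⟩
    show 1 ≤ u
    rcases Nat.eq_zero_or_pos u with h | h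
    · rw [h] at h1; exact absurd h1 h0
    · exact h
  | succ k ih =>
    rintro u ⟨h1, h2⟩
    exact ⟨h1, ih h2⟩

lemma II_anti' {R : Set ℕ} (h0 : 0 ∉ R) {k l : ℕ} (h : k ≤ l) : II R l ⊆ II R k := by
  induction l, h using Nat.le_induction with
  | base => exact subset_rfl
  | succ l _ ih => exact (II_anti h0 l).trans ih

/-- the `x`-th element of `R`, for `x ≥ 1` -/
noncomputable def rp (R : Set ℕ) (x : ℕ) : ℕ := Nat.nth (fun j => j ∈ R) (x - 1)

lemma rp_NN {R : Set ℕ} (h0 : 0 ∉ R) {u : ℕ} (hu : u ∈ R) : 1 ≤ NN R u ∧ rp R (NN R u) = u := by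
  classical
  have hu1 : 1 ≤ u := by
    rcases Nat.eq_zero_or_pos u with h | h
    · rw [h] at hu; exact absurd hu h0
    · exact h
  have h1 : NN R u = Nat.count (fun j => j ∈ R) u + 1 := by
    have h2 := NN_split R (show u - 1 ≤ u by omega)
    have h3 : Ioc (u - 1) u = {u} := by
      ext j
      simp only [mem_Ioc, mem_singleton]
      omega
    rw [h3, filter_singleton, if_pos hu, card_singleton] at h2
    rw [h2]
    congr 1
    rw [Nat.count_eq_card_filter_range]
    unfold NN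
    congr 1
    ext j
    simp only [mem_filter, mem_Icc, mem_range]
    constructor
    · rintro ⟨⟨h4, h5⟩, h6⟩; exact ⟨by omega, h6⟩
    · rintro ⟨h4, h6⟩
      refine ⟨⟨?_, by omega⟩, h6⟩
      rcases Nat.eq_zero_or_pos j with h | h
      · rw [h] at h6; exact absurd h6 h0
      · exact h
  refine ⟨by omega, ?_⟩
  unfold rp
  rw [h1, Nat.add_sub_cancel]
  exact Nat.nth_count hu

lemma II_rp {R : Set ℕ} (h0 : 0 ∉ R) : ∀ k u : ℕ, u ∈ II R (k + 1) → ∃ x : ℕ, 1 ≤ x ∧ (rp R)^[k + 1] x = u := by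
  intro k
  induction k with
  | zero =>
    rintro u ⟨h1, _⟩
    obtain ⟨h2, h3⟩ := rp_NN h0 h1
    exact ⟨NN R u, h2, by simpa using h3⟩
  | succ k ih =>
    rintro u ⟨h1, h2⟩
    obtain ⟨x, hx, hx2⟩ := ih _ h2
    refine ⟨x, hx, ?_⟩
    rw [Function.iterate_succ_apply', hx2]
    exact (rp_NN h0 h1).2

end Pool.Agent.T2H64.IP
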