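import Mathlib
import Pool.Agent.T2H64.IP.Blk
import Pool.Agent.T2H64.IP.It

set_option autoImplicit false

/-! # The probability of a hit in a group of blocks -/

namespace Pool.Agent.T2H64.IP

open Finset

variable {f : ℕ → ℝ}

lemma PP_union_bound (hf0 : ∀ j, 0 ≤ f j) (hf1 : ∀ j, f j ≤ 1) {ι : Type*} (D : Finset ℕ) (s : Finset ι)
    (F : ι → Finset ℕ → Prop) (G : Finset ℕ → Prop) (h : ∀ T ⊆ D, G T → ∃ i ∈ s, F i T) :
    PP f D G ≤ ∑ i ∈ s, PP f D (F i) := by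
  classical
  unfold PP
  rw [sum_comm]
  apply sum_le_sum
  intro T hT
  rw [mem_powerset] at hT
  have hW := WW_nonneg hf0 hf1 D T
  have hnn : ∀ i ∈ s, 0 ≤ (if F i T then WW f D T else 0) := by
    intro i _
    split_ifs
    · exact hW
    · exact le_rfl
  by_cases hG : G T
  · rw [if_pos hG]
    obtain ⟨i, hi, hF⟩ := h T hT hG
    calc WW f D T = (if F i T then WW f D T else 0) := by rw [if_pos hF]
      _ ≤ _ := single_le_sum hnn hi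
  · rw [if_neg hG]
    exact sum_nonneg hnn

/-- the elements of `T` up to `Y` -/
def lowS (T : Finset ℕ) (Y : ℕ) : Set ℕ := {j | j ∈ T ∧ j ≤ Y}

/-- the sets revealed after `k` blocks -/
def VV (M n t₀ L K k : ℕ) : Finset ℕ :=
  range (M + 1) \ (Ico (n - t₀ - K * L) (n - t₀ - k * L) ∪ Ioc (n + t₀ + k * L) (n + t₀ + K * L))

/-- a hit in the block `k` -/
def Hit (n t₀ L Y A s₁ s₂ k : ℕ) (T : Finset ℕ) : Prop :=
  ∃ t, t₀ + k * L < t ∧ t ≤ t₀ + (k + 1) * L ∧ n - t ∈ T ∧ n + t ∈ T ∧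
    s₁ - (T ∩ Ioo (n - t) (n - t₀)).card ∈ II (lowS T Y) A ∧
    s₂ + (T ∩ Ioo (n + t₀) (n + t)).card + 1 ∈ II (lowS T Y) A

open scoped Classical in
/-- a good block -/
def GoodBlock (f : ℕ → ℝ) (n τ L g : ℕ) (pl : ℝ) : Prop :=
  ∃ (t : ℕ) (p₁ q₁ p₂ q₂ : ℝ), τ < t ∧ t ≤ τ + L ∧ 0 < p₁ ∧ p₁ ≤ q₁ ∧ q₁ ≤ (1 : ℝ) / 2 ∧ 0 < p₂ ∧ p₂ ≤ q₂ ∧ q₂ ≤ (1 : ℝ) / 2 ∧
    (∀ j ∈ Ioo (n - t) (n - τ), f j ≠ 0 → p₁ ≤ f j ∧ f j ≤ q₁) ∧
    (∀ j ∈ Ioo (n + τ) (n + t), f j ≠ 0 → p₂ ≤ f j ∧ f j ≤ q₂) ∧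
    (L : ℝ) * (q₁ - p₁) ≤ 1 / 4 ∧ (L : ℝ) * (q₂ - p₂) ≤ 1 / 4 ∧
    4 * ((g : ℝ) + 1) ^ 2 ≤ ((((Ioo (n - t) (n - τ)).filter (fun j => f j ≠ 0)).card : ℝ) + 1) * p₁ ∧
    4 * ((g : ℝ) + 1) ^ 2 ≤ ((((Ioo (n + τ) (n + t)).filter (fun j => f j ≠ 0)).card : ℝ) + 1) * p₂ ∧
    pl ≤ f (n - t) ∧ pl ≤ f (n + t)

lemma hit_block (hf0 : ∀ j, 0 ≤ f j) (hf1 : ∀ j, f j ≤ 1) (M n t₀ L K Y A h K₀ s₁ s₂ : ℕ) (pl : ℝ) (hpl : 0 ≤ pl)
    (hn : t₀ + K * L < n) (hM : n + t₀ + K * L ≤ M) (hY : Y < n - t₀ - K * L) (hh : 1 ≤ h)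
    (hs1 : K₀ * (h + 1) ^ A + K * L + L + h ^ A + 1 ≤ s₁) (hs1' : s₁ + h ^ (A + 1) + h ≤ Y)
    (hs2 : K₀ * (h + 1) ^ A ≤ s₂) (hs2' : s₂ + K * L + L + h ^ (A + 1) + h ≤ Y)
    (k : ℕ) (hk : k < K) (hgb : GoodBlock f n (t₀ + k * L) L (h ^ A) pl)
    (T : Finset ℕ) (hT : T ⊆ VV M n t₀ L K k) (hQ : GP (lowS T Y) K₀ h (Y - h)) :
    pl ^ 2 / (4 * ((L : ℝ) + 1)) ^ 2 ≤
      PP f (VV M n t₀ L K (k + 1) \ VV M n t₀ L K k) (fun T' => Hit n t₀ L Y A s₁ s₂ k (T ∪ T')) := by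
  classical
  have hkL : (k + 1) * L ≤ K * L := Nat.mul_le_mul_right _ hk
  have hkL' : (k + 1) * L = k * L + L := by ring
  obtain ⟨τ, hτ⟩ : ∃ τ, τ = t₀ + k * L := ⟨_, rfl⟩
  rw [← hτ] at hgb
  have hdiff : VV M n t₀ L K (k + 1) \ VV M n t₀ L K k = Ico (n - τ - L) (n - τ) ∪ Ioc (n + τ) (n + τ + L) := by
    ext j
    simp only [VV, mem_sdiff, mem_union, mem_Ico, mem_Ioc, mem_range]
    omega
  rw [hdiff]
  unfold GoodBlock at hgb
  obtain ⟨t, p₁, q₁, p₂, q₂, h1, h2, hp₁, hpq₁, hq₁, hp₂, hpq₂, hq₂, hf₁, hf₂, hc₁, hc₂, hg₁, hg₂, hu, hv⟩ := hgb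
  have hIL₁ : (((Ioo (n - t) (n - τ)).filter (fun j => f j ≠ 0)).card : ℝ) ≤ L := by
    have : ((Ioo (n - t) (n - τ)).filter (fun j => f j ≠ 0)).card ≤ L := by
      refine (card_filter_le _ _).trans ?_
      rw [Nat.card_Ioo]
      omega
    exact_mod_cast this
  have hIL₂ : (((Ioo (n + τ) (n + t)).filter (fun j => f j ≠ 0)).card : ℝ) ≤ L := by
    have : ((Ioo (n + τ) (n + t)).filter (fun j => f j ≠ 0)).card ≤ L := by
      refine (card_filter_le _ _).trans ?_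
      rw [Nat.card_Ioo]
      omega
    exact_mod_cast this
  obtain ⟨J₁, hJ₁⟩ : ∃ J₁, J₁ = (Ioo (n - t) (n - τ)).filter (fun j => f j ≠ 0) := ⟨_, rfl⟩
  obtain ⟨J₂, hJ₂⟩ : ∃ J₂, J₂ = (Ioo (n + τ) (n + t)).filter (fun j => f j ≠ 0) := ⟨_, rfl⟩
  have hJ₁' : ∀ j ∈ J₁, p₁ ≤ f j ∧ f j ≤ q₁ := by
    intro j hj
    rw [hJ₁, mem_filter] at hj
    exact hf₁ j hj.1 hj.2
  have hJ₂' : ∀ j ∈ J₂, p₂ ≤ f j ∧ f j ≤ q₂ := by
    intro j hj
    rw [hJ₂, mem_filter] at hj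
    exact hf₂ j hj.1 hj.2
  have hIL₁' : (J₁.card : ℝ) ≤ L := by rw [hJ₁]; convert hIL₁
  have hIL₂' : (J₂.card : ℝ) ≤ L := by rw [hJ₂]; convert hIL₂
  have hc₁' : (J₁.card : ℝ) * (q₁ - p₁) ≤ 1 / 4 :=
    (mul_le_mul_of_nonneg_right hIL₁' (by linarith)).trans hc₁
  have hc₂' : (J₂.card : ℝ) * (q₂ - p₂) ≤ 1 / 4 :=
    (mul_le_mul_of_nonneg_right hIL₂' (by linarith)).trans hc₂
  have hg₁' : 4 * (((h ^ A : ℕ) : ℝ) + 1) ^ 2 ≤ ((J₁.card : ℝ) + 1) * p₁ := by rw [hJ₁]; convert hg₁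
  have hg₂' : 4 * (((h ^ A : ℕ) : ℝ) + 1) ^ 2 ≤ ((J₂.card : ℝ) + 1) * p₂ := by rw [hJ₂]; convert hg₂
  obtain ⟨a₁, a₂, ha₁, ha₂, hlow⟩ := block_low hf0 hf1 n τ L t h1 h2 (by omega) (h ^ A) p₁ q₁ p₂ q₂ hp₁ hpq₁ hq₁
    hp₂ hpq₂ hq₂ J₁ J₂ (by rw [hJ₁]) (by rw [hJ₂]) hJ₁' hJ₂' hc₁' hc₂' hg₁' hg₂'
  have ha₁L : a₁ ≤ L := by
    have : (a₁ : ℝ) ≤ L := le_trans (by exact_mod_cast ha₁) hIL₁'
    exact_mod_cast this
  have ha₂L : a₂ ≤ L := by
    have : (a₂ : ℝ) ≤ L := le_trans (by exact_mod_cast ha₂) hIL₂'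
    exact_mod_cast this
  -- the counts of the past
  set c := (T ∩ Ioo (n - t) (n - t₀)).card with hc
  set d := (T ∩ Ioo (n + t₀) (n + t)).card with hd
  have hcK : c ≤ K * L := by
    refine (card_le_card inter_subset_right).trans ?_
    rw [Nat.card_Ioo]
    omega
  have hdK : d ≤ K * L := by
    refine (card_le_card inter_subset_right).trans ?_
    rw [Nat.card_Ioo]
    omega
  have hgap := gapI hQ hh A
  obtain ⟨y₁, hy₁, hy₁a, hy₁b⟩ := hgap (s₁ - c - a₁ - h ^ A - 1) (by omega) (by omega)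
  obtain ⟨y₂, hy₂, hy₂a, hy₂b⟩ := hgap (s₂ + d + a₂) (by omega) (by omega)
  obtain ⟨i₁, hi₁⟩ : ∃ i₁, s₁ - c - y₁ = a₁ + i₁ := ⟨s₁ - c - y₁ - a₁, by omega⟩
  obtain ⟨i₂, hi₂⟩ : ∃ i₂, y₂ = s₂ + (d + (a₂ + i₂)) + 1 := ⟨y₂ - 1 - s₂ - d - a₂, by omega⟩
  have hi₁g : i₁ ≤ h ^ A := by omega
  have hi₂g : i₂ ≤ h ^ A := by omega
  have hb := hlow i₁ hi₁g i₂ hi₂g
  refine le_trans ?_ (hb.trans ?_)
  · have e1 : pl * pl ≤ f (n - t) * f (n + t) := mul_le_mul hu hv hpl (hpl.trans hu)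
    have e2 : 1 / (4 * ((L : ℝ) + 1)) ≤ 1 / (4 * ((J₁.card : ℝ) + 1)) := by
      apply one_div_le_one_div_of_le (by positivity)
      linarith
    have e3 : 1 / (4 * ((L : ℝ) + 1)) ≤ 1 / (4 * ((J₂.card : ℝ) + 1)) := by
      apply one_div_le_one_div_of_le (by positivity)
      linarith
    have e0 : (0 : ℝ) ≤ 1 / (4 * ((L : ℝ) + 1)) := by positivity
    calc pl ^ 2 / (4 * ((L : ℝ) + 1)) ^ 2 = pl * pl * (1 / (4 * ((L : ℝ) + 1))) * (1 / (4 * ((L : ℝ) + 1))) := by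
          field_simp
      _ ≤ f (n - t) * f (n + t) * (1 / (4 * ((J₁.card : ℝ) + 1))) * (1 / (4 * ((J₂.card : ℝ) + 1))) := by
          have hn1 := hf0 (n - t)
          have hn2 := hf0 (n + t)
          gcongr
  · apply PP_mono hf0 hf1
    rintro T' hT' ⟨k1, k2, k3, k4⟩
    have hlowS : lowS (T ∪ T') Y = lowS T Y := by
      ext j
      unfold lowS
      simp only [Set.mem_ofPred_eq, mem_union]
      constructor
      · rintro ⟨h5 | h5, h6⟩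
        · exact ⟨h5, h6⟩
        · have := hT' h5
          rw [mem_union, mem_Ico, mem_Ioc] at this
          omega
      · rintro ⟨h5, h6⟩; exact ⟨Or.inl h5, h6⟩
    have hdis : ∀ j, j ∈ T → j ∉ T' := by
      intro j hj hj'
      have h5 := hT hj
      have h6 := hT' hj'
      rw [VV, mem_sdiff, mem_union, mem_Ico, mem_Ioc, mem_range] at h5
      rw [mem_union, mem_Ico, mem_Ioc] at h6
      omega
    have hcard : ∀ I : Finset ℕ, ((T ∪ T') ∩ I).card = (T ∩ I).card + (T' ∩ I).card := by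
      intro I
      rw [union_inter_distrib_right, card_union_of_disjoint]
      rw [Finset.disjoint_left]
      intro j hj hj'
      rw [mem_inter] at hj hj'
      exact hdis j hj.1 hj'.1
    have hI₁ : T' ∩ Ioo (n - t) (n - t₀) = T' ∩ Ioo (n - t) (n - τ) := by
      ext j
      simp only [mem_inter, mem_Ioo]
      constructor
      · rintro ⟨h5, h6⟩
        have := hT' h5
        rw [mem_union, mem_Ico, mem_Ioc] at this
        exact ⟨h5, by omega⟩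
      · rintro ⟨h5, h6⟩
        exact ⟨h5, by omega⟩
    have hI₂ : T' ∩ Ioo (n + t₀) (n + t) = T' ∩ Ioo (n + τ) (n + t) := by
      ext j
      simp only [mem_inter, mem_Ioo]
      constructor
      · rintro ⟨h5, h6⟩
        have := hT' h5
        rw [mem_union, mem_Ico, mem_Ioc] at this
        exact ⟨h5, by omega⟩
      · rintro ⟨h5, h6⟩
        exact ⟨h5, by omega⟩
    refine ⟨t, by omega, by omega, mem_union_right _ k1, mem_union_right _ k2, ?_, ?_⟩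
    · rw [hlowS, hcard, hI₁, k3, ← hc]
      have : s₁ - (c + (a₁ + i₁)) = y₁ := by omega
      rw [this]
      exact hy₁
    · rw [hlowS, hcard, hI₂, k4, ← hd, ← hi₂]
      exact hy₂

lemma group_bound (hf0 : ∀ j, 0 ≤ f j) (hf1 : ∀ j, f j ≤ 1) (M n t₀ L K Y A h K₀ s₁ s₂ : ℕ) (pl : ℝ) (hpl : 0 ≤ pl)
    (hpl1 : pl ≤ 1) (hn : t₀ + K * L < n) (hM : n + t₀ + K * L ≤ M) (hY : Y < n - t₀ - K * L) (hh : 1 ≤ h)
    (hs1 : K₀ * (h + 1) ^ A + K * L + L + h ^ A + 1 ≤ s₁) (hs1' : s₁ + h ^ (A + 1) + h ≤ Y)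
    (hs2 : K₀ * (h + 1) ^ A ≤ s₂) (hs2' : s₂ + K * L + L + h ^ (A + 1) + h ≤ Y)
    (hgb : ∀ k < K, GoodBlock f n (t₀ + k * L) L (h ^ A) pl) :
    PP f (range (M + 1)) (fun T => GP (lowS T Y) K₀ h (Y - h) ∧ ∀ k < K, ¬ Hit n t₀ L Y A s₁ s₂ k T) ≤
      (1 - pl ^ 2 / (4 * ((L : ℝ) + 1)) ^ 2) ^ K := by
  classical
  have hVK : VV M n t₀ L K K = range (M + 1) := by
    unfold VV
    rw [Ico_self, Ioc_self, union_empty, sdiff_empty]
  have hmono : ∀ k, k ≤ K → k * L ≤ K * L := fun k hk => Nat.mul_le_mul_right _ hk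
  have hlow : ∀ k T, k ≤ K → T ⊆ range (M + 1) → lowS (T ∩ VV M n t₀ L K k) Y = lowS T Y := by
    intro k T hk hT
    have := hmono k hk
    ext j
    simp only [lowS, Set.mem_ofPred_eq, mem_inter, VV, mem_sdiff, mem_union, mem_Ico, mem_Ioc, mem_range]
    constructor
    · rintro ⟨⟨h1, _⟩, h2⟩; exact ⟨h1, h2⟩
    · rintro ⟨h1, h2⟩
      refine ⟨⟨h1, ?_⟩, h2⟩
      omega
  have hsubM : ∀ k, VV M n t₀ L K k ⊆ range (M + 1) := fun k => sdiff_subset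
  rw [← hVK]
  apply seq_bound hf0 hf1 (V := VV M n t₀ L K) (Q := fun T => GP (lowS T Y) K₀ h (Y - h))
    (Hit := fun k T => Hit n t₀ L Y A s₁ s₂ k T)
  · rw [div_le_one (by positivity)]
    have h1 : pl ^ 2 ≤ 1 := by
      calc pl ^ 2 ≤ 1 ^ 2 := by gcongr
        _ = 1 := by norm_num
    have h2 : (1 : ℝ) ≤ (4 * ((L : ℝ) + 1)) ^ 2 := by
      have : (1 : ℝ) ≤ 4 * ((L : ℝ) + 1) := by
        have : (0 : ℝ) ≤ L := Nat.cast_nonneg L
        linarith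
      nlinarith
    linarith
  · intro k hk j hj
    have h1 := hmono (k + 1) hk
    have h2 : (k + 1) * L = k * L + L := by ring
    simp only [VV, mem_sdiff, mem_union, mem_Ico, mem_Ioc, mem_range] at hj ⊢
    omega
  · intro k hk T hT hQ
    rw [hlow k T hk.le (hT.trans (hsubM _))]
    exact hQ
  · intro k hk i hi T hT
    have hTM := hT.trans (hsubM (k + 1))
    have h1 := hmono k hk.le
    have h2 : (i + 1) * L ≤ k * L := Nat.mul_le_mul_right _ hi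
    unfold Hit
    apply exists_congr
    intro t
    constructor
    · rintro ⟨e1, e2, e3, e4, e5, e6⟩
      have u1 : n - t ∈ T ∩ VV M n t₀ L K k := by
        rw [mem_inter]
        refine ⟨e3, ?_⟩
        simp only [VV, mem_sdiff, mem_union, mem_Ico, mem_Ioc, mem_range]
        omega
      have u2 : n + t ∈ T ∩ VV M n t₀ L K k := by
        rw [mem_inter]
        refine ⟨e4, ?_⟩
        simp only [VV, mem_sdiff, mem_union, mem_Ico, mem_Ioc, mem_range]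
        omega
      have u3 : T ∩ VV M n t₀ L K k ∩ Ioo (n - t) (n - t₀) = T ∩ Ioo (n - t) (n - t₀) := by
        rw [inter_assoc]
        congr 1
        apply inter_eq_right.2
        intro j hj
        simp only [VV, mem_sdiff, mem_union, mem_Ico, mem_Ioc, mem_range, mem_Ioo] at hj ⊢
        omega
      have u4 : T ∩ VV M n t₀ L K k ∩ Ioo (n + t₀) (n + t) = T ∩ Ioo (n + t₀) (n + t) := by
        rw [inter_assoc]
        congr 1
        apply inter_eq_right.2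
        intro j hj
        simp only [VV, mem_sdiff, mem_union, mem_Ico, mem_Ioc, mem_range, mem_Ioo] at hj ⊢
        omega
      rw [u3, u4, hlow k T hk.le hTM]
      exact ⟨e1, e2, u1, u2, e5, e6⟩
    · rintro ⟨e1, e2, e3, e4, e5, e6⟩
      have u3 : T ∩ VV M n t₀ L K k ∩ Ioo (n - t) (n - t₀) = T ∩ Ioo (n - t) (n - t₀) := by
        rw [inter_assoc]
        congr 1
        apply inter_eq_right.2
        intro j hj
        simp only [VV, mem_sdiff, mem_union, mem_Ico, mem_Ioc, mem_range, mem_Ioo] at hj ⊢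
        omega
      have u4 : T ∩ VV M n t₀ L K k ∩ Ioo (n + t₀) (n + t) = T ∩ Ioo (n + t₀) (n + t) := by
        rw [inter_assoc]
        congr 1
        apply inter_eq_right.2
        intro j hj
        simp only [VV, mem_sdiff, mem_union, mem_Ico, mem_Ioc, mem_range, mem_Ioo] at hj ⊢
        omega
      rw [u3, hlow k T hk.le hTM] at e5
      rw [u4, hlow k T hk.le hTM] at e6
      exact ⟨e1, e2, (mem_inter.1 e3).1, (mem_inter.1 e4).1, e5, e6⟩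
  · intro k hk T hT hQ
    exact hit_block hf0 hf1 M n t₀ L K Y A h K₀ s₁ s₂ pl hpl hn hM hY hh hs1 hs1' hs2 hs2' k hk (hgb k hk) T hT hQ

end Pool.Agent.T2H64.IP
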