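import Mathlib
import Pool.Agent.T2H64.IP.Grp

set_option autoImplicit false

/-! # No representation in a group of blocks: bound of the probability -/

namespace Pool.Agent.T2H64.IP

open Finset

variable {f : ℕ → ℝ}

lemma card_inter_NN (T : Finset ℕ) (x y : ℕ) (h : x ≤ y) :
    NN (T : Set ℕ) y = NN (T : Set ℕ) x + (T ∩ Ioc x y).card := by
  classical
  rw [NN_split (T : Set ℕ) h]
  congr 2
  ext j
  simp only [mem_filter, mem_inter, mem_Ioc, mem_coe]
  tauto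

/-- the bad event of a group -/
def BadG (n t₀ L K Y A h K₀ slo shi : ℕ) (T : Finset ℕ) : Prop :=
  GP (lowS T Y) K₀ h (Y - h) ∧ slo ≤ NN (T : Set ℕ) (n - t₀ - 1) ∧ NN (T : Set ℕ) (n + t₀) ≤ shi ∧
    ∀ t, t₀ < t → t ≤ t₀ + K * L → ¬ (n - t ∈ II (T : Set ℕ) (A + 1) ∧ n + t ∈ II (T : Set ℕ) (A + 1))

lemma bad_sub (n t₀ L K Y A h K₀ slo shi : ℕ) (hn : t₀ + K * L < n) (hY : Y < n - t₀ - K * L)
    (hshi : shi + K * L + 1 ≤ Y) (T : Finset ℕ) (hB : BadG n t₀ L K Y A h K₀ slo shi T) :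
    ∃ q ∈ (Icc slo shi) ×ˢ (Icc slo shi),
      GP (lowS T Y) K₀ h (Y - h) ∧ ∀ k < K, ¬ Hit n t₀ L Y A q.1 q.2 k T := by
  obtain ⟨h1, h2, h3, h4⟩ := hB
  have hmono : NN (T : Set ℕ) (n - t₀ - 1) ≤ NN (T : Set ℕ) (n + t₀) := NN_mono _ (by omega)
  refine ⟨(NN (T : Set ℕ) (n - t₀ - 1), NN (T : Set ℕ) (n + t₀)), ?_, h1, ?_⟩
  · rw [mem_product, mem_Icc, mem_Icc]
    simp only
    omega
  · rintro k hk ⟨t, e1, e2, e3, e4, e5, e6⟩
    have hkL : (k + 1) * L ≤ K * L := Nat.mul_le_mul_right _ hk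
    have ht1 : t₀ < t := by
      have : t₀ ≤ t₀ + k * L := Nat.le_add_right _ _
      omega
    have ht2 : t ≤ t₀ + K * L := by omega
    have hcongr : ∀ j ≤ Y, j ∈ lowS T Y ↔ j ∈ (T : Set ℕ) := by
      intro j hj
      unfold lowS
      simp only [Set.mem_ofPred_eq, mem_coe]
      exact ⟨fun h => h.1, fun h => ⟨h, hj⟩⟩
    apply h4 t ht1 ht2
    constructor
    · refine ⟨by exact_mod_cast e3, ?_⟩
      have h5 := card_inter_NN T (n - t) (n - t₀ - 1) (by omega)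
      have h6 : Ioc (n - t) (n - t₀ - 1) = Ioo (n - t) (n - t₀) := by
        ext j
        rw [mem_Ioc, mem_Ioo]
        omega
      rw [h6] at h5
      have h7 : NN (T : Set ℕ) (n - t₀ - 1) - (T ∩ Ioo (n - t) (n - t₀)).card = NN (T : Set ℕ) (n - t) := by omega
      simp only at e5
      rw [h7] at e5
      exact (II_congr hcongr A _ (by omega)).1 e5
    · refine ⟨by exact_mod_cast e4, ?_⟩
      have h5 := card_inter_NN T (n + t₀) (n + t) (by omega)
      have h6 : T ∩ Ioc (n + t₀) (n + t) = insert (n + t) (T ∩ Ioo (n + t₀) (n + t)) := by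
        ext j
        rw [mem_inter, mem_Ioc, mem_insert, mem_inter, mem_Ioo]
        constructor
        · rintro ⟨h7, h8⟩
          by_cases h9 : j = n + t
          · exact Or.inl h9
          · exact Or.inr ⟨h7, by omega⟩
        · rintro (h7 | ⟨h7, h8⟩)
          · rw [h7]; exact ⟨e4, by omega⟩
          · exact ⟨h7, by omega⟩
      rw [h6, card_insert_of_notMem] at h5
      · simp only at e6
        rw [add_assoc, ← h5] at e6
        have h8 : (T ∩ Ioo (n + t₀) (n + t)).card ≤ K * L := by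
          refine (card_le_card inter_subset_right).trans ?_
          rw [Nat.card_Ioo]
          omega
        exact (II_congr hcongr A _ (by omega)).1 e6
      · rw [mem_inter, mem_Ioo]
        omega

theorem group_event (hf0 : ∀ j, 0 ≤ f j) (hf1 : ∀ j, f j ≤ 1) (M n t₀ L K Y A h K₀ slo shi : ℕ) (pl : ℝ)
    (hpl : 0 ≤ pl) (hpl1 : pl ≤ 1) (hn : t₀ + K * L < n) (hM : n + t₀ + K * L ≤ M) (hY : Y < n - t₀ - K * L)
    (hh : 1 ≤ h) (hslo : K₀ * (h + 1) ^ A + K * L + L + h ^ A + 1 ≤ slo)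
    (hshi : shi + K * L + L + h ^ (A + 1) + h ≤ Y)
    (hgb : ∀ k < K, GoodBlock f n (t₀ + k * L) L (h ^ A) pl) :
    PP f (range (M + 1)) (BadG n t₀ L K Y A h K₀ slo shi) ≤
      ((shi : ℝ) + 1) ^ 2 * (1 - pl ^ 2 / (4 * ((L : ℝ) + 1)) ^ 2) ^ K := by
  classical
  have h1 := PP_union_bound hf0 hf1 (range (M + 1)) ((Icc slo shi) ×ˢ (Icc slo shi))
    (fun q T => GP (lowS T Y) K₀ h (Y - h) ∧ ∀ k < K, ¬ Hit n t₀ L Y A q.1 q.2 k T)
    (BadG n t₀ L K Y A h K₀ slo shi)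
    (fun T _ hB => bad_sub n t₀ L K Y A h K₀ slo shi hn hY (by omega) T hB)
  refine h1.trans ?_
  have hδ0 : 0 ≤ (1 - pl ^ 2 / (4 * ((L : ℝ) + 1)) ^ 2) := by
    have hL0 : (0 : ℝ) ≤ L := Nat.cast_nonneg L
    have : pl ^ 2 / (4 * ((L : ℝ) + 1)) ^ 2 ≤ 1 := by
      rw [div_le_one (by positivity)]
      have h1 : pl ^ 2 ≤ 1 := by
        calc pl ^ 2 ≤ 1 ^ 2 := by gcongr
          _ = 1 := by norm_num
      have h2 : (1 : ℝ) ≤ (4 * ((L : ℝ) + 1)) ^ 2 := by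
        have : (1 : ℝ) ≤ 4 * ((L : ℝ) + 1) := by linarith
        nlinarith
      linarith
    linarith
  calc ∑ q ∈ (Icc slo shi) ×ˢ (Icc slo shi), PP f (range (M + 1))
        (fun T => GP (lowS T Y) K₀ h (Y - h) ∧ ∀ k < K, ¬ Hit n t₀ L Y A q.1 q.2 k T)
      ≤ ∑ _q ∈ (Icc slo shi) ×ˢ (Icc slo shi), (1 - pl ^ 2 / (4 * ((L : ℝ) + 1)) ^ 2) ^ K := by
        apply sum_le_sum
        intro q hq
        rw [mem_product, mem_Icc, mem_Icc] at hq
        exact group_bound hf0 hf1 M n t₀ L K Y A h K₀ q.1 q.2 pl hpl hpl1 hn hM hY hh (by omega) (by omega)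
          (by omega) (by omega) hgb
    _ = (((Icc slo shi) ×ˢ (Icc slo shi)).card : ℝ) * (1 - pl ^ 2 / (4 * ((L : ℝ) + 1)) ^ 2) ^ K := by
        rw [sum_const, nsmul_eq_mul]
    _ ≤ _ := by
        apply mul_le_mul_of_nonneg_right _ (by positivity)
        rw [card_product, Nat.card_Icc]
        have : ((shi + 1 - slo : ℕ) : ℝ) ≤ (shi : ℝ) + 1 := by
          have : shi + 1 - slo ≤ shi + 1 := Nat.sub_le _ _
          exact_mod_cast this
        push_cast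
        have h0 : (0 : ℝ) ≤ ((shi + 1 - slo : ℕ) : ℝ) := Nat.cast_nonneg _
        nlinarith

end Pool.Agent.T2H64.IP
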