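import Mathlib
import Pool.Agent.T2H64.IP.Asy
import Pool.Agent.T2H64.IP.Ev

set_option autoImplicit false

/-! # All blocks of a clean group are good -/

namespace Pool.Agent.T2H64.IP

open Finset Filter Topology
open Pool.Agent.T2H53.GW (pr pr_nonneg pr_le_one one_le_VV)

/-- `VV` of the starting library -/
noncomputable abbrev VP (z : ℕ) : ℝ := Pool.Agent.H305R2.VV z

lemma pr_val (A : ℝ) (j z : ℕ) (hA : 0 < A) (hz : ⌊A * Real.log j⌋₊ = z) (hV : VP z ≤ Real.log j / 2) :
    pr A j = 0 ∨ pr A j = VP z / Real.log j := by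
  classical
  have h1 : 1 ≤ VP z := one_le_VV z
  have hl : 0 < Real.log j := by linarith
  unfold pr
  split_ifs
  · right
    rw [hz]
    apply min_eq_right
    rw [div_le_one hl]
    show VP z ≤ _
    linarith
  · left; rfl

lemma pr_val_pos (A : ℝ) (j z : ℕ) (hA : 0 < A) (hz : ⌊A * Real.log j⌋₊ = z) (hV : VP z ≤ Real.log j / 2)
    (hall : ∀ p : ℕ, p.Prime → p ≤ z → ¬ p ∣ j) : pr A j = VP z / Real.log j := by
  classical
  have h1 : 1 ≤ VP z := one_le_VV z
  have hl : 0 < Real.log j := by linarith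
  unfold pr
  rw [if_pos]
  · rw [hz]
    apply min_eq_right
    rw [div_le_one hl]
    show VP z ≤ _
    linarith
  · intro p hp hple
    apply hall p hp
    rw [← hz]
    exact Nat.le_floor hple

lemma log_diff (a b : ℝ) (ha : 0 < a) (hab : a ≤ b) : Real.log b - Real.log a ≤ (b - a) / a := by
  have h1 : Real.log b - Real.log a = Real.log (b / a) := by
    rw [Real.log_div (by linarith) ha.ne']
  rw [h1]
  have h2 : Real.log (b / a) ≤ b / a - 1 := Real.log_le_sub_one_of_pos (div_pos (by linarith) ha)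
  have h3 : b / a - 1 = (b - a) / a := by field_simp
  linarith

/-- the difference of the extreme probabilities -/
lemma diff_small (V a b : ℝ) (ha : 3 ≤ a) (hab : a ≤ b) (hV0 : 0 ≤ V) (hV : V ≤ Real.log a / 2) :
    V / Real.log a - V / Real.log b ≤ (b - a) / a := by
  have hla : 1 ≤ Real.log a := by
    rw [Real.le_log_iff_exp_le (by linarith)]
    linarith [Real.exp_one_lt_d9]
  have hlb : Real.log a ≤ Real.log b := Real.log_le_log (by linarith) hab
  have h1 := log_diff a b (by linarith) hab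
  have h0 : 0 ≤ (b - a) / a := div_nonneg (by linarith) (by linarith)
  have h2 : V / Real.log a - V / Real.log b = (V / Real.log a) * ((Real.log b - Real.log a) / Real.log b) := by
    have e1 : Real.log a ≠ 0 := by linarith
    have e2 : Real.log b ≠ 0 := by linarith
    field_simp
  rw [h2]
  have h3 : V / Real.log a ≤ 1 := by
    rw [div_le_one (by linarith)]; linarith
  have h4 : (Real.log b - Real.log a) / Real.log b ≤ (b - a) / a := by
    rw [div_le_iff₀ (by linarith)]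
    nlinarith
  have h5 : 0 ≤ (Real.log b - Real.log a) / Real.log b := div_nonneg (by linarith) (by linarith)
  calc V / Real.log a * ((Real.log b - Real.log a) / Real.log b) ≤ 1 * ((b - a) / a) :=
        mul_le_mul h3 h4 h5 (by norm_num)
    _ = _ := one_mul _

lemma good_block (A e X : ℝ) (hA : 0 < A) (K₀ n t₀ B τ : ℕ) (hF : Facts A e K₀ n X)
    (hX8 : X ^ 8 - 1 ≤ (LL e n : ℝ)) (hu : (t₀ + B) * LL e n ^ 3 ≤ n) (hτ0 : t₀ ≤ τ) (hτ : τ + LL e n ≤ t₀ + B)
    (hc₁ : ⌊A * Real.log ((n - (t₀ + B) : ℕ) : ℝ)⌋₊ = ⌊A * Real.log ((n - t₀ : ℕ) : ℝ)⌋₊)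
    (hc₂ : ⌊A * Real.log ((n + t₀ : ℕ) : ℝ)⌋₊ = ⌊A * Real.log ((n + (t₀ + B) : ℕ) : ℝ)⌋₊) :
    GoodBlock (pr A) n τ (LL e n) (hh n ^ AA n) (1 / Real.log (2 * n)) := by
  classical
  obtain ⟨L, hL⟩ : ∃ L, L = LL e n := ⟨_, rfl⟩
  obtain ⟨u, hu'⟩ : ∃ u, u = t₀ + B := ⟨_, rfl⟩
  rw [← hL] at hX8 hτ hu ⊢
  rw [← hu'] at hu hc₁ hc₂ hτ
  have hX := hF.f1
  have hXpow : (1000 : ℝ) ^ 7 * X ≤ X ^ 8 := by
    have : X ^ 8 = X ^ 7 * X := by ring
    rw [this]
    gcongr
  have hLbig : (1000 : ℝ) ≤ L := by linarith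
  have hLbig' : 1000 ≤ L := by exact_mod_cast hLbig
  have hL3 : 1000 * L ≤ L ^ 3 := by
    have : L ^ 3 = L * L * L := by ring
    rw [this]
    apply Nat.mul_le_mul_right
    nlinarith
  have huL : 1000 * (u * L) ≤ n := by
    calc 1000 * (u * L) = u * (1000 * L) := by ring
      _ ≤ u * L ^ 3 := Nat.mul_le_mul_left _ hL3
      _ ≤ n := hu
  have hun : 8 * u ≤ n := by
    have : u ≤ u * L := Nat.le_mul_of_pos_right _ (by omega)
    omega
  have hn1000 := hF.f11
  have hnR : (1000 : ℝ) ≤ n := by exact_mod_cast hn1000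
  have hunR : (u : ℝ) * 8 ≤ n := by exact_mod_cast (by omega : u * 8 ≤ n)
  have hmono : ∀ i j : ℕ, 1 ≤ i → i ≤ j → ⌊A * Real.log (i : ℝ)⌋₊ ≤ ⌊A * Real.log (j : ℝ)⌋₊ := by
    intro i j hi hij
    apply Nat.floor_mono
    apply mul_le_mul_of_nonneg_left _ hA.le
    apply Real.log_le_log
    · exact_mod_cast hi
    · exact_mod_cast hij
  -- the two sieve limits
  obtain ⟨z₁, hz₁⟩ : ∃ z₁, z₁ = ⌊A * Real.log ((n - t₀ : ℕ) : ℝ)⌋₊ := ⟨_, rfl⟩
  obtain ⟨z₂, hz₂⟩ : ∃ z₂, z₂ = ⌊A * Real.log ((n + t₀ : ℕ) : ℝ)⌋₊ := ⟨_, rfl⟩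
  have hleft : ∀ j, n - u ≤ j → j ≤ n - t₀ → ⌊A * Real.log (j : ℝ)⌋₊ = z₁ := by
    intro j h1 h2
    have e1 := hmono (n - u) j (by omega) h1
    have e2 := hmono j (n - t₀) (by omega) h2
    rw [hc₁, ← hz₁] at e1
    rw [← hz₁] at e2
    omega
  have hright : ∀ j, n + t₀ ≤ j → j ≤ n + u → ⌊A * Real.log (j : ℝ)⌋₊ = z₂ := by
    intro j h1 h2
    have e1 := hmono (n + t₀) j (by omega) h1
    have e2 := hmono j (n + u) (by omega) h2
    rw [← hc₂, ← hz₂] at e2
    rw [← hz₂] at e1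
    omega
  have hcastL : ((n - u : ℕ) : ℝ) = (n : ℝ) - u := by rw [Nat.cast_sub (by omega)]
  have hcastR : ((n + t₀ : ℕ) : ℝ) = (n : ℝ) + t₀ := by push_cast; ring
  have hV₁ : VP z₁ ≤ Real.log ((n - u : ℕ) : ℝ) / 2 := by
    rw [← hleft (n - u) le_rfl (by omega)]
    apply hF.f5
    rw [hcastL]
    linarith
  have hV₂ : VP z₂ ≤ Real.log ((n + t₀ : ℕ) : ℝ) / 2 := by
    rw [hz₂]
    apply hF.f5
    rw [hcastR]
    have : (0 : ℝ) ≤ t₀ := Nat.cast_nonneg _
    linarith
  have hVj₁ : ∀ j, n - u ≤ j → VP z₁ ≤ Real.log (j : ℝ) / 2 := by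
    intro j hj
    refine hV₁.trans ?_
    have h1 : Real.log ((n - u : ℕ) : ℝ) ≤ Real.log (j : ℝ) := by
      apply Real.log_le_log
      · exact_mod_cast (by omega : 0 < n - u)
      · exact_mod_cast hj
    linarith
  have hVj₂ : ∀ j, n + t₀ ≤ j → VP z₂ ≤ Real.log (j : ℝ) / 2 := by
    intro j hj
    refine hV₂.trans ?_
    have h1 : Real.log ((n + t₀ : ℕ) : ℝ) ≤ Real.log (j : ℝ) := by
      apply Real.log_le_log
      · exact_mod_cast (by omega : 0 < n + t₀)
      · exact_mod_cast hj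
    linarith
  have hone₁ : 1 ≤ VP z₁ := one_le_VV z₁
  have hone₂ : 1 ≤ VP z₂ := one_le_VV z₂
  -- bounds for the sieve limit
  obtain ⟨z, hz⟩ : ∃ z, z = max (max z₁ z₂) 2 := ⟨_, rfl⟩
  have hz2 : 2 ≤ z := by rw [hz]; exact le_max_right _ _
  have hz₁z : z₁ ≤ z := by rw [hz]; exact (le_max_left _ _).trans (le_max_left _ _)
  have hz₂z : z₂ ≤ z := by rw [hz]; exact (le_max_right _ _).trans (le_max_left _ _)
  have hl2n : 0 ≤ Real.log (2 * (n : ℝ)) := Real.log_nonneg (by linarith)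
  have hzle : (z : ℝ) ≤ A * Real.log (2 * n) + 2 := by
    have hfl : ∀ j : ℕ, 1 ≤ j → j ≤ 2 * n → (⌊A * Real.log (j : ℝ)⌋₊ : ℝ) ≤ A * Real.log (2 * n) := by
      intro j hj hj2
      have h1 : 0 ≤ Real.log (j : ℝ) := Real.log_natCast_nonneg j
      refine (Nat.floor_le (by positivity)).trans ?_
      apply mul_le_mul_of_nonneg_left _ hA.le
      apply Real.log_le_log
      · exact_mod_cast hj
      · exact_mod_cast hj2
    have e1 : (z₁ : ℝ) ≤ A * Real.log (2 * n) := by rw [hz₁]; exact hfl _ (by omega) (by omega)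
    have e2 : (z₂ : ℝ) ≤ A * Real.log (2 * n) := by rw [hz₂]; exact hfl _ (by omega) (by omega)
    have e3 : 0 ≤ A * Real.log (2 * n) := by positivity
    rw [hz]
    push_cast
    apply max_le (max_le (by linarith) (by linarith)) (by linarith)
  obtain ⟨hzX, h3X⟩ := hF.f4 z hzle
  have hz2R : (2 : ℝ) ≤ z := by exact_mod_cast hz2
  have hzsq : (z : ℝ) ^ 2 ≤ X ^ 2 := by gcongr
  -- many pairs in an interval of length `≥ (L - 1) / 2`
  have hmany : ∀ a b : ℕ, a ≤ b → b < n → (L : ℝ) - 1 ≤ 2 * ((b : ℝ) - a) →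
      X ^ 5 ≤ (((Ioc a b).filter (fun t => ∀ p ∈ PZ z, ¬ p ∣ n - t ∧ ¬ p ∣ n + t)).card : ℝ) := by
    intro a b hab hbn hlen
    refine le_trans ?_ (pairs n z a b hz2 hab hbn)
    have e1 : (X ^ 8 - 2) / 2 ≤ (b : ℝ) - a := by linarith
    have e0 : 0 ≤ (X ^ 8 - 2) / 2 := by linarith
    have e2 : (X ^ 8 - 2) / 2 / X ^ 2 ≤ ((b : ℝ) - a) / (z : ℝ) ^ 2 := by
      apply div_le_div₀ (by linarith) e1 (by positivity) hzsq
    have e3 : X ^ 6 / 2 - 1 ≤ (X ^ 8 - 2) / 2 / X ^ 2 := by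
      rw [le_div_iff₀ (by positivity)]
      have : X ^ 2 ≥ 1 := by nlinarith
      nlinarith
    have e4 : 2 * X ^ 5 + 2 * X + 2 ≤ X ^ 6 := by
      have h5 : X ^ 6 = X * X ^ 5 := by ring
      have h6 : X ≤ X ^ 5 := by
        calc X = X ^ 1 := (pow_one X).symm
          _ ≤ X ^ 5 := pow_le_pow_right₀ (by linarith) (by norm_num)
      rw [h5]
      nlinarith
    linarith
  -- the place of the hit
  have hG₂ := hmany (τ + L / 2) (τ + L) (by omega) (by omega) (by
    have h1 : ((τ + L / 2 : ℕ) : ℝ) ≤ τ + L / 2 := by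
      push_cast
      have := @Nat.cast_div_le ℝ _ _ _ L 2
      push_cast at this
      linarith
    push_cast at h1 ⊢
    linarith)
  have hX5 : 0 < X ^ 5 := by positivity
  obtain ⟨t, ht⟩ := card_pos.1 (by
    have h1 := lt_of_lt_of_le hX5 hG₂
    exact_mod_cast h1 : 0 < ((Ioc (τ + L / 2) (τ + L)).filter (fun t => ∀ p ∈ PZ z, ¬ p ∣ n - t ∧ ¬ p ∣ n + t)).card)
  rw [mem_filter, mem_Ioc] at ht
  obtain ⟨⟨ht1, ht2⟩, ht3⟩ := ht
  have hG₁ := hmany τ (τ + L / 2) (by omega) (by omega) (by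
    have h1 : (L : ℝ) - 1 ≤ 2 * ((L / 2 : ℕ) : ℝ) := by
      have : L ≤ 2 * (L / 2) + 1 := by omega
      have h2 : (L : ℝ) ≤ 2 * ((L / 2 : ℕ) : ℝ) + 1 := by exact_mod_cast this
      linarith
    push_cast
    push_cast at h1
    linarith)
  -- the values of the probabilities
  have hval₁ : ∀ t', t₀ < t' → t' ≤ u → (∀ p ∈ PZ z, ¬ p ∣ n - t' ∧ ¬ p ∣ n + t') →
      pr A (n - t') = VP z₁ / Real.log ((n - t' : ℕ) : ℝ) := by
    intro t' h1 h2 h3
    apply pr_val_pos A (n - t') z₁ hA (hleft _ (by omega) (by omega)) (hVj₁ _ (by omega))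
    intro p hp hpz
    apply (h3 p _).1
    unfold PZ
    rw [mem_filter, mem_Icc]
    exact ⟨⟨hp.one_lt.le, by omega⟩, hp⟩
  have hval₂ : ∀ t', t₀ < t' → t' ≤ u → (∀ p ∈ PZ z, ¬ p ∣ n - t' ∧ ¬ p ∣ n + t') →
      pr A (n + t') = VP z₂ / Real.log ((n + t' : ℕ) : ℝ) := by
    intro t' h1 h2 h3
    apply pr_val_pos A (n + t') z₂ hA (hright _ (by omega) (by omega)) (hVj₂ _ (by omega))
    intro p hp hpz
    apply (h3 p _).2
    unfold PZ
    rw [mem_filter, mem_Icc]
    exact ⟨⟨hp.one_lt.le, by omega⟩, hp⟩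
  have hlogpos : ∀ j : ℕ, n - u ≤ j → 1 ≤ Real.log (j : ℝ) := by
    intro j hj
    have := hVj₁ j hj
    linarith
  have hlogle : ∀ i j : ℕ, 1 ≤ i → i ≤ j → Real.log (i : ℝ) ≤ Real.log (j : ℝ) := by
    intro i j hi hij
    apply Real.log_le_log
    · exact_mod_cast hi
    · exact_mod_cast hij
  have hlog2n : ∀ j : ℕ, 1 ≤ j → j ≤ 2 * n → Real.log (j : ℝ) ≤ Real.log (2 * (n : ℝ)) := by
    intro j hj hj2
    apply Real.log_le_log
    · exact_mod_cast hj
    · exact_mod_cast hj2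
  have hgX : ((hh n ^ AA n : ℕ) : ℝ) ≤ X := by
    push_cast
    refine le_trans ?_ hF.f3
    have h1 : (hh n : ℝ) ^ AA n ≤ ((hh n : ℝ) + 1) ^ AA n := by gcongr; linarith
    refine h1.trans ?_
    apply pow_le_pow_right₀ _ (Nat.le_succ _)
    have : (0 : ℝ) ≤ hh n := Nat.cast_nonneg _
    linarith
  have hfin : ∀ (c : ℕ) (p : ℝ), X ^ 5 ≤ (c : ℝ) → 1 / X ≤ p →
      4 * (((hh n ^ AA n : ℕ) : ℝ) + 1) ^ 2 ≤ ((c : ℝ) + 1) * p := by
    intro c p hc hp
    have h1 : 4 * (((hh n ^ AA n : ℕ) : ℝ) + 1) ^ 2 ≤ 4 * (X + 1) ^ 2 := by gcongr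
    have h2 : 4 * (X + 1) ^ 2 ≤ X ^ 4 := by
      have h3 : X ^ 4 = X ^ 2 * X ^ 2 := by ring
      have h4 : (X + 1) ^ 2 ≤ 4 * X ^ 2 := by nlinarith
      have h5 : 16 ≤ X ^ 2 := by nlinarith
      have h6 : 0 ≤ X ^ 2 := by positivity
      nlinarith
    have h3 : X ^ 4 = X ^ 5 * (1 / X) := by
      have : X ≠ 0 := by linarith
      field_simp
    have h4 : X ^ 5 * (1 / X) ≤ ((c : ℝ) + 1) * p := by
      apply mul_le_mul (by linarith) hp (by positivity) (by linarith)
    linarith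
  have huRn : (u : ℝ) * L * 1000 ≤ n := by
    have : u * L * 1000 ≤ n := by
      calc u * L * 1000 = 1000 * (u * L) := by ring
        _ ≤ n := huL
    exact_mod_cast this
  unfold GoodBlock
  refine ⟨t, VP z₁ / Real.log (n : ℝ), VP z₁ / Real.log ((n - u : ℕ) : ℝ), VP z₂ / Real.log ((n + u : ℕ) : ℝ),
    VP z₂ / Real.log ((n + t₀ : ℕ) : ℝ), by omega, ht2, ?_, ?_, ?_, ?_, ?_, ?_, ?_, ?_, ?_, ?_, ?_, ?_, ?_, ?_⟩
  · have := hlogpos n (by omega)
    positivity
  · have h1 := hlogle (n - u) n (by omega) (by omega)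
    have h2 := hlogpos (n - u) le_rfl
    apply div_le_div_of_nonneg_left (by linarith) (by linarith) h1
  · have h2 := hlogpos (n - u) le_rfl
    rw [div_le_iff₀ (by linarith)]
    linarith
  · have := hlogpos (n + u) (by omega)
    positivity
  · have h1 := hlogle (n + t₀) (n + u) (by omega) (by omega)
    have h2 := hlogpos (n + t₀) (by omega)
    apply div_le_div_of_nonneg_left (by linarith) (by linarith) h1
  · have h2 := hlogpos (n + t₀) (by omega)
    rw [div_le_iff₀ (by linarith)]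
    linarith
  · intro j hj hj0
    rw [mem_Ioo] at hj
    rcases pr_val A j z₁ hA (hleft j (by omega) (by omega)) (hVj₁ j (by omega)) with h1 | h1
    · exact absurd h1 hj0
    · rw [h1]
      have h2 := hlogle (n - u) j (by omega) (by omega)
      have h3 := hlogle j n (by omega) (by omega)
      have h4 := hlogpos (n - u) le_rfl
      constructor
      · apply div_le_div_of_nonneg_left (by linarith) (by linarith) h3
      · apply div_le_div_of_nonneg_left (by linarith) (by linarith) h2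
  · intro j hj hj0
    rw [mem_Ioo] at hj
    rcases pr_val A j z₂ hA (hright j (by omega) (by omega)) (hVj₂ j (by omega)) with h1 | h1
    · exact absurd h1 hj0
    · rw [h1]
      have h2 := hlogle (n + t₀) j (by omega) (by omega)
      have h3 := hlogle j (n + u) (by omega) (by omega)
      have h4 := hlogpos (n + t₀) (by omega)
      constructor
      · apply div_le_div_of_nonneg_left (by linarith) (by linarith) h3
      · apply div_le_div_of_nonneg_left (by linarith) (by linarith) h2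
  · have h1 := diff_small (VP z₁) ((n - u : ℕ) : ℝ) n (by rw [hcastL]; linarith)
      (by rw [hcastL]; linarith [(Nat.cast_nonneg u : (0 : ℝ) ≤ u)]) (by linarith) hV₁
    rw [hcastL] at h1 ⊢
    have h2 : ((n : ℝ) - (n - u)) / (n - u) ≤ 2 * u / n := by
      rw [div_le_div_iff₀ (by linarith) (by linarith)]
      have : (0 : ℝ) ≤ u := Nat.cast_nonneg u
      nlinarith
    have h3 : (L : ℝ) * (2 * u / n) ≤ 1 / 4 := by
      rw [← mul_div_assoc, div_le_iff₀ (by linarith)]
      nlinarith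
    calc (L : ℝ) * (VP z₁ / Real.log ((n : ℝ) - u) - VP z₁ / Real.log n) ≤ L * (2 * u / n) := by
          apply mul_le_mul_of_nonneg_left _ (Nat.cast_nonneg L)
          linarith
      _ ≤ 1 / 4 := h3
  · have h1 := diff_small (VP z₂) ((n + t₀ : ℕ) : ℝ) ((n + u : ℕ) : ℝ) (by
        push_cast; linarith [(Nat.cast_nonneg t₀ : (0 : ℝ) ≤ t₀)]) (by exact_mod_cast (by omega : n + t₀ ≤ n + u))
        (by linarith) hV₂
    have h2 : (((n + u : ℕ) : ℝ) - ((n + t₀ : ℕ) : ℝ)) / ((n + t₀ : ℕ) : ℝ) ≤ 2 * u / n := by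
      push_cast
      have e1 : (0 : ℝ) ≤ u := Nat.cast_nonneg u
      have e2 : (0 : ℝ) ≤ t₀ := Nat.cast_nonneg t₀
      rw [div_le_div_iff₀ (by linarith) (by linarith)]
      nlinarith
    have h3 : (L : ℝ) * (2 * u / n) ≤ 1 / 4 := by
      rw [← mul_div_assoc, div_le_iff₀ (by linarith)]
      nlinarith
    calc (L : ℝ) * (VP z₂ / Real.log ((n + t₀ : ℕ) : ℝ) - VP z₂ / Real.log ((n + u : ℕ) : ℝ)) ≤ L * (2 * u / n) := by
          apply mul_le_mul_of_nonneg_left _ (Nat.cast_nonneg L)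
          linarith
      _ ≤ 1 / 4 := h3
  · apply hfin
    · refine hG₁.trans ?_
      have h1 : ((Ioc τ (τ + L / 2)).filter (fun t => ∀ p ∈ PZ z, ¬ p ∣ n - t ∧ ¬ p ∣ n + t)).card ≤
          ((Ioo (n - t) (n - τ)).filter (fun j => pr A j ≠ 0)).card := by
        apply card_le_card_of_injOn (fun t' => n - t')
        · intro t' ht'
          rw [mem_coe, mem_filter, mem_Ioc] at ht'
          rw [mem_coe, mem_filter, mem_Ioo]
          refine ⟨⟨by simp only; omega, by simp only; omega⟩, ?_⟩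
          simp only
          rw [hval₁ t' (by omega) (by omega) ht'.2]
          have := hlogpos (n - t') (by omega)
          positivity
        · intro t' ht' t'' ht'' h
          rw [mem_coe, mem_filter, mem_Ioc] at ht' ht''
          simp only at h
          omega
      exact_mod_cast h1
    · have h1 := hlogpos n (by omega)
      have h2 := hlog2n n (by omega) (by omega)
      rw [div_le_div_iff₀ (by linarith) (by linarith)]
      have := hF.f2
      nlinarith
  · apply hfin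
    · refine hG₁.trans ?_
      have h1 : ((Ioc τ (τ + L / 2)).filter (fun t => ∀ p ∈ PZ z, ¬ p ∣ n - t ∧ ¬ p ∣ n + t)).card ≤
          ((Ioo (n + τ) (n + t)).filter (fun j => pr A j ≠ 0)).card := by
        apply card_le_card_of_injOn (fun t' => n + t')
        · intro t' ht'
          rw [mem_coe, mem_filter, mem_Ioc] at ht'
          rw [mem_coe, mem_filter, mem_Ioo]
          refine ⟨⟨by simp only; omega, by simp only; omega⟩, ?_⟩
          simp only
          rw [hval₂ t' (by omega) (by omega) ht'.2]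
          have := hlogpos (n + t') (by omega)
          positivity
        · intro t' ht' t'' ht'' h
          simp only at h
          omega
      exact_mod_cast h1
    · have h1 := hlogpos (n + u) (by omega)
      have h2 := hlog2n (n + u) (by omega) (by omega)
      rw [div_le_div_iff₀ (by linarith) (by linarith)]
      have := hF.f2
      nlinarith
  · rw [hval₁ t (by omega) (by omega) ht3]
    have h1 := hlogpos (n - t) (by omega)
    have h2 := hlog2n (n - t) (by omega) (by omega)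
    rw [div_le_div_iff₀ (by linarith) (by linarith)]
    nlinarith
  · rw [hval₂ t (by omega) (by omega) ht3]
    have h1 := hlogpos (n + t) (by omega)
    have h2 := hlog2n (n + t) (by omega) (by omega)
    rw [div_le_div_iff₀ (by linarith) (by linarith)]
    nlinarith

end Pool.Agent.T2H64.IP
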