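import Mathlib
import Pool.Agent.T2H64.IP.Gb

set_option autoImplicit false

/-! # Clean groups, parity, numerical bounds -/

namespace Pool.Agent.T2H64.IP

open Finset Filter Topology
open Pool.Agent.T2H53.GW (pr pr_nonneg pr_le_one one_le_VV)

/-- the sieve limit -/
noncomputable def gz (A : ℝ) (j : ℕ) : ℕ := ⌊A * Real.log (j : ℝ)⌋₊

lemma gz_mono (A : ℝ) (hA : 0 < A) {i j : ℕ} (hi : 1 ≤ i) (hij : i ≤ j) : gz A i ≤ gz A j := by
  apply Nat.floor_mono
  apply mul_le_mul_of_nonneg_left _ hA.le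
  apply Real.log_le_log
  · exact_mod_cast hi
  · exact_mod_cast hij

/-- a clean group -/
def Clean (A : ℝ) (n B γ : ℕ) : Prop :=
  gz A (n - (γ * B + B)) = gz A (n - γ * B) ∧ gz A (n + γ * B) = gz A (n + (γ * B + B))

open scoped Classical in
lemma clean_card (A : ℝ) (hA : 0 < A) (n B G : ℕ) (hn : G * B < n) (hw : gz A (n + G * B) ≤ gz A (n - G * B) + 1) :
    G - 1 ≤ ((range G).filter (fun γ => Clean A n B γ)).card := by
  have hU : ((range G).filter (fun γ => ¬ Clean A n B γ)).card ≤ 1 := by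
    rw [card_le_one]
    have key : ∀ γ γ' : ℕ, γ < γ' → γ' < G → ¬ Clean A n B γ → ¬ Clean A n B γ' → False := by
      intro γ γ' h1 h2 h3 h4
      have e1 : γ * B + B = (γ + 1) * B := by ring
      have e2 : γ' * B + B = (γ' + 1) * B := by ring
      have e3 : (γ + 1) * B ≤ γ' * B := Nat.mul_le_mul_right _ h1
      have e4 : (γ' + 1) * B ≤ G * B := Nat.mul_le_mul_right _ h2
      unfold Clean at h3 h4
      rw [e1] at h3
      rw [e2] at h4
      have e5 : γ * B ≤ (γ + 1) * B := Nat.mul_le_mul_right _ (by omega)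
      have e6 : γ' * B ≤ (γ' + 1) * B := Nat.mul_le_mul_right _ (by omega)
      have a1 := gz_mono A hA (i := n - (γ + 1) * B) (j := n - γ * B) (by omega) (by omega)
      have a2 := gz_mono A hA (i := n + γ * B) (j := n + (γ + 1) * B) (by omega) (by omega)
      have a3 := gz_mono A hA (i := n - (γ' + 1) * B) (j := n - γ' * B) (by omega) (by omega)
      have a4 := gz_mono A hA (i := n + γ' * B) (j := n + (γ' + 1) * B) (by omega) (by omega)
      have a5 := gz_mono A hA (i := n - γ' * B) (j := n - (γ + 1) * B) (by omega) (by omega)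
      have a6 := gz_mono A hA (i := n + (γ + 1) * B) (j := n + γ' * B) (by omega) (by omega)
      have a7 := gz_mono A hA (i := n - G * B) (j := n - (γ' + 1) * B) (by omega) (by omega)
      have a8 := gz_mono A hA (i := n + (γ' + 1) * B) (j := n + G * B) (by omega) (by omega)
      have a9 := gz_mono A hA (i := n - γ * B) (j := n + γ * B) (by omega) (by omega)
      omega
    intro γ hγ γ' hγ'
    rw [mem_filter, mem_range] at hγ hγ'
    by_contra hne
    rcases lt_or_gt_of_ne hne with h | h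
    · exact key γ γ' h hγ'.1 hγ.2 hγ'.2
    · exact key γ' γ h hγ.1 hγ'.2 hγ.2
  have h1 := card_filter_add_card_filter_not (s := range G) (fun γ => Clean A n B γ)
  rw [card_range] at h1
  omega

/-- the random primes are odd apart from a bounded number -/
lemma NN_half {A : ℝ} (hA : 0 < A) {R : Set ℕ} (hR : ∀ j, pr A j = 0 → j ∉ R) (x : ℕ) (C : ℕ)
    (hC : Real.exp (2 / A) ≤ C) : NN R x ≤ C + (x / 2 + 1) := by
  classical
  have hz : ∀ j : ℕ, C ≤ j → 2 ∣ j → pr A j = 0 := by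
    intro j hj h2
    unfold pr
    rw [if_neg]
    intro h
    apply h 2 Nat.prime_two _ h2
    have h3 : 2 / A ≤ Real.log j := by
      rw [Real.le_log_iff_exp_le]
      · refine hC.trans ?_
        exact_mod_cast hj
      · have : (0 : ℝ) < C := lt_of_lt_of_le (Real.exp_pos _) hC
        exact lt_of_lt_of_le this (by exact_mod_cast hj)
    rw [div_le_iff₀ hA] at h3
    push_cast
    linarith
  unfold NN
  have hsub : (Icc 1 x).filter (fun j => j ∈ R) ⊆ range C ∪ (range (x / 2 + 1)).image (fun i => 2 * i + 1) := by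
    intro j hj
    rw [mem_filter, mem_Icc] at hj
    rw [mem_union, mem_range, mem_image]
    by_cases h1 : j < C
    · exact Or.inl h1
    · right
      have h2 : ¬ 2 ∣ j := fun h2 => hR j (hz j (by omega) h2) hj.2
      refine ⟨j / 2, ?_, by omega⟩
      rw [mem_range]
      omega
  refine (card_le_card hsub).trans ((card_union_le _ _).trans ?_)
  rw [card_range]
  have : ((range (x / 2 + 1)).image (fun i => 2 * i + 1)).card ≤ x / 2 + 1 := by
    refine card_image_le.trans ?_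
    rw [card_range]
  omega

lemma pr_zero (A : ℝ) : pr A 0 = 0 := by
  classical
  unfold pr
  split_ifs
  · simp
  · rfl

/-- the numbers of the construction -/
structure Num (A e : ℝ) (K₀ n : ℕ) (L B G : ℕ) : Prop where
  hL : L = LL e n
  hB : B = L ^ 4 * L
  hG : G = n / L ^ 8

lemma num_bounds (A e X : ℝ) (hA : 0 < A) (he : 0 < e) (he1 : e ≤ 1 / 100) (K₀ n : ℕ) (hF : Facts A e K₀ n X) (L B G : ℕ)
    (hL : L = LL e n) (hB : B = L ^ 4 * L) (hG : G = n / L ^ 8) :
    X ^ 8 - 1 ≤ (L : ℝ) ∧ (L : ℝ) ≤ X ^ 8 ∧ X ^ 800 ≤ n ∧ G * B * L ^ 3 ≤ n ∧ G * B * 1000 ≤ n ∧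
      gz A (n + G * B) ≤ gz A (n - G * B) + 1 := by
  have hX := hF.f1
  have hn : (1000 : ℝ) ≤ n := by exact_mod_cast hF.f11
  have hX8 : X ^ 8 = (n : ℝ) ^ e := by
    rw [hF.f0, ← Real.rpow_natCast, ← Real.rpow_mul (by linarith)]
    congr 1
    push_cast
    ring
  have h1 : X ^ 8 - 1 ≤ (L : ℝ) := by
    rw [hL, hX8]
    unfold LL
    have := Nat.lt_floor_add_one ((n : ℝ) ^ e)
    linarith
  have h2 : (L : ℝ) ≤ X ^ 8 := by
    rw [hL, hX8]
    exact Nat.floor_le (by positivity)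
  have h3 : X ^ 800 ≤ n := by
    have : X ^ 800 = (n : ℝ) ^ (100 * e) := by
      rw [hF.f0, ← Real.rpow_natCast, ← Real.rpow_mul (by linarith)]
      congr 1
      push_cast
      ring
    rw [this]
    calc (n : ℝ) ^ (100 * e) ≤ (n : ℝ) ^ (1 : ℝ) := Real.rpow_le_rpow_of_exponent_le (by linarith) (by linarith)
      _ = n := Real.rpow_one _
  have h4 : G * B * L ^ 3 ≤ n := by
    rw [hG, hB]
    calc n / L ^ 8 * (L ^ 4 * L) * L ^ 3 = n / L ^ 8 * L ^ 8 := by ring
      _ ≤ n := Nat.div_mul_le_self _ _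
  have hXL : 1000 * X ≤ (L : ℝ) := by
    have : X ^ 8 = X ^ 6 * X * X := by ring
    have h5 : (1000 : ℝ) ^ 6 ≤ X ^ 6 := by gcongr
    have h6 : (1000 : ℝ) ^ 6 * X * X ≤ X ^ 8 := by
      rw [this]; gcongr
    nlinarith
  have hLbig : 1000 ≤ L := by
    have : (1000 : ℝ) ≤ L := by linarith
    exact_mod_cast this
  have h5 : G * B * 1000 ≤ n := by
    refine le_trans ?_ h4
    apply Nat.mul_le_mul_left
    calc 1000 ≤ L := hLbig
      _ = L ^ 1 := (pow_one L).symm
      _ ≤ L ^ 3 := Nat.pow_le_pow_right (by omega) (by norm_num)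
  refine ⟨h1, h2, h3, h4, h5, ?_⟩
  -- the variation of the sieve limit
  obtain ⟨H, hH⟩ : ∃ H, H = G * B := ⟨_, rfl⟩
  rw [← hH] at h4 h5 ⊢
  have hH4 : (H : ℝ) * X * 8 ≤ n := by
    have e1 : (H : ℝ) * L ^ 3 ≤ n := by exact_mod_cast h4
    refine le_trans ?_ e1
    have e2 : X * 8 ≤ (L : ℝ) ^ 3 := by
      have : (L : ℝ) ^ 3 = L * (L * L) := by ring
      rw [this]
      have h7 : (1 : ℝ) ≤ L * L := by nlinarith
      nlinarith
    have e3 : (0 : ℝ) ≤ H := Nat.cast_nonneg H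
    nlinarith
  have hHn : (H : ℝ) * 1000 ≤ n := by exact_mod_cast h5
  unfold gz
  have hcast : ((n - H : ℕ) : ℝ) = (n : ℝ) - H := by rw [Nat.cast_sub (by omega)]
  have hH0 : (0 : ℝ) ≤ H := Nat.cast_nonneg H
  have h6 := log_diff ((n - H : ℕ) : ℝ) ((n + H : ℕ) : ℝ) (by rw [hcast]; linarith) (by rw [hcast]; push_cast; linarith)
  have h7 : (((n + H : ℕ) : ℝ) - ((n - H : ℕ) : ℝ)) / ((n - H : ℕ) : ℝ) ≤ 4 * H / n := by
    rw [hcast]
    push_cast
    rw [div_le_div_iff₀ (by linarith) (by linarith)]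
    nlinarith
  have h8 : A * (4 * H / n) ≤ 1 := by
    rw [← mul_div_assoc, div_le_one (by linarith)]
    have := hF.f8
    nlinarith
  have h9 : A * Real.log ((n + H : ℕ) : ℝ) ≤ A * Real.log ((n - H : ℕ) : ℝ) + 1 := by
    have : A * (Real.log ((n + H : ℕ) : ℝ) - Real.log ((n - H : ℕ) : ℝ)) ≤ A * (4 * H / n) :=
      mul_le_mul_of_nonneg_left (h6.trans h7) hA.le
    linarith
  calc ⌊A * Real.log ((n + H : ℕ) : ℝ)⌋₊ ≤ ⌊A * Real.log ((n - H : ℕ) : ℝ) + 1⌋₊ := Nat.floor_mono h9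
    _ = ⌊A * Real.log ((n - H : ℕ) : ℝ)⌋₊ + 1 := Nat.floor_add_one (by
        have := Real.log_natCast_nonneg (n - H)
        positivity)

/-- natural bounds -/
lemma nat_bounds (A e X : ℝ) (K₀ n : ℕ) (hF : Facts A e K₀ n X) (L B : ℕ)
    (hB : B = L ^ 4 * L) (h2 : (L : ℝ) ≤ X ^ 8) (h3 : X ^ 800 ≤ n) :
    (K₀ * (hh n + 1) ^ AA n + B + L + hh n ^ AA n + 1) * hh n + K₀ + 1 ≤ n / 1000 ∧
      B + L + hh n ^ (AA n + 1) + hh n ≤ n / 1000 ∧ ⌈Real.exp (2 / A)⌉₊ ≤ n / 1000 := by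
  have hX := hF.f1
  have hX1 : (1 : ℝ) ≤ X := by linarith
  have hh0 : (0 : ℝ) ≤ hh n := Nat.cast_nonneg _
  have hmain := hF.f3
  have b1 : ((hh n : ℝ) + 1) ^ AA n ≤ X :=
    le_trans (pow_le_pow_right₀ (by linarith) (Nat.le_succ _)) hmain
  have b2 : (hh n : ℝ) ^ AA n ≤ X := by
    refine le_trans ?_ b1
    gcongr; linarith
  have b3 : (hh n : ℝ) ≤ X := by
    refine le_trans ?_ hmain
    calc (hh n : ℝ) ≤ ((hh n : ℝ) + 1) ^ 1 := by rw [pow_one]; linarith
      _ ≤ _ := pow_le_pow_right₀ (by linarith) (by omega)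
  have b4 : (hh n : ℝ) ^ (AA n + 1) ≤ X := by
    refine le_trans ?_ hmain
    gcongr; linarith
  have b5 := hF.f7
  have b6 : (B : ℝ) ≤ X ^ 40 := by
    rw [hB]
    push_cast
    calc (L : ℝ) ^ 4 * L = (L : ℝ) ^ 5 := by ring
      _ ≤ (X ^ 8) ^ 5 := by gcongr
      _ = X ^ 40 := by ring
  have hpow : ∀ k : ℕ, 1 ≤ k → k ≤ 40 → X ^ k ≤ X ^ 40 := fun k _ hk => pow_le_pow_right₀ hX1 hk
  have c1 : X ≤ X ^ 40 := by
    have := hpow 1 le_rfl (by norm_num)
    rwa [pow_one] at this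
  have c8 := hpow 8 (by norm_num) (by norm_num)
  have c2 := hpow 2 (by norm_num) (by norm_num)
  have c0 : (1 : ℝ) ≤ X ^ 40 := one_le_pow₀ hX1
  have hbig : 1000 * (10 * (X ^ 40 * X)) ≤ n := by
    refine le_trans ?_ h3
    calc 1000 * (10 * (X ^ 40 * X)) = 10000 * X ^ 41 := by ring
      _ ≤ X * X * X ^ 41 := by
        apply mul_le_mul_of_nonneg_right _ (by positivity)
        nlinarith
      _ = X ^ 43 := by ring
      _ ≤ X ^ 800 := pow_le_pow_right₀ hX1 (by norm_num)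
  have hX40 : X ^ 40 ≤ X ^ 40 * X := by nlinarith
  refine ⟨?_, ?_, ?_⟩
  · rw [Nat.le_div_iff_mul_le (by norm_num)]
    have h4 : (((K₀ * (hh n + 1) ^ AA n + B + L + hh n ^ AA n + 1) * hh n + K₀ + 1 : ℕ) : ℝ) * 1000 ≤ n := by
      push_cast
      have e1 : (K₀ : ℝ) * ((hh n : ℝ) + 1) ^ AA n ≤ X ^ 40 := by
        calc (K₀ : ℝ) * ((hh n : ℝ) + 1) ^ AA n ≤ X * X := by gcongr
          _ = X ^ 2 := by ring
          _ ≤ _ := c2
      have e2 : (K₀ : ℝ) * ((hh n : ℝ) + 1) ^ AA n + B + L + (hh n : ℝ) ^ AA n + 1 ≤ 5 * X ^ 40 := by linarith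
      have e3 : ((K₀ : ℝ) * ((hh n : ℝ) + 1) ^ AA n + B + L + (hh n : ℝ) ^ AA n + 1) * hh n ≤ 5 * X ^ 40 * X := by
        gcongr
      linarith
    exact_mod_cast h4
  · rw [Nat.le_div_iff_mul_le (by norm_num)]
    have h4 : ((B + L + hh n ^ (AA n + 1) + hh n : ℕ) : ℝ) * 1000 ≤ n := by
      push_cast
      linarith
    exact_mod_cast h4
  · rw [Nat.le_div_iff_mul_le (by norm_num)]
    have h4 : ((⌈Real.exp (2 / A)⌉₊ : ℕ) : ℝ) * 1000 ≤ n := by
      have := Nat.ceil_lt_add_one (Real.exp_pos (2 / A)).le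
      have := hF.f9
      linarith
    exact_mod_cast h4

/-- the numerical bound of the probability -/
lemma prob_num (A e X : ℝ) (K₀ n : ℕ) (hF : Facts A e K₀ n X) (L G shi : ℕ) (h1 : X ^ 8 - 1 ≤ (L : ℝ))
    (hG : G ≤ n) (hs : shi + 1 ≤ n) :
    (G : ℝ) * (((shi : ℝ) + 1) ^ 2 * (1 - (1 / Real.log (2 * n)) ^ 2 / (4 * ((L : ℝ) + 1)) ^ 2) ^ (L ^ 4)) ≤
      1 / (n : ℝ) ^ 2 := by
  have hX := hF.f1
  have hn : (1000 : ℝ) ≤ n := by exact_mod_cast hF.f11
  have hl1 : 1 ≤ Real.log (2 * (n : ℝ)) := by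
    rw [Real.le_log_iff_exp_le (by linarith)]
    linarith [Real.exp_one_lt_d9]
  have hlX := hF.f2
  have hL1 : X ^ 7 * 999 ≤ (L : ℝ) := by
    have : X ^ 8 = X ^ 7 * X := by ring
    have h2 : (1 : ℝ) ≤ X ^ 7 := one_le_pow₀ (by linarith)
    nlinarith
  have hX7 : X ≤ X ^ 7 := by
    calc X = X ^ 1 := (pow_one X).symm
      _ ≤ X ^ 7 := pow_le_pow_right₀ (by linarith) (by norm_num)
  have hLX : X * 999 ≤ (L : ℝ) := by nlinarith
  set δ : ℝ := (1 / Real.log (2 * n)) ^ 2 / (4 * ((L : ℝ) + 1)) ^ 2 with hδ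
  have hδ0 : 0 ≤ δ := by positivity
  have hδ1 : δ ≤ 1 := by
    rw [hδ, div_le_one (by positivity)]
    have e1 : (1 / Real.log (2 * (n : ℝ))) ^ 2 ≤ 1 ^ 2 := by
      gcongr
      rw [div_le_one (by linarith)]
      exact hl1
    have e2 : (1 : ℝ) ^ 2 ≤ (4 * ((L : ℝ) + 1)) ^ 2 := by
      gcongr
      linarith
    linarith
  have hexp : (1 - δ) ^ (L ^ 4) ≤ Real.exp (-(5 * Real.log n)) := by
    calc (1 - δ) ^ (L ^ 4) ≤ (Real.exp (-δ)) ^ (L ^ 4) := by
          apply pow_le_pow_left₀ (by linarith)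
          have := Real.add_one_le_exp (-δ)
          linarith
      _ = Real.exp (-(δ * (L : ℝ) ^ 4)) := by
          rw [← Real.exp_nat_mul]
          congr 1
          push_cast
          ring
      _ ≤ _ := by
          apply Real.exp_le_exp.mpr
          have hlogn : Real.log n ≤ X := by
            refine le_trans ?_ hlX
            apply Real.log_le_log (by linarith) (by linarith)
          have e1 : 5 * X ≤ δ * (L : ℝ) ^ 4 := by
            have e2 : 1 / X ^ 2 / (16 * (2 * (L : ℝ)) ^ 2) ≤ δ := by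
              rw [hδ]
              apply div_le_div₀ (by positivity)
              · rw [one_div, one_div, ← inv_pow]
                gcongr
              · positivity
              · calc (4 * ((L : ℝ) + 1)) ^ 2 = 16 * ((L : ℝ) + 1) ^ 2 := by ring
                  _ ≤ 16 * (2 * (L : ℝ)) ^ 2 := by gcongr; linarith
            have e3 : 1 / X ^ 2 / (16 * (2 * (L : ℝ)) ^ 2) * (L : ℝ) ^ 4 = (L : ℝ) ^ 2 / (64 * X ^ 2) := by
              have hX0 : X ≠ 0 := by linarith
              have hL0 : (L : ℝ) ≠ 0 := by linarith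
              field_simp
              norm_num
            have e4 : 5 * X ≤ (L : ℝ) ^ 2 / (64 * X ^ 2) := by
              rw [le_div_iff₀ (by positivity)]
              have e5 : (X ^ 7) ^ 2 ≤ (L : ℝ) ^ 2 := by
                apply pow_le_pow_left₀ (by positivity)
                nlinarith [pow_pos (show (0 : ℝ) < X by linarith) 7]
              have e6 : 320 * X ^ 3 ≤ (X ^ 7) ^ 2 := by
                have : (X ^ 7) ^ 2 = X ^ 11 * X ^ 3 := by ring
                rw [this]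
                apply mul_le_mul_of_nonneg_right _ (by positivity)
                calc (320 : ℝ) ≤ X := by linarith
                  _ = X ^ 1 := (pow_one X).symm
                  _ ≤ X ^ 11 := pow_le_pow_right₀ (by linarith) (by norm_num)
              calc 5 * X * (64 * X ^ 2) = 320 * X ^ 3 := by ring
                _ ≤ _ := e6.trans e5
            calc 5 * X ≤ (L : ℝ) ^ 2 / (64 * X ^ 2) := e4
              _ = 1 / X ^ 2 / (16 * (2 * (L : ℝ)) ^ 2) * (L : ℝ) ^ 4 := e3.symm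
              _ ≤ _ := by gcongr
          linarith
  have hexp2 : Real.exp (-(5 * Real.log n)) = 1 / (n : ℝ) ^ 5 := by
    rw [Real.exp_neg, show 5 * Real.log (n : ℝ) = ((5 : ℕ) : ℝ) * Real.log n by push_cast; ring, Real.exp_nat_mul,
      Real.exp_log (by linarith), one_div]
  rw [hexp2] at hexp
  have hGR : (G : ℝ) ≤ n := by exact_mod_cast hG
  have hsR : (shi : ℝ) + 1 ≤ n := by exact_mod_cast hs
  have h1δ : 0 ≤ 1 - δ := by linarith
  calc (G : ℝ) * (((shi : ℝ) + 1) ^ 2 * (1 - δ) ^ (L ^ 4)) ≤ n * ((n : ℝ) ^ 2 * (1 / (n : ℝ) ^ 5)) := by gcongr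
    _ = 1 / (n : ℝ) ^ 2 := by
      have : (n : ℝ) ≠ 0 := by linarith
      field_simp

end Pool.Agent.T2H64.IP
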