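import Mathlib
import Pool.Agent.T2H64.IP.Fin1
import Pool.Agent.T2H53.GW.Prob

set_option autoImplicit false

/-! # Sums of two iterated random primes -/

namespace Pool.Agent.T2H64.IP

open Finset Filter Topology MeasureTheory ProbabilityTheory
open Pool.Agent.T2H53.GW (pr pr_nonneg pr_le_one one_le_VV bc)

section

variable {Ω : Type*} [MeasurableSpace Ω] {μ : Measure Ω} [IsProbabilityMeasure μ] {S : ℕ → Set Ω}

/-- the bad event for `n` -/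
def BadN (A e : ℝ) (K₀ n : ℕ) (T : Finset ℕ) : Prop :=
  ∃ γ, γ < n / (LL e n) ^ 8 ∧ Clean A n ((LL e n) ^ 4 * LL e n) γ ∧
    BadG n (γ * ((LL e n) ^ 4 * LL e n)) (LL e n) ((LL e n) ^ 4)
      (n - (n / (LL e n) ^ 8) * ((LL e n) ^ 4 * LL e n) - 1) (AA n) (hh n) K₀
      (K₀ * (hh n + 1) ^ AA n + (LL e n) ^ 4 * LL e n + LL e n + hh n ^ AA n + 1) (3 * n / 4) T

lemma bad_prob (A e : ℝ) (hA : 0 < A) (he : 0 < e) (he1 : e ≤ 1 / 100) (K₀ n : ℕ)
    (hF : Facts A e K₀ n ((n : ℝ) ^ (e / 8))) (hm : ∀ n, MeasurableSet (S n)) (hi : iIndepSet S μ)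
    (hp : ∀ n, μ.real (S n) = pr A n) :
    μ.real {ω | BadN A e K₀ n (RT S (range (2 * n + 1)) ω)} ≤ 1 / (n : ℝ) ^ 2 := by
  classical
  obtain ⟨X, hXd⟩ : ∃ X, X = (n : ℝ) ^ (e / 8) := ⟨_, rfl⟩
  rw [← hXd] at hF
  have hfun : (fun j => μ.real (S j)) = pr A := funext hp
  rw [prob_eq hm hi, hfun]
  obtain ⟨L, hL⟩ : ∃ L, L = LL e n := ⟨_, rfl⟩
  obtain ⟨B, hB⟩ : ∃ B, B = L ^ 4 * L := ⟨_, rfl⟩
  obtain ⟨G, hG⟩ : ∃ G, G = n / L ^ 8 := ⟨_, rfl⟩
  obtain ⟨b1, b2, b3, b4, b5, b6⟩ := num_bounds A e X hA he he1 K₀ n hF L B G hL hB hG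
  obtain ⟨c1, c2, c3⟩ := nat_bounds A e X K₀ n hF L B hB b2 b3
  have hn1000 := hF.f11
  have hh1 := hF.f10
  obtain ⟨slo, hslo⟩ : ∃ slo, slo = K₀ * (hh n + 1) ^ AA n + B + L + hh n ^ AA n + 1 := ⟨_, rfl⟩
  obtain ⟨Y, hY⟩ : ∃ Y, Y = n - G * B - 1 := ⟨_, rfl⟩
  unfold BadN
  rw [← hL, ← hB, ← hG, ← hslo, ← hY]
  have hub := PP_union_bound (pr_nonneg A) (pr_le_one A) (range (2 * n + 1)) ((range G).filter (fun γ => Clean A n B γ))
    (fun γ T => BadG n (γ * B) L (L ^ 4) Y (AA n) (hh n) K₀ slo (3 * n / 4) T)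
    (fun T => ∃ γ, γ < G ∧ Clean A n B γ ∧ BadG n (γ * B) L (L ^ 4) Y (AA n) (hh n) K₀ slo (3 * n / 4) T)
    (by
      rintro T _ ⟨γ, h1, h2, h3⟩
      exact ⟨γ, by rw [mem_filter, mem_range]; exact ⟨h1, h2⟩, h3⟩)
  refine hub.trans ?_
  have hn : (1000 : ℝ) ≤ n := by exact_mod_cast hn1000
  have hl1 : 1 ≤ Real.log (2 * (n : ℝ)) := by
    rw [Real.le_log_iff_exp_le (by linarith)]
    linarith [Real.exp_one_lt_d9]
  have hpl0 : 0 ≤ 1 / Real.log (2 * (n : ℝ)) := by positivity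
  have hpl1 : 1 / Real.log (2 * (n : ℝ)) ≤ 1 := by
    rw [div_le_one (by linarith)]; exact hl1
  have heach : ∀ γ ∈ (range G).filter (fun γ => Clean A n B γ),
      PP (pr A) (range (2 * n + 1)) (fun T => BadG n (γ * B) L (L ^ 4) Y (AA n) (hh n) K₀ slo (3 * n / 4) T) ≤
      (((3 * n / 4 : ℕ) : ℝ) + 1) ^ 2 * (1 - (1 / Real.log (2 * n)) ^ 2 / (4 * ((L : ℝ) + 1)) ^ 2) ^ (L ^ 4) := by
    intro γ hγ
    rw [mem_filter, mem_range] at hγ
    have e1 : (γ + 1) * B ≤ G * B := Nat.mul_le_mul_right _ hγ.1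
    have e2 : (γ + 1) * B = γ * B + B := by ring
    have e3 : L ^ 4 * L = B := hB.symm
    apply group_event (pr_nonneg A) (pr_le_one A) (2 * n) n (γ * B) L (L ^ 4) Y (AA n) (hh n) K₀ slo (3 * n / 4)
      (1 / Real.log (2 * n)) hpl0 hpl1
    · rw [e3]; omega
    · rw [e3]; omega
    · rw [e3]; omega
    · exact hh1
    · rw [e3]; omega
    · rw [e3]; omega
    · intro k hk
      have e4 : (k + 1) * L ≤ L ^ 4 * L := Nat.mul_le_mul_right _ hk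
      have e5 : (k + 1) * L = k * L + L := by ring
      rw [e3] at e4
      subst hL
      apply good_block A e X hA K₀ n (γ * B) B (γ * B + k * LL e n) hF b1
      · calc (γ * B + B) * LL e n ^ 3 ≤ (G * B) * LL e n ^ 3 := Nat.mul_le_mul_right _ (by omega)
          _ ≤ n := b4
      · omega
      · omega
      · exact hγ.2.1
      · exact hγ.2.2
  refine (sum_le_sum heach).trans ?_
  rw [sum_const, nsmul_eq_mul]
  have hcard : ((((range G).filter (fun γ => Clean A n B γ)).card : ℕ) : ℝ) ≤ G := by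
    have := card_filter_le (range G) (fun γ => Clean A n B γ)
    rw [card_range] at this
    exact_mod_cast this
  have hδ0 : 0 ≤ (1 - (1 / Real.log (2 * (n : ℝ))) ^ 2 / (4 * ((L : ℝ) + 1)) ^ 2) := by
    have hL0 : (0 : ℝ) ≤ L := Nat.cast_nonneg L
    have : (1 / Real.log (2 * (n : ℝ))) ^ 2 / (4 * ((L : ℝ) + 1)) ^ 2 ≤ 1 := by
      rw [div_le_one (by positivity)]
      have h1 : (1 / Real.log (2 * (n : ℝ))) ^ 2 ≤ 1 ^ 2 := by gcongr
      have h2 : (1 : ℝ) ≤ (4 * ((L : ℝ) + 1)) ^ 2 := by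
        have : (1 : ℝ) ≤ 4 * ((L : ℝ) + 1) := by linarith
        nlinarith
      linarith
    linarith
  refine le_trans (mul_le_mul_of_nonneg_right hcard (by positivity)) ?_
  apply prob_num A e X K₀ n hF L G (3 * n / 4) b1
  · rw [hG]; exact Nat.div_le_self _ _
  · omega

/-- almost surely no bad event for large `n` -/
lemma bad_ae (A : ℝ) (hA : 0 < A) (hm : ∀ n, MeasurableSet (S n)) (hi : iIndepSet S μ)
    (hp : ∀ n, μ.real (S n) = pr A n) :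
    ∀ᵐ ω ∂μ, ∀ m K₀ : ℕ, ∀ᶠ n : ℕ in atTop,
      ¬ BadN A (1 / (100 * ((m : ℝ) + 1))) K₀ n (RT S (range (2 * n + 1)) ω) := by
  rw [ae_all_iff]; intro m
  rw [ae_all_iff]; intro K₀
  obtain ⟨e, he⟩ : ∃ e : ℝ, e = 1 / (100 * ((m : ℝ) + 1)) := ⟨_, rfl⟩
  rw [← he]
  have he0 : 0 < e := by rw [he]; positivity
  have he1 : e ≤ 1 / 100 := by
    rw [he]
    apply one_div_le_one_div_of_le (by norm_num)
    have : (0 : ℝ) ≤ m := Nat.cast_nonneg m
    linarith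
  obtain ⟨N, hN⟩ := Filter.eventually_atTop.mp (ev_facts A e hA he0 K₀)
  exact bc (μ := μ) (fun n => {ω | BadN A e K₀ n (RT S (range (2 * n + 1)) ω)}) N (fun n => 1 / (n : ℝ) ^ 2)
    (Real.summable_one_div_nat_pow.2 (by norm_num))
    (fun n hn => bad_prob A e hA he0 he1 K₀ n (hN n hn) hm hi hp)

end

end Pool.Agent.T2H64.IP
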