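import Mathlib
import Pool.Agent.T2H64.IP.Fin
import Pool.Agent.T2H62.MD.K
import Pool.Agent.T2H62.MD.A
import Pool.Agent.T2H53.GW.Exist

set_option autoImplicit false

/-! # Sums of two iterated random primes: the final form -/

namespace Pool.Agent.T2H64.IP

open Finset Filter Topology MeasureTheory ProbabilityTheory
open Pool.Agent.T2H53.GW (pr pr_nonneg pr_le_one one_le_VV bc)

/-- the function `f₂` -/
noncomputable def f2 (a b : ℕ) : ℝ :=
  if a = b then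
    (if a = 0 then (2 : ℝ) ^ (((a : ℝ) + 1) * (b + 1) * (a + b + 2))
      else (2 : ℝ) ^ (((a : ℝ) + 1) ^ 2 * (2 * a + 3) / a - 2 * a))
  else (2 : ℝ) ^ (((a : ℝ) + 1) * (b + 1) * (a + b + 2) - (a + b - 2))

lemma le_AA {a n : ℕ} (h : (2 : ℝ) ^ ((a : ℝ) ^ 2) ≤ n) : a ≤ AA n := by
  unfold AA
  rw [Nat.le_sqrt]
  have hn : n ≠ 0 := by
    rintro rfl
    have : (0 : ℝ) < (2 : ℝ) ^ ((a : ℝ) ^ 2) := by positivity
    push_cast at h
    linarith
  apply Nat.le_log_of_pow_le (by norm_num)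
  have h1 : (2 : ℝ) ^ ((a : ℝ) ^ 2) = ((2 ^ (a * a) : ℕ) : ℝ) := by
    have h2 := Real.rpow_natCast (2 : ℝ) (a * a)
    push_cast at h2 ⊢
    rw [← h2, sq]
  rw [h1] at h
  exact_mod_cast h

lemma orders {a b n : ℕ} (h : f2 a b ≤ n) : a ≤ AA n ∧ b ≤ AA n := by
  have key : ∀ E : ℝ, (2 : ℝ) ^ E ≤ n → (a : ℝ) ^ 2 ≤ E → (b : ℝ) ^ 2 ≤ E → a ≤ AA n ∧ b ≤ AA n := by
    intro E hE h1 h2
    constructor
    · exact le_AA (le_trans (Real.rpow_le_rpow_of_exponent_le (by norm_num) h1) hE)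
    · exact le_AA (le_trans (Real.rpow_le_rpow_of_exponent_le (by norm_num) h2) hE)
  have ha : (0 : ℝ) ≤ a := Nat.cast_nonneg a
  have hb : (0 : ℝ) ≤ b := Nat.cast_nonneg b
  unfold f2 at h
  split_ifs at h with h1 h2
  · have ha0 : (a : ℝ) = 0 := by rw [h2]; simp
    have hb0 : (b : ℝ) = 0 := by rw [← h1, h2]; simp
    apply key _ h
    · rw [ha0, hb0]; norm_num
    · rw [ha0, hb0]; norm_num
  · have ha1 : (1 : ℝ) ≤ a := by exact_mod_cast Nat.one_le_iff_ne_zero.2 h2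
    have h3 : (a : ℝ) ^ 2 ≤ ((a : ℝ) + 1) ^ 2 * (2 * a + 3) / a - 2 * a := by
      have h4 : ((a : ℝ) + 1) ^ 2 * 2 ≤ ((a : ℝ) + 1) ^ 2 * (2 * a + 3) / a := by
        rw [le_div_iff₀ (by linarith)]
        have : 0 ≤ ((a : ℝ) + 1) ^ 2 := by positivity
        nlinarith
      nlinarith
    apply key _ h h3
    rw [← h1]; exact h3
  · have h3 : ((a : ℝ) + b) ^ 2 ≤ ((a : ℝ) + 1) * (b + 1) * (a + b + 2) - (a + b - 2) := by
      have h4 : ((a : ℝ) + b + 1) * (a + b + 2) ≤ ((a : ℝ) + 1) * (b + 1) * (a + b + 2) := by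
        apply mul_le_mul_of_nonneg_right _ (by linarith)
        nlinarith [mul_nonneg ha hb]
      nlinarith
    apply key _ h
    · refine le_trans ?_ h3
      nlinarith [mul_nonneg ha hb]
    · refine le_trans ?_ h3
      nlinarith [mul_nonneg ha hb]

section

variable {Ω : Type*} [MeasurableSpace Ω] {μ : Measure Ω} [IsProbabilityMeasure μ] {S : ℕ → Set Ω}

/-- one good `n` -/
lemma one_n (A e : ℝ) (hA : 0 < A) (he : 0 < e) (he1 : e ≤ 1 / 100) (K₀ n : ℕ)
    (hF : Facts A e K₀ n ((n : ℝ) ^ (e / 8))) (R : Set ℕ) (hR : ∀ j, pr A j = 0 → j ∉ R)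
    (hG : GP R K₀ (hh n) (2 * n)) (T : Finset ℕ) (hT : ∀ j, j ≤ 2 * n → (j ∈ R ↔ j ∈ (T : Set ℕ)))
    (hbad : ¬ BadN A e K₀ n T) (a b : ℕ) (ha : a ≤ AA n) (hb : b ≤ AA n) :
    ∃ F : Finset (ℕ × ℕ), (n : ℝ) ^ (1 - 9 * e) ≤ F.card ∧ ∀ q ∈ F, 1 ≤ q.1 ∧ 1 ≤ q.2 ∧
      (rp R)^[a + 1] q.1 + (rp R)^[b + 1] q.2 = 2 * n ∧ (rp R)^[a + 1] q.1 ≠ (rp R)^[b + 1] q.2 := by
  classical
  obtain ⟨X, hXd⟩ : ∃ X, X = (n : ℝ) ^ (e / 8) := ⟨_, rfl⟩
  rw [← hXd] at hF
  obtain ⟨L, hL⟩ : ∃ L, L = LL e n := ⟨_, rfl⟩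
  obtain ⟨B, hB⟩ : ∃ B, B = L ^ 4 * L := ⟨_, rfl⟩
  obtain ⟨G, hGd⟩ : ∃ G, G = n / L ^ 8 := ⟨_, rfl⟩
  obtain ⟨b1, b2, b3, b4, b5, b6⟩ := num_bounds A e X hA he he1 K₀ n hF L B G hL hB hGd
  obtain ⟨c1, c2, c3⟩ := nat_bounds A e X K₀ n hF L B hB b2 b3
  have hn1000 := hF.f11
  obtain ⟨slo, hslo⟩ : ∃ slo, slo = K₀ * (hh n + 1) ^ AA n + B + L + hh n ^ AA n + 1 := ⟨_, rfl⟩
  obtain ⟨Y, hY⟩ : ∃ Y, Y = n - G * B - 1 := ⟨_, rfl⟩
  unfold BadN at hbad
  rw [← hL, ← hB, ← hGd, ← hslo, ← hY] at hbad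
  have h0R : 0 ∉ R := hR 0 (pr_zero A)
  have hcount := clean_card A hA n B G (by omega) b6
  -- a representation in every clean group
  have hex : ∀ γ ∈ (range G).filter (fun γ => Clean A n B γ), ∃ t, γ * B < t ∧ t ≤ γ * B + B ∧
      n - t ∈ II R (AA n + 1) ∧ n + t ∈ II R (AA n + 1) := by
    intro γ hγ
    rw [mem_filter, mem_range] at hγ
    have e1 : (γ + 1) * B ≤ G * B := Nat.mul_le_mul_right _ hγ.1
    have e2 : (γ + 1) * B = γ * B + B := by ring
    by_contra hcon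
    push Not at hcon
    apply hbad
    refine ⟨γ, hγ.1, hγ.2, ?_, ?_, ?_, ?_⟩
    · intro x hx1 hx2
      obtain ⟨y, hy, hy1, hy2⟩ := hG x hx1 (by omega)
      refine ⟨y, ⟨?_, by omega⟩, hy1, hy2⟩
      exact_mod_cast (hT y (by omega)).1 hy
    · rw [← NN_congr hT (show n - γ * B - 1 ≤ 2 * n by omega)]
      have h1 : NN R K₀ + slo ≤ NN R (K₀ + slo * hh n) := by
        apply NN_steps hG le_rfl
        right
        have : (slo - 1) * hh n ≤ slo * hh n := Nat.mul_le_mul_right _ (by omega)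
        rw [← hslo] at c1
        omega
      have h2 : NN R (K₀ + slo * hh n) ≤ NN R (n - γ * B - 1) := by
        apply NN_mono
        rw [← hslo] at c1
        omega
      omega
    · rw [← NN_congr hT (show n + γ * B ≤ 2 * n by omega)]
      have h1 := NN_half hA hR (n + γ * B) ⌈Real.exp (2 / A)⌉₊ (Nat.le_ceil _)
      omega
    · intro t ht1 ht2 h3
      rw [← hB] at ht2
      have h4 := hcon t ht1 ht2 ((II_congr hT (AA n + 1) (n - t) (by omega)).2 h3.1)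
      exact h4 ((II_congr hT (AA n + 1) (n + t) (by omega)).2 h3.2)
  -- the indices
  have hex2 : ∀ γ ∈ (range G).filter (fun γ => Clean A n B γ), ∃ t x y : ℕ, γ * B < t ∧ t ≤ γ * B + B ∧ 1 ≤ x ∧ 1 ≤ y ∧
      (rp R)^[a + 1] x = n - t ∧ (rp R)^[b + 1] y = n + t := by
    intro γ hγ
    obtain ⟨t, h1, h2, h3, h4⟩ := hex γ hγ
    obtain ⟨x, hx, hx2⟩ := II_rp h0R a (n - t) (II_anti' h0R (by omega) h3)
    obtain ⟨y, hy, hy2⟩ := II_rp h0R b (n + t) (II_anti' h0R (by omega) h4)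
    exact ⟨t, x, y, h1, h2, hx, hy, hx2, hy2⟩
  choose! t x y h1 h2 h3 h4 h5 h6 using hex2
  refine ⟨((range G).filter (fun γ => Clean A n B γ)).image (fun γ => (x γ, y γ)), ?_, ?_⟩
  · rw [card_image_of_injOn]
    · have hGc : (G : ℝ) - 1 ≤ ((((range G).filter (fun γ => Clean A n B γ)).card : ℕ) : ℝ) := by
        have : (G : ℝ) ≤ ((((range G).filter (fun γ => Clean A n B γ)).card : ℕ) : ℝ) + 1 := by
          have h7 : G ≤ ((range G).filter (fun γ => Clean A n B γ)).card + 1 := by omega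
          exact_mod_cast h7
        linarith
      refine le_trans ?_ hGc
      have hn : (1000 : ℝ) ≤ n := by exact_mod_cast hn1000
      have hX := hF.f1
      have hX8 : X ^ 8 = (n : ℝ) ^ e := by
        rw [hXd, ← Real.rpow_natCast, ← Real.rpow_mul (by linarith)]
        congr 1
        push_cast
        ring
      have hXe : (1000 : ℝ) ≤ (n : ℝ) ^ e := by
        rw [← hX8]
        calc (1000 : ℝ) ≤ X := hX
          _ = X ^ 1 := (pow_one X).symm
          _ ≤ X ^ 8 := pow_le_pow_right₀ (by linarith) (by norm_num)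
      have hL8 : (L : ℝ) ^ 8 ≤ (n : ℝ) ^ (8 * e) := by
        calc (L : ℝ) ^ 8 ≤ ((n : ℝ) ^ e) ^ 8 := by
              rw [← hX8]
              gcongr
          _ = (n : ℝ) ^ (8 * e) := by
              rw [← Real.rpow_natCast, ← Real.rpow_mul (by linarith)]
              congr 1
              push_cast
              ring
      have hLpos : (0 : ℝ) < (L : ℝ) ^ 8 := by
        have : (0 : ℝ) < L := by
          have h7 : (1 : ℝ) < X ^ 8 := by rw [hX8]; linarith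
          linarith
        positivity
      have hGlow : (n : ℝ) / (L : ℝ) ^ 8 - 1 ≤ G := by
        have h7 : n < L ^ 8 * (n / L ^ 8 + 1) := by
          have hL0 : 0 < L ^ 8 := by exact_mod_cast hLpos
          have := Nat.lt_mul_div_succ n hL0
          exact this
        rw [← hGd] at h7
        have h8 : (n : ℝ) < (L : ℝ) ^ 8 * (G + 1) := by exact_mod_cast h7
        rw [sub_le_iff_le_add, div_le_iff₀ hLpos]
        linarith
      have h9 : (n : ℝ) ^ (1 - 8 * e) ≤ (n : ℝ) / (L : ℝ) ^ 8 := by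
        rw [le_div_iff₀ hLpos]
        calc (n : ℝ) ^ (1 - 8 * e) * (L : ℝ) ^ 8 ≤ (n : ℝ) ^ (1 - 8 * e) * (n : ℝ) ^ (8 * e) := by gcongr
          _ = n := by
            rw [← Real.rpow_add (by linarith)]
            have : 1 - 8 * e + 8 * e = 1 := by ring
            rw [this, Real.rpow_one]
      have h10 : (n : ℝ) ^ (1 - 8 * e) = (n : ℝ) ^ (1 - 9 * e) * (n : ℝ) ^ e := by
        rw [← Real.rpow_add (by linarith)]
        congr 1
        ring
      have h11 : 1 ≤ (n : ℝ) ^ (1 - 9 * e) := Real.one_le_rpow (by linarith) (by linarith)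
      nlinarith
    · intro γ hγ γ' hγ' h7
      rw [mem_coe] at hγ hγ'
      simp only [Prod.mk.injEq] at h7
      have e1 := h5 γ hγ
      have e2 := h5 γ' hγ'
      rw [h7.1] at e1
      have h8 : n - t γ = n - t γ' := by rw [← e1, ← e2]
      have g1 := h1 γ hγ
      have g2 := h2 γ hγ
      have g3 := h1 γ' hγ'
      have g4 := h2 γ' hγ'
      have i1 := (mem_range.1 (mem_filter.1 hγ).1)
      have i2 := (mem_range.1 (mem_filter.1 hγ').1)
      have e3 : (γ + 1) * B ≤ G * B := Nat.mul_le_mul_right _ i1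
      have e4 : (γ' + 1) * B ≤ G * B := Nat.mul_le_mul_right _ i2
      have e5 : (γ + 1) * B = γ * B + B := by ring
      have e6 : (γ' + 1) * B = γ' * B + B := by ring
      have h9 : t γ = t γ' := by omega
      by_contra hne
      rcases lt_or_gt_of_ne hne with h | h
      · have : (γ + 1) * B ≤ γ' * B := Nat.mul_le_mul_right _ h
        omega
      · have : (γ' + 1) * B ≤ γ * B := Nat.mul_le_mul_right _ h
        omega
  · intro q hq
    rw [mem_image] at hq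
    obtain ⟨γ, hγ, rfl⟩ := hq
    have g1 := h1 γ hγ
    have g2 := h2 γ hγ
    have i1 := (mem_range.1 (mem_filter.1 hγ).1)
    have e3 : (γ + 1) * B ≤ G * B := Nat.mul_le_mul_right _ i1
    have e5 : (γ + 1) * B = γ * B + B := by ring
    refine ⟨h3 γ hγ, h4 γ hγ, ?_, ?_⟩
    · simp only
      rw [h5 γ hγ, h6 γ hγ]
      omega
    · simp only
      rw [h5 γ hγ, h6 γ hγ]
      omega

theorem main (A : ℝ) (hA : 0 < A) (hm : ∀ n, MeasurableSet (S n)) (hi : iIndepSet S μ)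
    (hp : ∀ n, μ.real (S n) = pr A n) (hp0 : ∀ n, μ.real (S n) = 0 → μ (S n) = 0) :
    ∀ᵐ ω ∂μ, {n | ω ∈ S n}.Infinite ∧ ∀ ε : ℝ, 0 < ε → ∀ᶠ n : ℕ in atTop, ∀ a b : ℕ, f2 a b ≤ n →
      ∃ F : Finset (ℕ × ℕ), (n : ℝ) ^ (1 - ε) ≤ F.card ∧ ∀ q ∈ F, 1 ≤ q.1 ∧ 1 ≤ q.2 ∧
        (rp {n | ω ∈ S n})^[a + 1] q.1 + (rp {n | ω ∈ S n})^[b + 1] q.2 = 2 * n ∧
        (rp {n | ω ∈ S n})^[a + 1] q.1 ≠ (rp {n | ω ∈ S n})^[b + 1] q.2 := by
  classical
  filter_upwards [bad_ae A hA hm hi hp, Pool.Agent.T2H62.MD.gaps_upper A hA hm hi hp,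
    Pool.Agent.T2H62.MD.ae_none hp0] with ω h1 h2 h3
  obtain ⟨R, hRd⟩ : ∃ R : Set ℕ, R = {n | ω ∈ S n} := ⟨_, rfl⟩
  have hR : ∀ j, pr A j = 0 → j ∉ R := by
    intro j hj
    rw [hRd]
    exact h3 j (by rw [hp j]; exact hj)
  obtain ⟨K₀, hK₀⟩ := Filter.eventually_atTop.mp (h2 3 (by norm_num))
  rw [← hRd]
  refine ⟨?_, ?_⟩
  · apply Set.infinite_of_forall_exists_gt
    intro N
    obtain ⟨y, hy1, hy2⟩ := hK₀ (max N K₀) (le_max_right _ _)
    rw [mem_Ioc] at hy1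
    exact ⟨y, by rw [hRd]; exact hy2, lt_of_le_of_lt (le_max_left _ _) hy1.1⟩
  · intro ε hε
    obtain ⟨m, hm'⟩ := exists_nat_gt (1 / ε)
    obtain ⟨e, he⟩ : ∃ e : ℝ, e = 1 / (100 * ((m : ℝ) + 1)) := ⟨_, rfl⟩
    have hm0 : (0 : ℝ) ≤ m := Nat.cast_nonneg m
    have he0 : 0 < e := by rw [he]; positivity
    have he1 : e ≤ 1 / 100 := by
      rw [he]
      apply one_div_le_one_div_of_le (by norm_num)
      linarith
    have heε : 9 * e ≤ ε := by
      rw [he]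
      rw [div_lt_iff₀ hε] at hm'
      rw [mul_one_div, div_le_iff₀ (by positivity)]
      nlinarith
    have h4 := h1 m K₀
    rw [← he] at h4
    filter_upwards [h4, ev_facts A e hA he0 K₀] with n h5 h6 a b hab
    obtain ⟨ha, hb⟩ := orders hab
    have hn1000 := h6.f11
    have hn : (1000 : ℝ) ≤ n := by exact_mod_cast hn1000
    have hG : GP R K₀ (hh n) (2 * n) := by
      intro x hx1 hx2
      obtain ⟨y, hy1, hy2⟩ := hK₀ x hx1
      rw [mem_Ioc] at hy1
      refine ⟨y, by rw [hRd]; exact hy2, hy1.1, hy1.2.trans ?_⟩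
      apply Nat.add_le_add_left
      unfold hh
      apply Nat.floor_mono
      have h7 : Real.log (x : ℝ) ^ (3 : ℝ) = Real.log (x : ℝ) ^ 3 := by
        rw [← Real.rpow_natCast]; norm_num
      rw [h7]
      have h8 : 0 ≤ Real.log (x : ℝ) := Real.log_natCast_nonneg x
      have h9 : Real.log (x : ℝ) ≤ Real.log (2 * n) := by
        rcases Nat.eq_zero_or_pos x with h10 | h10
        · rw [h10, Nat.cast_zero, Real.log_zero]
          exact Real.log_nonneg (by linarith)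
        · apply Real.log_le_log (by exact_mod_cast h10)
          exact_mod_cast hx2
      gcongr
    obtain ⟨F, hF1, hF2⟩ := one_n A e hA he0 he1 K₀ n h6 R hR hG (RT S (range (2 * n + 1)) ω) (by
      intro j hj
      unfold RT
      rw [hRd, mem_coe, mem_filter, mem_range]
      constructor
      · intro h; exact ⟨by omega, h⟩
      · intro h; exact h.2) h5 a b ha hb
    refine ⟨F, le_trans ?_ hF1, hF2⟩
    apply Real.rpow_le_rpow_of_exponent_le (by linarith)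
    linarith

end

end Pool.Agent.T2H64.IP
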